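import Mathlib
import Pool.Agent.Q149.HessB

/-!
Small norms in cubic orders `ℤ[t]`, `t³ - P t² + Q t - 1 = 0`, with one real place: bounds for the
coordinates of an element of norm at most `215` whose real conjugate lies in `(r/3, r²/3]`.
-/

namespace Pool.Agent.Q269.Hess27

open Pool.Agent.Q149.Hess (Nf Data Nf_t Nf_tinv normalise)

/-- the size of the real data for `P ≥ 15` -/
lemma size {P Q : ℤ} {r a B : ℝ} (h : Data P Q r a B) (hr : 1 < r) (hP : 15 ≤ P) :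
    14.4 ≤ r ∧ a ≤ 0.264 ∧ -0.264 ≤ a := by
  have h1 := h.h1
  have hB := h.hB
  have hp := h.hp
  have hPR : (15:ℝ) ≤ P := by exact_mod_cast hP
  have hr0 : 0 < r := by linarith
  have ha2 : r * a^2 ≤ 1 := by nlinarith [mul_pos hr0 hB]
  have ha1 : a^2 ≤ 1 := by nlinarith [sq_nonneg a]
  have hale : a ≤ 1 := by nlinarith
  have hr13 : 13 ≤ r := by linarith
  have ha3 : a ≤ 0.3 := by
    by_contra hc
    push Not at hc
    nlinarith
  have hr144 : 14.4 ≤ r := by linarith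
  refine ⟨hr144, ?_, ?_⟩
  · by_contra hc
    push Not at hc
    nlinarith
  · by_contra hc
    push Not at hc
    nlinarith

/-- the discriminant quantity `E = 4 P - Q²` -/
lemma E_eq {P Q : ℤ} {r a B : ℝ} (h : Data P Q r a B) :
    r * ((4*P - Q^2 : ℤ) : ℝ) = 4*r^3*B + 4*a*r - (a^2+B) := by
  push_cast
  rw [h.hp, h.hQ]
  have h1 := h.h1
  linear_combination (-(4*r^2 + 4*r*a + (a^2 + B)) : ℝ) * h1

lemma E_ge {P Q : ℤ} {r a B : ℝ} (h : Data P Q r a B) (hr : 1 < r) (hP : 15 ≤ P) :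
    -1 ≤ 4*P - Q^2 := by
  obtain ⟨h2, h3, h4⟩ := size h hr hP
  have hE := E_eq h
  have hr0 : 0 < r := by linarith
  have hB := h.hB
  have hc : a^2 + B ≤ 1/14 := by
    have h1 := h.h1
    have : 0 < a^2 + B := by positivity
    nlinarith
  have h5 : 0 < 4*r^3*B := by positivity
  by_contra hcon
  have hcon : (4*P - Q^2 : ℤ) ≤ -2 := by omega
  have hconR : (((4*P - Q^2 : ℤ) : ℝ)) ≤ -2 := by exact_mod_cast hcon
  nlinarith

/-- `K = 4 r³ B` is about `P E` -/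
lemma K_ge {P Q : ℤ} {r a B : ℝ} (h : Data P Q r a B) (hr : 1 < r) (hP : 15 ≤ P)
    (hE4 : 4 ≤ 4*P - Q^2) :
    2.94 * r ≤ 4*r^3*B ∧ 0.7 * ((P:ℝ) * ((4*P - Q^2 : ℤ) : ℝ)) - 0.6 ≤ 4*r^3*B := by
  obtain ⟨h2, h3, h4⟩ := size h hr hP
  have hE := E_eq h
  obtain ⟨E, hEd⟩ : ∃ E : ℝ, E = ((4*P - Q^2 : ℤ) : ℝ) := ⟨_, rfl⟩
  have hE4R : (4:ℝ) ≤ E := by rw [hEd]; exact_mod_cast hE4
  rw [← hEd] at hE ⊢
  have hp := h.hp
  have hB := h.hB
  have hc0 : 0 < a^2 + B := by positivity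
  have hr0 : 0 < r := by linarith
  have hPR : (15:ℝ) ≤ P := by exact_mod_cast hP
  have hK : 4*r^3*B = r*E - 4*a*r + (a^2+B) := by linarith
  have har : a * r ≤ 0.264 * r := mul_le_mul_of_nonneg_right h3 hr0.le
  constructor
  · rw [hK]
    have : r * 4 ≤ r * E := mul_le_mul_of_nonneg_left hE4R hr0.le
    linarith
  · rw [hK]
    -- r E = P E - 2 a E
    have e1 : r*E = P*E - 2*(a*E) := by rw [hp]; ring
    have e2 : a*E ≤ 0.264*E := mul_le_mul_of_nonneg_right h3 (by linarith)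
    have e3 : 15*E ≤ P*E := mul_le_mul_of_nonneg_right hPR (by linarith)
    have e4 : (P:ℝ)*4 ≤ P*E := mul_le_mul_of_nonneg_left hE4R (by linarith)
    have e5 : r ≤ P + 0.528 := by linarith
    linarith

/-- the scaled distance `d = (r-a)² + B` -/
lemma s_bd {P Q : ℤ} {r a B : ℝ} (h : Data P Q r a B) (hr : 1 < r) (hP : 15 ≤ P) :
    0.963 * r^2 ≤ (r-a)^2 + B ∧ (r-a)^2 + B ≤ 1.05 * r^2 := by
  obtain ⟨h2, h3, h4⟩ := size h hr hP
  have h1 := h.h1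
  have hB := h.hB
  have hr0 : 0 < r := by linarith
  have hc0 : 0 < a^2 + B := by positivity
  have hc : a^2 + B ≤ 1/14 := by nlinarith
  have e : (r-a)^2 + B = r^2 - 2*(a*r) + (a^2+B) := by ring
  have e1 : a * r ≤ 0.264 * r := mul_le_mul_of_nonneg_right h3 hr0.le
  have e2 : -0.264 * r ≤ a * r := mul_le_mul_of_nonneg_right h4 hr0.le
  rw [e]
  constructor <;> nlinarith

/-- Cauchy's inequality I1 -/
lemma I1 {B A' u v r a z : ℝ} (h : A' - z*((r-a)^2+B) = u + v*(r-a)) :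
    B * (A' - z*((r-a)^2+B))^2 ≤ (u^2 + B*v^2)*((r-a)^2+B) := by
  rw [h]
  nlinarith [sq_nonneg (u*(r-a) - B*v)]

lemma q1 {s : ℝ} (h : 0.963 ≤ s) : 8.07*s ≤ (3*s-0.1)^2 := by nlinarith
lemma q2 {s : ℝ} (h : 0.963 ≤ s) : 6*s ≤ (3*s-1/3)^2 := by nlinarith
lemma q3 {s : ℝ} (h : 0.963 ≤ s) : 0.77*s ≤ (s-0.1)^2 := by nlinarith
lemma q4 {s : ℝ} (h : 0.963 ≤ s) : 0.4*s ≤ (s-1/3)^2 := by nlinarith
lemma q5 {s δ : ℝ} (h : 0.963 ≤ s) (h3 : δ ≤ 0.0232) :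
    878*s < (31*s-δ)^2 := by nlinarith

/-- All the inequalities in one place. -/
structure Win (P Q : ℤ) (r a B : ℝ) (x y z : ℤ) (H N : ℝ) : Prop where
  hH : H = |(x:ℝ) + y*r + z*r^2|
  hL : r/3 < H
  hU : H ≤ r^2/3
  hN : H * ((x + y*a + z*(a^2-B))^2 + B*(y+2*a*z)^2) ≤ N

/-- bound for `z` -/
lemma z_bd {P Q : ℤ} {r a B H : ℝ} {x y z : ℤ} (h : Data P Q r a B) (hr : 1 < r) (hP : 15 ≤ P)
    (w : Win P Q r a B x y z H 215) (k : ℝ) (hk : 1 ≤ k) (hz : k ≤ |(z:ℝ)|)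
    (hK : 330 ≤ 4*r^3*B) (hc : k = 3 ∨ 3400 ≤ 4*r^3*B) : False := by
  obtain ⟨h2, h3, h4⟩ := size h hr hP
  obtain ⟨s1, s2⟩ := s_bd h hr hP
  have hr0 : 0 < r := by linarith
  have hB := h.hB
  obtain ⟨d, hd⟩ : ∃ d : ℝ, d = (r-a)^2 + B := ⟨_, rfl⟩
  have hd0 : 0 < d := by rw [hd]; positivity
  rw [← hd] at s1 s2
  have hHpos : 0 < H := by linarith [w.hL]
  have hHd : H < d := by have := w.hU; nlinarith
  -- |A' - z d| ≥ k d - H
  have habs : k*d - H ≤ |((x:ℝ) + y*r + z*r^2) - z*d| := by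
    have e := abs_sub_abs_le_abs_sub ((z:ℝ)*d) ((x:ℝ) + y*r + z*r^2)
    rw [abs_sub_comm, ← w.hH, abs_mul, abs_of_pos hd0] at e
    have := mul_le_mul_of_nonneg_right hz hd0.le
    linarith
  have hkd : H ≤ k*d := by
    have := mul_le_mul_of_nonneg_right hk hd0.le
    linarith
  have hsq : (k*d-H)^2 ≤ (((x:ℝ) + y*r + z*r^2) - z*d)^2 := by
    have := pow_le_pow_left₀ (by linarith : 0 ≤ k*d - H) habs 2
    rwa [sq_abs] at this
  have hI1 := I1 (B := B) (A' := (x:ℝ) + y*r + z*r^2) (u := x + y*a + z*(a^2-B))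
    (v := y + 2*a*z) (r := r) (a := a) (z := z) (by ring)
  rw [← hd] at hI1
  have hmain : H * (B * (k*d-H)^2) ≤ 215 * d := by
    calc H * (B * (k*d-H)^2) ≤ H * (B * (((x:ℝ) + y*r + z*r^2) - z*d)^2) := by
          apply mul_le_mul_of_nonneg_left _ hHpos.le
          exact mul_le_mul_of_nonneg_left hsq hB.le
      _ ≤ H * (((x + y*a + z*(a^2-B))^2 + B*(y+2*a*z)^2) * d) :=
          mul_le_mul_of_nonneg_left hI1 hHpos.le
      _ = (H * ((x + y*a + z*(a^2-B))^2 + B*(y+2*a*z)^2)) * d := by ring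
      _ ≤ 215 * d := mul_le_mul_of_nonneg_right w.hN hd0.le
  -- scale
  obtain ⟨s, hs⟩ : ∃ s : ℝ, d = s * r^2 := ⟨d / r^2, by field_simp⟩
  obtain ⟨t, ht⟩ : ∃ t : ℝ, H = t * r^2 := ⟨H / r^2, by field_simp⟩
  obtain ⟨K, hKd⟩ : ∃ K : ℝ, K = 4*r^3*B := ⟨_, rfl⟩
  rw [← hKd] at hK hc
  have hr2 : 0 < r^2 := by positivity
  have hs1 : 0.963 ≤ s := by
    rw [hs] at s1; exact le_of_mul_le_mul_right s1 hr2
  have hs2 : s ≤ 1.05 := by
    rw [hs] at s2; exact le_of_mul_le_mul_right s2 hr2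
  have ht0 : 0 < t := by
    rw [ht] at hHpos; exact (pos_iff_pos_of_mul_pos hHpos).mpr hr2
  have ht1 : t ≤ 1/3 := by
    have := w.hU; rw [ht] at this
    have : t * r^2 ≤ 1/3 * r^2 := by linarith
    exact le_of_mul_le_mul_right this hr2
  have ht2 : 1/3 < t*r := by
    have := w.hL; rw [ht] at this
    have : 1/3 * r < (t*r) * r := by linarith
    exact lt_of_mul_lt_mul_right this hr0.le
  have hfin : (t*r) * (K * (k*s - t)^2) ≤ 860 * s := by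
    have e1 : H * (B * (k*d-H)^2) * 4 = ((t*r) * (K * (k*s - t)^2)) * r^2 := by
      rw [ht, hs, hKd]; ring
    have e2 : 215 * d * 4 = (860 * s) * r^2 := by rw [hs]; ring
    have e3 : ((t*r) * (K * (k*s - t)^2)) * r^2 ≤ (860 * s) * r^2 := by
      rw [← e1, ← e2]; linarith
    exact le_of_mul_le_mul_right e3 hr2
  have hK0 : 0 < K := by linarith
  rcases hc with hk3 | hK2
  · rw [hk3] at hfin
    rcases le_or_gt t 0.1 with hcase | hcase
    · have g1 : (3*s-0.1)^2 ≤ (3*s - t)^2 :=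
        pow_le_pow_left₀ (by linarith) (by linarith) 2
      have g2 : 8.07 * s ≤ (3*s-0.1)^2 := q1 hs1
      have g3 : 330 * (8.07*s) ≤ K * (3*s-t)^2 :=
        mul_le_mul hK (le_trans g2 g1) (by linarith) hK0.le
      have g4 : 1/3 * (330 * (8.07*s)) ≤ (t*r) * (K * (3*s-t)^2) :=
        mul_le_mul ht2.le g3 (by linarith) (by linarith)
      linarith
    · have g1 : (3*s-1/3)^2 ≤ (3*s - t)^2 :=
        pow_le_pow_left₀ (by linarith) (by linarith) 2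
      have g2 : 6 * s ≤ (3*s-1/3)^2 := q2 hs1
      have g3 : 330 * (6*s) ≤ K * (3*s-t)^2 :=
        mul_le_mul hK (le_trans g2 g1) (by linarith) hK0.le
      have g5 : 1.44 ≤ t*r := by
        have := mul_le_mul hcase.le h2 (by norm_num) ht0.le
        norm_num at this ⊢
        linarith
      have g4 : 1.44 * (330 * (6*s)) ≤ (t*r) * (K * (3*s-t)^2) :=
        mul_le_mul g5 g3 (by linarith) (by linarith)
      linarith
  · have hks1 : s ≤ k*s := by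
      have := mul_le_mul_of_nonneg_right hk (by linarith : 0 ≤ s)
      linarith
    rcases le_or_gt t 0.1 with hcase | hcase
    · have g1 : (s-0.1)^2 ≤ (k*s - t)^2 :=
        pow_le_pow_left₀ (by linarith) (by linarith) 2
      have g2 : 0.77 * s ≤ (s-0.1)^2 := q3 hs1
      have g3 : 3400 * (0.77*s) ≤ K * (k*s-t)^2 :=
        mul_le_mul hK2 (le_trans g2 g1) (by linarith) hK0.le
      have g4 : 1/3 * (3400 * (0.77*s)) ≤ (t*r) * (K * (k*s-t)^2) :=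
        mul_le_mul ht2.le g3 (by linarith) (by linarith)
      linarith
    · have g1 : (s-1/3)^2 ≤ (k*s - t)^2 :=
        pow_le_pow_left₀ (by linarith) (by linarith) 2
      have g2 : 0.4 * s ≤ (s-1/3)^2 := q4 hs1
      have g3 : 3400 * (0.4*s) ≤ K * (k*s-t)^2 :=
        mul_le_mul hK2 (le_trans g2 g1) (by linarith) hK0.le
      have g5 : 1.44 ≤ t*r := by
        have := mul_le_mul hcase.le h2 (by norm_num) ht0.le
        norm_num at this ⊢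
        linarith
      have g4 : 1.44 * (3400 * (0.4*s)) ≤ (t*r) * (K * (k*s-t)^2) :=
        mul_le_mul g5 g3 (by linarith) (by linarith)
      linarith

/-- Cauchy's inequality I2 -/
lemma I2 {B u v α β : ℝ} : B * (α*u + β*v)^2 ≤ (B*α^2 + β^2) * (u^2 + B*v^2) := by
  nlinarith [sq_nonneg (β*u - B*α*v)]

/-- bound for `x` -/
lemma x_bd {P Q : ℤ} {r a B H : ℝ} {x y z : ℤ} (h : Data P Q r a B) (hr : 1 < r) (hP : 15 ≤ P)
    (w : Win P Q r a B x y z H 215) (hE4 : 4 ≤ 4*P - Q^2) : |(x:ℝ)| < 31 := by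
  by_contra hcon
  have hx : 31 ≤ |(x:ℝ)| := not_lt.mp hcon
  obtain ⟨h2, h3, h4⟩ := size h hr hP
  obtain ⟨s1, _⟩ := s_bd h hr hP
  obtain ⟨k1, _⟩ := K_ge h hr hP hE4
  have hr0 : 0 < r := by linarith
  have hB := h.hB
  have h1 := h.h1
  obtain ⟨d, hd⟩ : ∃ d : ℝ, d = (r-a)^2 + B := ⟨_, rfl⟩
  obtain ⟨c, hc⟩ : ∃ c : ℝ, c = a^2 + B := ⟨_, rfl⟩
  have hd0 : 0 < d := by rw [hd]; positivity
  have hc0 : 0 < c := by rw [hc]; positivity
  rw [← hd] at s1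
  rw [← hc] at h1
  have hHpos : 0 < H := by linarith [w.hL]
  obtain ⟨u, hu⟩ : ∃ u : ℝ, u = x + y*a + z*(a^2-B) := ⟨_, rfl⟩
  obtain ⟨v, hv⟩ : ∃ v : ℝ, v = y + 2*a*z := ⟨_, rfl⟩
  have hN := w.hN
  rw [← hu, ← hv] at hN
  have hHc : H * c ≤ r/3 := by
    calc H * c ≤ (r^2/3) * c := mul_le_mul_of_nonneg_right w.hU hc0.le
      _ = r/3 * (r * c) := by ring
      _ = r/3 := by rw [h1, mul_one]
  have habs : 31*d - r/3 ≤ |(x:ℝ)*d - ((x:ℝ) + y*r + z*r^2)*c| := by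
    have e := abs_sub_abs_le_abs_sub ((x:ℝ)*d) (((x:ℝ) + y*r + z*r^2)*c)
    rw [abs_mul, abs_mul, ← w.hH, abs_of_pos hd0, abs_of_pos hc0] at e
    have := mul_le_mul_of_nonneg_right hx hd0.le
    linarith
  have hpos : 0 ≤ 31*d - r/3 := by nlinarith
  have hsq : (31*d - r/3)^2 ≤ ((x:ℝ)*d - ((x:ℝ) + y*r + z*r^2)*c)^2 := by
    have := pow_le_pow_left₀ hpos habs 2
    rwa [sq_abs] at this
  have hlin : (x:ℝ)*d - ((x:ℝ) + y*r + z*r^2)*c = (r*(r-2*a))*u + (-r*(B+a*r-a^2))*v := by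
    rw [hd, hc, hu, hv]; ring
  have hquad : B*(r*(r-2*a))^2 + (-r*(B+a*r-a^2))^2 = r*d := by
    have : B*(r*(r-2*a))^2 + (-r*(B+a*r-a^2))^2 = r*(d*(r*c)) := by
      rw [hd, hc]; ring
    rw [this, h1, mul_one]
  have hmain : B * (31*d - r/3)^2 ≤ 645 * d := by
    have e1 : B * (31*d - r/3)^2 ≤ (r*d) * (u^2 + B*v^2) := by
      rw [← hquad]
      refine le_trans ?_ I2
      rw [← hlin]
      exact mul_le_mul_of_nonneg_left hsq hB.le
    have hw0 : 0 ≤ u^2 + B*v^2 := by positivity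
    have e2 : r/3 * (u^2 + B*v^2) ≤ 215 :=
      le_trans (mul_le_mul_of_nonneg_right w.hL.le hw0) hN
    have e3 := mul_le_mul_of_nonneg_right e2 hd0.le
    linarith
  obtain ⟨s, hs⟩ : ∃ s : ℝ, d = s * r^2 := ⟨d / r^2, by field_simp⟩
  obtain ⟨δ, hδ⟩ : ∃ δ : ℝ, r/3 = δ * r^2 := ⟨1/(3*r), by field_simp⟩
  have hr2 : 0 < r^2 := by positivity
  have hs1 : 0.963 ≤ s := by
    rw [hs] at s1; exact le_of_mul_le_mul_right s1 hr2
  have hδ1 : δ ≤ 0.0232 := by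
    have : δ * r^2 ≤ 0.0232 * r^2 := by
      rw [← hδ]
      have := mul_le_mul_of_nonneg_right h2 hr0.le
      nlinarith
    exact le_of_mul_le_mul_right this hr2
  have e4 := q5 hs1 hδ1
  have e5 : B * (31*d - r/3)^2 = B * r * r^3 * (31*s-δ)^2 := by rw [hδ, hs]; ring
  rw [e5, hs] at hmain
  have e6 : 2.94 * r * r * (878*s) ≤ 4*r^3*B * r * (31*s-δ)^2 := by
    apply mul_le_mul _ e4.le (by positivity) (by positivity)
    exact mul_le_mul_of_nonneg_right k1 hr0.le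
  have e7 : 4*r^3*B * r * (31*s-δ)^2 ≤ 2580 * s * r^2 := by linarith
  have e8 : 0 < s * r^2 := by positivity
  linarith

/-- bound for `2y + Qx` -/
lemma y_bd {P Q : ℤ} {r a B H : ℝ} {x y z : ℤ} (h : Data P Q r a B) (hr : 1 < r) (hP : 15 ≤ P)
    (w : Win P Q r a B x y z H 215) (hx : |(x:ℝ)| ≤ 30) (hz : |(z:ℝ)| ≤ 2) :
    |2*(y:ℝ) + Q*x| < 54 := by
  obtain ⟨h2, h3, h4⟩ := size h hr hP
  have hr0 : 0 < r := by linarith
  have hB := h.hB
  have h1 := h.h1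
  have hQ := h.hQ
  obtain ⟨c, hc⟩ : ∃ c : ℝ, c = a^2 + B := ⟨_, rfl⟩
  have hc0 : 0 < c := by rw [hc]; positivity
  rw [← hc] at h1
  have hQ' : (Q:ℝ) = 2*r*a + c := by rw [hQ, hc]; ring
  obtain ⟨u, hu⟩ : ∃ u : ℝ, u = x + y*a + z*(a^2-B) := ⟨_, rfl⟩
  obtain ⟨v, hv⟩ : ∃ v : ℝ, v = y + 2*a*z := ⟨_, rfl⟩
  have hN := w.hN
  rw [← hu, ← hv] at hN
  obtain ⟨q, hq⟩ : ∃ q : ℝ, q = y + z*a + x*r*a := ⟨_, rfl⟩
  have hq1 : q = r*(u*a + B*v) := by
    have : r*(u*a + B*v) = x*r*a + (y + z*a)*(r*c) := by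
      rw [hu, hv, hc]; ring
    rw [this, h1, hq]; ring
  have hq2 : q^2 ≤ 645 := by
    have e1 : (u*a + B*v)^2 ≤ c * (u^2 + B*v^2) := by
      rw [hc]
      nlinarith [mul_nonneg hB.le (sq_nonneg (u - a*v))]
    have e2 : q^2 ≤ r * (u^2 + B*v^2) := by
      calc q^2 = r^2*(u*a+B*v)^2 := by rw [hq1]; ring
        _ ≤ r^2*(c * (u^2 + B*v^2)) := mul_le_mul_of_nonneg_left e1 (by positivity)
        _ = (r*c) * (r * (u^2 + B*v^2)) := by ring
        _ = r * (u^2 + B*v^2) := by rw [h1, one_mul]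
    have hw0 : 0 ≤ u^2 + B*v^2 := by positivity
    have e3 : r/3 * (u^2 + B*v^2) ≤ 215 :=
      le_trans (mul_le_mul_of_nonneg_right w.hL.le hw0) hN
    linarith
  have hq3 : |q| ≤ 25.4 := abs_le_of_sq_le_sq (by norm_num; linarith) (by norm_num)
  have hcle : c ≤ 1/14.4 := by
    rw [le_div_iff₀ (by norm_num)]
    calc c * 14.4 ≤ c * r := mul_le_mul_of_nonneg_left h2 hc0.le
      _ = 1 := by rw [mul_comm]; exact h1
  have e : 2*(y:ℝ) + Q*x = 2*q - 2*(a*z) + c*x := by rw [hQ', hq]; ring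
  have ha : |a| ≤ 0.264 := abs_le.mpr ⟨by linarith, h3⟩
  have haz : |a*z| ≤ 0.264*2 := by
    rw [abs_mul]; exact mul_le_mul ha hz (abs_nonneg _) (by norm_num)
  have hcx : |c*x| ≤ 1/14.4*30 := by
    rw [abs_mul, abs_of_pos hc0]; exact mul_le_mul hcle hx (abs_nonneg _) (by norm_num)
  rw [e]
  obtain ⟨a1, a2⟩ := abs_le.mp hq3
  obtain ⟨b1, b2⟩ := abs_le.mp haz
  obtain ⟨c1, c2⟩ := abs_le.mp hcx
  rw [abs_lt]
  norm_num at a1 a2 b1 b2 c1 c2
  constructor <;> linarith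

end Pool.Agent.Q269.Hess27
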