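import Mathlib
import Pool.Agent.Q269.Hess27A

/-!
The finite check.
-/

namespace Pool.Agent.Q269.Hess27

open Pool.Agent.Q149.Hess (Nf Data Nf_t Nf_tinv normalise)

/-- the congruences satisfied by `(P, Q)` -/
def Reg (ε P Q : ℤ) : Prop :=
  2 ∣ P - Q ∧ ((ε = 1 ∧ 3 ∣ P - 1 ∧ 3 ∣ Q) ∨ (ε = -1 ∧ 3 ∣ P ∧ 3 ∣ Q - 1))

/-- the congruences satisfied by the coordinates -/
def Md (ε x y z : ℤ) : Prop := 2 ∣ x + y + z ∧ 3 ∣ x + z ∧ 3 ∣ y - ε*z

/-- the exceptional pairs -/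
def exc (ε : ℤ) : List (ℤ × ℤ) :=
  if ε = 1 then [(4,0),(7,3),(7,-3),(10,6),(10,0),(10,-6),(13,3),(13,-3),(16,6),(16,-6),(25,9),
    (82,18),(82,-18)]
  else [(102,-20),(33,-11),(24,-8),(18,-8),(15,-5),(9,-5),(12,-2),(6,-2),(9,1),(3,1),(12,4),(6,4),
    (15,7),(66,16)]

def forceN (k : ℕ) (f : ℕ → Bool) : Bool := match k with
  | 0 => f 0
  | k+1 => f (Nat.succ k)

def force (n : ℤ) (f : ℤ → Bool) : Bool := match n with
  | Int.ofNat k => forceN k (fun k => f (Int.ofNat k))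
  | Int.negSucc k => forceN k (fun k => f (Int.negSucc k))

lemma forceN_eq (k : ℕ) (f : ℕ → Bool) : forceN k f = f k := by
  cases k <;> rfl

lemma force_eq (n : ℤ) (f : ℤ → Bool) : force n f = f n := by
  cases n <;> simp only [force, forceN_eq]

def okN (n : ℤ) : Bool := match n with
  | Int.ofNat k => Nat.beq k 0 || Nat.ble 216 k
  | Int.negSucc k => Nat.ble 215 k

lemma okN_spec {n : ℤ} (h : okN n = true) : n = 0 ∨ 216 ≤ |n| := by
  cases n with
  | ofNat k =>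
    simp only [okN, Bool.or_eq_true, Nat.beq_eq, Nat.ble_eq] at h
    rcases h with h | h
    · left; rw [h]; rfl
    · right
      show (216:ℤ) ≤ |(k:ℤ)|
      rw [abs_of_nonneg (Int.natCast_nonneg k)]
      exact_mod_cast h
  | negSucc k =>
    simp only [okN, Nat.ble_eq] at h
    right
    rw [abs_of_neg (Int.negSucc_lt_zero k), Int.negSucc_eq]
    omega

def loop (A1 A2 A3 : ℤ) : ℕ → ℤ → Bool
  | 0, _ => true
  | k+1, y => okN (Int.add (Int.mul y (Int.add (Int.mul y (Int.add y A1)) A2)) A3) &&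
      force (Int.add y 6) (fun y => loop A1 A2 A3 k y)

lemma loop_spec {A1 A2 A3 : ℤ} : ∀ (k : ℕ) (y : ℤ), loop A1 A2 A3 k y = true →
    ∀ j : ℕ, j < k → okN ((y+6*j)*((y+6*j)*((y+6*j)+A1)+A2)+A3) = true := by
  intro k
  induction k with
  | zero => intro y _ j hj; omega
  | succ k ih =>
    intro y h j hj
    rw [loop, Bool.and_eq_true, force_eq] at h
    obtain ⟨h1, h2⟩ := h
    rcases Nat.eq_zero_or_pos j with rfl | hj0
    · simpa using h1
    · obtain ⟨i, rfl⟩ : ∃ i, j = i + 1 := ⟨j-1, by omega⟩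
      have := ih _ h2 i (by omega)
      have e : (Int.add y 6 + 6*(i:ℤ)) = y + 6*((i+1 : ℕ):ℤ) := by
        show y + 6 + 6*(i:ℤ) = _
        push_cast; ring
      rwa [e] at this

/-- the check for one pair -/
def chk (ε P Q E : ℤ) : Bool :=
  (List.range 3).all fun zi => (List.range 21).all fun b =>
    force zi fun z =>
    force (-z + 3*(b - 10)) fun x =>
    !(decide ((E-2)*((x-1)*(x-1)) ≤ 2580) || decide ((E-2)*((x+1)*(x+1)) ≤ 2580)) ||
    (force (x*Q+z*P) fun A1 =>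
    force (x*(x*P + z*(P*Q-3)) + z*z*Q) fun A2 =>
    force (x*(x*(x+z*(P*P-2*Q)) + z*z*(Q*Q-2*P)) + z*z*z) fun A3 =>
    force (3*(b-10) - 2*ε*z) fun y0 =>
    force (y0 + 6*((-Q*x - 2*y0)/12 - 4)) fun y1 =>
    loop A1 A2 A3 10 y1)

lemma chk_spec {ε P Q E : ℤ} (h : chk ε P Q E = true) {x y z : ℤ} (hM : Md ε x y z)
    (hz : 0 ≤ z) (hz2 : z ≤ 2) (hx : |x| ≤ 30) (hy : |2*y + Q*x| ≤ 53)
    (hE : (E-2)*((x-1)*(x-1)) ≤ 2580 ∨ (E-2)*((x+1)*(x+1)) ≤ 2580) :
    Nf P Q x y z = 0 ∨ 216 ≤ |Nf P Q x y z| := by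
  obtain ⟨m1, ⟨b, hb⟩, m3⟩ := hM
  rw [abs_le] at hx hy
  simp only [chk, List.all_eq_true, List.mem_range, force_eq] at h
  have hb1 : 0 ≤ b + 10 := by omega
  have hb2 : b + 10 < 21 := by omega
  have hzN : ((z.toNat : ℕ) : ℤ) = z := Int.toNat_of_nonneg hz
  have hbN : (((b+10).toNat : ℕ) : ℤ) = b + 10 := Int.toNat_of_nonneg hb1
  have h1 := h z.toNat (by omega) (b+10).toNat (by omega)
  rw [hzN, hbN] at h1
  have ex : -z + 3*(b + 10 - 10) = x := by omega
  have eb : 3*(b + 10 - 10) = 3*b := by ring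
  rw [ex, eb, Bool.or_eq_true] at h1
  rcases h1 with h1 | h1
  · exfalso
    simp only [Bool.not_eq_true', Bool.or_eq_false_iff, decide_eq_false_iff_not] at h1
    rcases hE with hE | hE
    · exact h1.1 hE
    · exact h1.2 hE
  · obtain ⟨c, hc⟩ : ∃ c, y = (3*b - 2*ε*z) + 6*c := by
      obtain ⟨t, ht⟩ := m3
      -- y = ε z + 3 t,  x + y + z even: 3 b + ε z + 3 t even
      have e2 : 2 ∣ t - (b - ε*z) := by
        obtain ⟨s, hs⟩ := m1
        have : 3*b + (ε*z + 3*t) = 2*s := by linarith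
        generalize ε*z = w at *
        omega
      obtain ⟨c, hc⟩ := e2
      exact ⟨c, by linear_combination ht + 3*hc⟩
    obtain ⟨y0, hy0⟩ : ∃ y0, y0 = 3*b - 2*ε*z := ⟨_, rfl⟩
    rw [← hy0] at h1 hc
    obtain ⟨D, hD⟩ : ∃ D, D = (-Q*x - 2*y0)/12 := ⟨_, rfl⟩
    rw [← hD] at h1
    have hQx : -Q*x = -(Q*x) := by ring
    rw [hQx] at hD
    have hj1 : D - 4 ≤ c := by
      generalize Q*x = w at *
      omega
    have hj2 : c ≤ D + 5 := by
      generalize Q*x = w at *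
      omega
    have h2 := loop_spec _ _ h1 (c - (D-4)).toNat (by omega)
    have hcN : (((c - (D-4)).toNat : ℕ) : ℤ) = c - (D-4) := Int.toNat_of_nonneg (by omega)
    rw [hcN] at h2
    have ey : y0 + 6*(D - 4) + 6*(c - (D-4)) = y := by rw [hc]; ring
    rw [ey] at h2
    have h3 := okN_spec h2
    have e : y*(y*(y+(x*Q+z*P)) + (x*(x*P + z*(P*Q-3)) + z*z*Q)) +
        (x*(x*(x+z*(P*P-2*Q)) + z*z*(Q*Q-2*P)) + z*z*z) = Nf P Q x y z := by
      unfold Nf; ring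
    rwa [e] at h3

/-- `Reg` as a test -/
def guard (ε P Q : ℤ) : Bool :=
  decide ((P - Q) % 2 = 0) && (if ε = 1 then decide (P % 3 = 1) && decide (Q % 3 = 0) else
    decide (P % 3 = 0) && decide (Q % 3 = 1))

lemma guard_of {ε P Q : ℤ} (h : Reg ε P Q) : guard ε P Q = true := by
  obtain ⟨h1, ⟨rfl, h2, h3⟩ | ⟨rfl, h2, h3⟩⟩ := h
  · simp only [guard, if_true, Bool.and_eq_true, decide_eq_true_eq]
    omega
  · have : ¬ ((-1:ℤ) = 1) := by decide
    simp only [guard, if_neg this, Bool.and_eq_true, decide_eq_true_eq]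
    omega

/-- all the pairs -/
def allchk (ε : ℤ) (lo hi : ℕ) : Bool :=
  (List.range (hi-lo)).all fun i => (List.range 36).all fun k =>
    force ((i:ℤ) + lo - 70) fun Q =>
    force (Q*Q/4+1+k) fun P =>
    force (4*P-Q*Q) fun E =>
    !(guard ε P Q) || !(decide (15 ≤ P)) || !(decide (P*E < 5000)) || (exc ε).contains (P, Q) ||
      (decide (475 ≤ P*E) && chk ε P Q E)

lemma allchk_spec {ε : ℤ} {lo hi : ℕ} (h : allchk ε lo hi = true) {P Q : ℤ} (hR : Reg ε P Q)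
    (hQ1 : (lo:ℤ) ≤ Q + 70) (hQ2 : Q + 70 < hi)
    (hP : 15 ≤ P) (hE : 4 ≤ 4*P - Q^2) (hPE : P*(4*P-Q^2) < 5000) (hx : (P, Q) ∉ exc ε) :
    475 ≤ P*(4*P-Q^2) ∧ chk ε P Q (4*P-Q^2) = true := by
  simp only [allchk, List.all_eq_true, List.mem_range, force_eq] at h
  have e1 : Q^2 = Q*Q := by ring
  rw [e1] at hE hPE ⊢
  have hE2 : 4*P - Q*Q ≤ 333 := by nlinarith
  have hE3 : 4*P - Q*Q ≤ 141 := by
    by_contra hcon
    have h5 : 36 ≤ P := by nlinarith [mul_self_nonneg Q]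
    nlinarith
  have hk1 : 0 ≤ P - Q*Q/4 - 1 := by omega
  have hk2 : P - Q*Q/4 - 1 < 36 := by omega
  have h1 := h (Q+70-lo).toNat (by omega) (P - Q*Q/4 - 1).toNat (by omega)
  have hN1 : (((Q+70-lo).toNat : ℕ) : ℤ) = Q + 70 - lo := Int.toNat_of_nonneg (by omega)
  have hN2 : (((P - Q*Q/4 - 1).toNat : ℕ) : ℤ) = P - Q*Q/4 - 1 := Int.toNat_of_nonneg hk1
  rw [hN1, hN2] at h1
  have eQ : Q + 70 - (lo:ℤ) + lo - 70 = Q := by ring
  rw [eQ] at h1
  have eP : Q*Q/4 + 1 + (P - Q*Q/4 - 1) = P := by ring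
  rw [eP] at h1
  have hg := guard_of hR
  have hc : (exc ε).contains (P, Q) = false := by
    simpa using hx
  have d1 : decide (15 ≤ P) = true := decide_eq_true hP
  have d2 : decide (P*(4*P-Q*Q) < 5000) = true := decide_eq_true hPE
  rw [hg, d1, d2, hc] at h1
  simpa using h1

set_option maxRecDepth 100000
theorem chk1a : allchk 1 0 50 = true := by decide +kernel
theorem chk1b : allchk 1 50 90 = true := by decide +kernel
theorem chk1c : allchk 1 90 141 = true := by decide +kernel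
theorem chk2a : allchk (-1) 0 50 = true := by decide +kernel
theorem chk2b : allchk (-1) 50 90 = true := by decide +kernel
theorem chk2c : allchk (-1) 90 141 = true := by decide +kernel

end Pool.Agent.Q269.Hess27
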