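import Mathlib
import Pool.Agent.Q269.Hess27B

/-!
No elements of small norm, except for the exceptional pairs.
-/

namespace Pool.Agent.Q269.Hess27

open Pool.Agent.Q149.Hess (Nf Data Nf_t Nf_tinv Nf_neg normalise)

lemma small_chk : ∀ i : Fin 15, ∀ j : Fin 22, ∀ ε ∈ [(1:ℤ), -1],
    guard ε i (j - 8) = true → (j:ℤ) - 8 < i →
    0 < 4*((j:ℤ)-8)^3 + 4*(i:ℤ)^3 + 27 - (i:ℤ)^2*((j:ℤ)-8)^2 - 18*i*((j:ℤ)-8) →
    (((i:ℤ), (j:ℤ)-8) ∈ exc ε) := by
  decide +kernel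

lemma small {ε P Q : ℤ} {r a B : ℝ} (h : Data P Q r a B) (hr : 1 < r) (hR : Reg ε P Q)
    (hP : P ≤ 14) : (P, Q) ∈ exc ε := by
  have h1 := h.h1
  have hB := h.hB
  have hp := h.hp
  have hQ := h.hQ
  have hr0 : 0 < r := by linarith
  have hP0 : 0 ≤ P := by
    have ha2 : r * a^2 ≤ 1 := by nlinarith [mul_pos hr0 hB]
    have ha1 : a^2 ≤ 1 := by nlinarith [sq_nonneg a]
    have hale : -1 ≤ a := by nlinarith
    have : (-1:ℝ) < P := by rw [hp]; linarith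
    have : (-1:ℤ) < P := by exact_mod_cast this
    omega
  have hQP : Q < P := by
    have e : (Q:ℝ) - P = (1-r)*((1-a)^2+B) := by
      rw [hp, hQ]; linear_combination h1
    have e2 : 0 < (1-a)^2+B := by positivity
    have e3 : (Q:ℝ) - P < 0 := by rw [e]; exact mul_neg_of_neg_of_pos (by linarith) e2
    have : (Q:ℝ) < P := by linarith
    exact_mod_cast this
  have hD : 0 < 4*Q^3 + 4*P^3 + 27 - P^2*Q^2 - 18*P*Q := by
    have e := h.disc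
    have e2 : 0 < 4*B*((r-a)^2+B)^2 := by positivity
    rw [← e] at e2
    exact_mod_cast e2
  have hQ8 : -8 ≤ Q := by
    by_contra hcon
    obtain ⟨k, hk⟩ : ∃ k, k = -Q := ⟨_, rfl⟩
    have hk9 : 9 ≤ k := by omega
    have hQk : Q = -k := by omega
    rw [hQk] at hD
    have hk2 : 9*k ≤ k^2 := by nlinarith
    have hk3 : 9*k^2 ≤ k^3 := by nlinarith [sq_nonneg k]
    have hd2 : 0 < -4*k^3 + 4*P^3 + 27 - P^2*k^2 + 18*P*k := by linarith
    clear hD hQP hQ hp h1 hR h hcon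
    interval_cases P <;> linarith
  have hg := guard_of hR
  have hε : ε ∈ [(1:ℤ), -1] := by
    rcases hR.2 with ⟨h, _⟩ | ⟨h, _⟩ <;> rw [h] <;> decide
  have key := small_chk ⟨P.toNat, by omega⟩ ⟨(Q+8).toNat, by omega⟩ ε hε
  have e1 : ((P.toNat : ℕ) : ℤ) = P := Int.toNat_of_nonneg hP0
  have e2 : (((Q+8).toNat : ℕ) : ℤ) = Q + 8 := Int.toNat_of_nonneg (by omega)
  simp only [e1, e2] at key
  have e3 : Q + 8 - 8 = Q := by ring
  rw [e3] at key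
  exact key hg hQP hD

/-- `E = 4P - Q²` is at least `4`. -/
lemma E_four {ε P Q : ℤ} (hR : Reg ε P Q) (h : -1 ≤ 4*P - Q^2) : 4 ≤ 4*P - Q^2 := by
  obtain ⟨⟨s, hs⟩, ⟨_, ⟨p, hp⟩, ⟨q, hq⟩⟩ | ⟨_, ⟨p, hp⟩, ⟨q, hq⟩⟩⟩ := hR
  · -- P = 3p+1, Q = 3q, p + q odd
    have hP : P = 3*p+1 := by omega
    rcases Int.even_or_odd' q with ⟨t, rfl | rfl⟩
    · -- q even
      obtain ⟨p', rfl⟩ : ∃ p', p = 2*p'+1 := ⟨p/2, by omega⟩
      have : 4*P - Q^2 = 24*p' + 16 - 36*t^2 := by rw [hP, hq]; ring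
      rw [this] at h ⊢
      generalize t^2 = w at *
      omega
    · obtain ⟨p', rfl⟩ : ∃ p', p = 2*p' := ⟨p/2, by omega⟩
      obtain ⟨w, hw⟩ := Int.even_mul_succ_self t
      have : 4*P - Q^2 = 24*p' + 4 - 36*(t*(t+1)) - 9 := by rw [hP, hq]; ring
      rw [this, hw] at h ⊢
      omega
  · have hP : P = 3*p := by omega
    have hQ : Q = 3*q+1 := by omega
    rcases Int.even_or_odd' q with ⟨t, rfl | rfl⟩
    · -- q even, Q odd: p odd
      obtain ⟨p', rfl⟩ : ∃ p', p = 2*p'+1 := ⟨p/2, by omega⟩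
      have : 4*P - Q^2 = 24*p' + 11 - 36*t^2 - 12*t := by rw [hP, hQ]; ring
      obtain ⟨w, hw⟩ := Int.even_mul_succ_self t
      have e : t^2 = w + w - t := by linarith
      rw [this, e] at h ⊢
      omega
    · obtain ⟨p', rfl⟩ : ∃ p', p = 2*p' := ⟨p/2, by omega⟩
      have : 4*P - Q^2 = 24*p' - 36*t^2 - 48*t - 16 := by rw [hP, hQ]; ring
      rw [this] at h ⊢
      generalize t^2 = w at *
      omega

lemma Md_t {ε P Q x y z : ℤ} (hR : Reg ε P Q) (h : Md ε x y z) :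
    Md ε z (x - Q*z) (y + P*z) := by
  obtain ⟨hs, hc⟩ := hR
  obtain ⟨m1, m2, m3⟩ := h
  refine ⟨?_, ?_, ?_⟩
  · have : z + (x - Q*z) + (y + P*z) = (x + y + z) + (P - Q)*z := by ring
    rw [this]; exact dvd_add m1 (Dvd.dvd.mul_right hs z)
  · rcases hc with ⟨rfl, hp, hq⟩ | ⟨rfl, hp, hq⟩
    · have : z + (y + P*z) = (y - 1*z) + ((P-1)*z + 3*z) := by ring
      rw [this]
      exact dvd_add m3 (dvd_add (Dvd.dvd.mul_right hp z) (Dvd.intro _ rfl))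
    · have : z + (y + P*z) = (y - (-1)*z) + P*z := by ring
      rw [this]
      exact dvd_add m3 (Dvd.dvd.mul_right hp z)
  · rcases hc with ⟨rfl, hp, hq⟩ | ⟨rfl, hp, hq⟩
    · have : x - Q*z - 1*(y + P*z) = (x+z) - (y - 1*z) - (Q*z + ((P-1)*z + 3*z)) := by ring
      rw [this]
      exact dvd_sub (dvd_sub m2 m3) (dvd_add (Dvd.dvd.mul_right hq z)
        (dvd_add (Dvd.dvd.mul_right hp z) (Dvd.intro _ rfl)))
    · have : x - Q*z - (-1)*(y + P*z) = (x+z) + (y - (-1)*z) - ((Q-1)*z + 3*z) + P*z := by ring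
      rw [this]
      exact dvd_add (dvd_sub (dvd_add m2 m3) (dvd_add (Dvd.dvd.mul_right hq z)
        (Dvd.intro _ rfl))) (Dvd.dvd.mul_right hp z)

lemma Md_tinv {ε P Q x y z : ℤ} (hR : Reg ε P Q) (h : Md ε x y z) :
    Md ε (y + Q*x) (z - P*x) x := by
  obtain ⟨hs, hc⟩ := hR
  obtain ⟨m1, m2, m3⟩ := h
  refine ⟨?_, ?_, ?_⟩
  · have : y + Q*x + (z - P*x) + x = (x + y + z) - (P - Q)*x := by ring
    rw [this]; exact dvd_sub m1 (Dvd.dvd.mul_right hs x)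
  · rcases hc with ⟨rfl, hp, hq⟩ | ⟨rfl, hp, hq⟩
    · have : y + Q*x + x = (y - 1*z) + (x + z) + Q*x := by ring
      rw [this]
      exact dvd_add (dvd_add m3 m2) (Dvd.dvd.mul_right hq x)
    · have : y + Q*x + x = (y - (-1)*z) - (x + z) + ((Q-1)*x + 3*x) := by ring
      rw [this]
      exact dvd_add (dvd_sub m3 m2) (dvd_add (Dvd.dvd.mul_right hq x) (Dvd.intro _ rfl))
  · rcases hc with ⟨rfl, hp, hq⟩ | ⟨rfl, hp, hq⟩
    · have : z - P*x - 1*x = (x + z) - ((P-1)*x + 3*x) := by ring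
      rw [this]
      exact dvd_sub m2 (dvd_add (Dvd.dvd.mul_right hp x) (Dvd.intro _ rfl))
    · have : z - P*x - (-1)*x = (x + z) - P*x := by ring
      rw [this]
      exact dvd_sub m2 (Dvd.dvd.mul_right hp x)

lemma Md_neg {ε x y z : ℤ} (h : Md ε x y z) : Md ε (-x) (-y) (-z) := by
  obtain ⟨m1, m2, m3⟩ := h
  refine ⟨?_, ?_, ?_⟩
  · have : -x + -y + -z = -(x + y + z) := by ring
    rw [this]; exact (dvd_neg).mpr m1
  · have : -x + -z = -(x + z) := by ring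
    rw [this]; exact (dvd_neg).mpr m2
  · have : -y - ε * -z = -(y - ε*z) := by ring
    rw [this]; exact (dvd_neg).mpr m3

lemma exists_win {ε P Q : ℤ} {r a B : ℝ} (h : Data P Q r a B) (hr : 1 < r) (hR : Reg ε P Q)
    {x y z : ℤ} (hM : Md ε x y z) (h0 : Nf P Q x y z ≠ 0) (hN : |Nf P Q x y z| ≤ 215) :
    ∃ (x y z : ℤ) (H : ℝ), Md ε x y z ∧ Nf P Q x y z ≠ 0 ∧ |Nf P Q x y z| ≤ 215 ∧
      Win P Q r a B x y z H 215 := by
  have hr0 : 0 < r := by linarith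
  have h1 := h.h1
  have hroot : r^3 - P*r^2 + Q*r - 1 = 0 := by
    rw [h.hp, h.hQ]; linear_combination h1
  have hval0 : ((x:ℝ) + y*r + z*r^2) ≠ 0 := by
    intro hv
    have := h.norm x y z
    rw [hv, zero_mul] at this
    exact h0 (by exact_mod_cast this)
  obtain ⟨⟨x', y', z'⟩, ⟨hv1, hv2, hv3⟩, hv4, hv5⟩ := normalise
    (fun v : ℤ × ℤ × ℤ => Md ε v.1 v.2.1 v.2.2 ∧ Nf P Q v.1 v.2.1 v.2.2 ≠ 0 ∧
      |Nf P Q v.1 v.2.1 v.2.2| ≤ 215)
    (fun v => (v.1:ℝ) + v.2.1*r + v.2.2*r^2)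
    (fun v => (v.2.2, v.1 - Q*v.2.2, v.2.1 + P*v.2.2))
    (fun v => (v.2.1 + Q*v.1, v.2.2 - P*v.1, v.1))
    r hr
    (by
      rintro ⟨x, y, z⟩ ⟨a1, a2, a3⟩
      simp only at a1 a2 a3 ⊢
      rw [Nf_t]
      exact ⟨Md_t hR a1, a2, a3⟩)
    (by
      rintro ⟨x, y, z⟩ ⟨a1, a2, a3⟩
      simp only at a1 a2 a3 ⊢
      rw [Nf_tinv]
      exact ⟨Md_tinv hR a1, a2, a3⟩)
    (by
      rintro ⟨x, y, z⟩
      simp only
      push_cast
      linear_combination (-z:ℝ) * hroot)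
    (by
      rintro ⟨x, y, z⟩
      simp only
      rw [eq_inv_mul_iff_mul_eq₀ hr0.ne']
      push_cast
      linear_combination (x:ℝ) * hroot)
    (r/3) (by positivity) (x, y, z) ⟨hM, h0, hN⟩ hval0
  simp only at hv1 hv2 hv3 hv4 hv5
  refine ⟨x', y', z', _, hv1, hv2, hv3, rfl, hv4, by linarith, ?_⟩
  have hn := h.norm x' y' z'
  have hE0 : 0 ≤ (x' + y'*a + z'*(a^2-B))^2 + B*(y'+2*a*z')^2 := by
    have := h.hB
    positivity
  have h3 : |((Nf P Q x' y' z' : ℤ) : ℝ)| ≤ 215 := by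
    have : ((|Nf P Q x' y' z'| : ℤ) : ℝ) ≤ ((215:ℤ):ℝ) := by exact_mod_cast hv3
    rw [Int.cast_abs] at this
    exact_mod_cast this
  rw [hn, abs_mul, abs_of_nonneg hE0] at h3
  exact h3

/-- the ellipse inequality -/
lemma ell {P Q : ℤ} {r a B H : ℝ} {x y z : ℤ} (h : Data P Q r a B) (hr : 1 < r) (hP : 15 ≤ P)
    (w : Win P Q r a B x y z H 215) (hE4 : 4 ≤ 4*P - Q^2) (hz0 : 0 ≤ z) (hz : z ≤ 2)
    (hE : 4*P - Q^2 ≤ 2580) :
    (4*P-Q^2-2)*((x-1)*(x-1)) ≤ 2580 ∨ (4*P-Q^2-2)*((x+1)*(x+1)) ≤ 2580 := by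
  obtain ⟨h2, h3, h4⟩ := size h hr hP
  have hr0 : 0 < r := by linarith
  have hB := h.hB
  have h1 := h.h1
  have hEE := E_eq h
  obtain ⟨E, hEd⟩ : ∃ E : ℤ, E = 4*P - Q^2 := ⟨_, rfl⟩
  rw [← hEd] at hEE hE4 hE ⊢
  obtain ⟨c, hc⟩ : ∃ c : ℝ, c = a^2 + B := ⟨_, rfl⟩
  have hc0 : 0 < c := by rw [hc]; positivity
  rw [← hc] at h1 hEE
  obtain ⟨u, hu⟩ : ∃ u : ℝ, u = x + y*a + z*(a^2-B) := ⟨_, rfl⟩
  obtain ⟨v, hv⟩ : ∃ v : ℝ, v = y + 2*a*z := ⟨_, rfl⟩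
  have hN := w.hN
  rw [← hu, ← hv] at hN
  have hcle : c ≤ 1/14.4 := by
    rw [le_div_iff₀ (by norm_num)]
    calc c * 14.4 ≤ c * r := mul_le_mul_of_nonneg_left h2 hc0.le
      _ = 1 := by rw [mul_comm]; exact h1
  have huv : u - a*v = x - z*c := by rw [hu, hv, hc]; ring
  have e1 : B*(u-a*v)^2 ≤ c * (u^2 + B*v^2) := by
    rw [hc]
    nlinarith [sq_nonneg (u*a + B*v)]
  have hw0 : 0 ≤ u^2 + B*v^2 := by positivity
  have e3 : r/3 * (u^2 + B*v^2) ≤ 215 :=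
    le_trans (mul_le_mul_of_nonneg_right w.hL.le hw0) hN
  have e4 : r^2*B*(x-z*c)^2 ≤ 645 := by
    rw [← huv]
    calc r^2*B*(u-a*v)^2 = r^2*(B*(u-a*v)^2) := by ring
      _ ≤ r^2*(c*(u^2+B*v^2)) := mul_le_mul_of_nonneg_left e1 (by positivity)
      _ = (r*c)*(r*(u^2+B*v^2)) := by ring
      _ = r*(u^2+B*v^2) := by rw [h1, one_mul]
      _ ≤ 645 := by linarith
  -- 4 r² B = E - 4a + c²
  have e5 : 4*r^2*B = E - 4*a + c^2 := by
    have : c * (r*(E:ℝ)) = c*(4*r^3*B + 4*a*r - c) := by rw [hEE]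
    linear_combination (-1:ℝ)*this + ((E:ℝ) - 4*r^2*B - 4*a) * h1
  have e6 : (E:ℝ) - 2 ≤ 4*r^2*B := by rw [e5]; nlinarith
  have e7 : ((E:ℝ)-2)*(x-z*c)^2 ≤ 2580 := by
    have := mul_le_mul_of_nonneg_right e6 (sq_nonneg ((x:ℝ)-z*c))
    linarith
  have hz0R : (0:ℝ) ≤ z := by exact_mod_cast hz0
  have hzR : (z:ℝ) ≤ 2 := by exact_mod_cast hz
  have hzc0 : 0 ≤ z*c := by positivity
  have hzc : z*c ≤ 1 := by
    calc (z:ℝ)*c ≤ 2*(1/14.4) := mul_le_mul hzR hcle hc0.le (by norm_num)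
      _ ≤ 1 := by norm_num
  have hER : (0:ℝ) ≤ (E:ℝ) - 2 := by
    have : (4:ℝ) ≤ (E:ℝ) := by exact_mod_cast hE4
    linarith
  rcases lt_trichotomy x 0 with hx | hx | hx
  · right
    have hxR : (x:ℝ) ≤ -1 := by exact_mod_cast (by omega : x ≤ -1)
    have g1 : ((x:ℝ)+1)^2 ≤ (x-z*c)^2 := by
      rw [← sq_abs, ← sq_abs ((x:ℝ) - z*c), abs_of_nonpos (by linarith), abs_of_nonpos (by linarith)]
      exact pow_le_pow_left₀ (by linarith) (by linarith) 2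
    have g2 := mul_le_mul_of_nonneg_left g1 hER
    have g3 : ((E:ℝ)-2)*((x+1)*(x+1)) ≤ 2580 := by linarith [g2, e7, sq ((x:ℝ)+1)]
    exact_mod_cast g3
  · left
    rw [hx]
    norm_num
    linarith
  · left
    have hxR : (1:ℝ) ≤ x := by exact_mod_cast (by omega : 1 ≤ x)
    have g1 : ((x:ℝ)-1)^2 ≤ (x-z*c)^2 :=
      pow_le_pow_left₀ (by linarith) (by linarith) 2
    have g2 := mul_le_mul_of_nonneg_left g1 hER
    have g3 : ((E:ℝ)-2)*((x-1)*(x-1)) ≤ 2580 := by linarith [g2, e7, sq ((x:ℝ)-1)]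
    exact_mod_cast g3

/-- the large pairs -/
lemma large {P Q x y E : ℤ} (hEd : E = 4*P - Q^2) (hE : 4 ≤ E) (hPE : 5000 ≤ P*E)
    (hx3 : 3 ∣ x) (hy3 : 3 ∣ y) (hxy : 2 ∣ x + y) (hx : |x| ≤ 30) (hy : |2*y + Q*x| ≤ 53)
    (h0 : Nf P Q x y 0 ≠ 0) (hN : |Nf P Q x y 0| ≤ 215) : False := by
  obtain ⟨X, rfl⟩ := hx3
  obtain ⟨Y, rfl⟩ := hy3
  obtain ⟨G, hG⟩ : ∃ G, G = X^3 + X^2*Y*P + X*Y^2*Q + Y^3 := ⟨_, rfl⟩
  have hNG : Nf P Q (3*X) (3*Y) 0 = 27*G := by rw [hG]; unfold Nf; ring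
  rw [hNG] at h0 hN
  have hG0 : G ≠ 0 := by intro h; apply h0; rw [h]; ring
  have hG7 : |G| ≤ 7 := by rw [abs_le] at hN ⊢; omega
  have hX10 : |X| ≤ 10 := by rw [abs_le] at hx ⊢; omega
  have hXY : |2*Y + Q*X| ≤ 17 := by
    have e : 2*(3*Y) + Q*(3*X) = 3*(2*Y+Q*X) := by ring
    rw [e] at hy
    rw [abs_le] at hy ⊢
    omega
  have hpar : 2 ∣ X + Y := by omega
  have cube : ∀ t : ℤ, 2 ∣ t → t ≠ 0 → |t^3| ≤ 7 → False := by
    intro t ht ht0 h7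
    have h2 : 2 ≤ |t| := by
      rcases abs_cases t with ⟨h, _⟩ | ⟨h, _⟩ <;> omega
    have h8 : (2:ℤ)^3 ≤ |t|^3 := pow_le_pow_left₀ (by norm_num) h2 3
    rw [abs_pow] at h7
    omega
  rcases eq_or_ne X 0 with hX | hX
  · have hGY : G = Y^3 := by rw [hG, hX]; ring
    have hY0 : Y ≠ 0 := by rintro rfl; apply hG0; rw [hGY]; norm_num
    rw [hGY] at hG7
    exact cube Y (by omega) hY0 hG7
  rcases eq_or_ne Y 0 with hY | hY
  · have hGX : G = X^3 := by rw [hG, hY]; ring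
    rw [hGX] at hG7
    exact cube X (by omega) hX hG7
  obtain ⟨n, hn⟩ : ∃ n, n = |X| := ⟨_, rfl⟩
  obtain ⟨w, hw⟩ : ∃ w, w = |Y| := ⟨_, rfl⟩
  have hn1 : 1 ≤ n := by rw [hn]; exact Int.one_le_abs hX
  have hw1 : 1 ≤ w := by rw [hw]; exact Int.one_le_abs hY
  have hn10 : n ≤ 10 := by rw [hn]; exact hX10
  have hX2 : X^2 = n^2 := by rw [hn, sq_abs]
  have key : Y*((2*Y+Q*X)^2 + E*X^2) = 4*(G - X^3) := by rw [hG, hEd]; ring
  have key2 : w*((2*Y+Q*X)^2 + E*n^2) ≤ 4*(7 + n^3) := by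
    have hnn : 0 ≤ (2*Y+Q*X)^2 + E*X^2 := by positivity
    have e1 : w*((2*Y+Q*X)^2 + E*X^2) = |4*(G-X^3)| := by
      rw [← key, abs_mul, abs_of_nonneg hnn, hw]
    rw [← hX2, e1, abs_mul]
    have e2 : |G - X^3| ≤ |G| + |X^3| := abs_sub _ _
    rw [abs_pow, ← hn] at e2
    have e3 : |(4:ℤ)| = 4 := by norm_num
    rw [e3]
    linarith
  have key3 : w*E*n^2 ≤ 28 + 4*n^3 := by
    have : 0 ≤ w*(2*Y+Q*X)^2 := by positivity
    nlinarith
  have hwE : w*E ≤ 40 := by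
    generalize w*E = t at key3 ⊢
    clear key2 key hX2 hn
    interval_cases n <;> omega
  have hE40 : E ≤ 40 := by nlinarith
  have hw10 : w ≤ 10 := by nlinarith
  have hQ : |Q| ≤ 17 + 2*w := by
    have e1 : |Q*X| ≤ |2*Y+Q*X| + |2*Y| := by
      have := abs_sub (2*Y+Q*X) (2*Y)
      have e : 2*Y+Q*X - 2*Y = Q*X := by ring
      rwa [e] at this
    rw [abs_mul, ← hn, abs_mul, ← hw] at e1
    have e3 : |(2:ℤ)| = 2 := by norm_num
    rw [e3] at e1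
    have e4 : |Q| * 1 ≤ |Q| * n := mul_le_mul_of_nonneg_left hn1 (abs_nonneg _)
    linarith
  have hQ2 : Q^2 ≤ (17+2*w)^2 := by
    rw [← sq_abs]; exact pow_le_pow_left₀ (abs_nonneg _) hQ 2
  have h4 : 4*(P*E) = (Q^2+E)*E := by rw [hEd]; ring
  have h5 : (Q^2+E)*E ≤ ((17+2*w)^2+E)*E :=
    mul_le_mul_of_nonneg_right (by linarith) (by linarith)
  have h6 : ((17+2*w)^2+E)*E = 4*w*(w*E) + 68*(w*E) + 289*E + E*E := by ring
  have h7 : 4*w*(w*E) ≤ 4*w*40 := mul_le_mul_of_nonneg_left hwE (by linarith)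
  have h8 : E*E ≤ 40*40 := mul_le_mul hE40 hE40 (by linarith) (by norm_num)
  linarith

lemma neg_case {ε P Q : ℤ} {r a B H : ℝ} (h : Data P Q r a B) (hr : 1 < r) (hR : Reg ε P Q)
    (hP : 15 ≤ P) (hE4 : 4 ≤ 4*P - Q^2) (hx : (P, Q) ∉ exc ε)
    {x y z : ℤ} (hM : Md ε x y z) (hz0 : 0 ≤ z) (h0 : Nf P Q x y z ≠ 0)
    (hN : |Nf P Q x y z| ≤ 215) (w : Win P Q r a B x y z H 215) : False := by
  obtain ⟨k1, k2⟩ := K_ge h hr hP hE4
  have hxb : |x| ≤ 30 := by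
    have := x_bd h hr hP w hE4
    have : |x| < 31 := by exact_mod_cast this
    omega
  have hxbR : |(x:ℝ)| ≤ 30 := by exact_mod_cast hxb
  have hcast : ((P * (4*P-Q^2) : ℤ) : ℝ) = (P:ℝ) * ((4*P - Q^2 : ℤ) : ℝ) := by push_cast; ring
  rcases lt_or_ge (P*(4*P-Q^2)) 5000 with hPE | hPE
  · -- finite check
    have hPb : P ≤ 1250 := by nlinarith
    have hQ2 : Q^2 ≤ 4996 := by linarith
    have hQ1 : -70 ≤ Q := by nlinarith
    have hQ3 : Q ≤ 70 := by nlinarith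
    have hchk : 475 ≤ P*(4*P-Q^2) ∧ chk ε P Q (4*P-Q^2) = true := by
      have hε : ε = 1 ∨ ε = -1 := by
        rcases hR.2 with ⟨h, _⟩ | ⟨h, _⟩
        · exact Or.inl h
        · exact Or.inr h
      have hcases : Q + 70 < 50 ∨ (50 ≤ Q + 70 ∧ Q + 70 < 90) ∨ (90 ≤ Q + 70) := by omega
      rcases hε with rfl | rfl
      · rcases hcases with hc | ⟨hc, hc2⟩ | hc
        · exact allchk_spec chk1a hR (by push_cast; omega) (by push_cast; omega) hP hE4 hPE hx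
        · exact allchk_spec chk1b hR (by push_cast; omega) (by push_cast; omega) hP hE4 hPE hx
        · exact allchk_spec chk1c hR (by push_cast; omega) (by push_cast; omega) hP hE4 hPE hx
      · rcases hcases with hc | ⟨hc, hc2⟩ | hc
        · exact allchk_spec chk2a hR (by push_cast; omega) (by push_cast; omega) hP hE4 hPE hx
        · exact allchk_spec chk2b hR (by push_cast; omega) (by push_cast; omega) hP hE4 hPE hx
        · exact allchk_spec chk2c hR (by push_cast; omega) (by push_cast; omega) hP hE4 hPE hx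
    obtain ⟨h475, hck⟩ := hchk
    have hK : 330 ≤ 4*r^3*B := by
      have : (475:ℝ) ≤ ((P * (4*P-Q^2) : ℤ) : ℝ) := by exact_mod_cast h475
      rw [hcast] at this
      linarith
    have hz2 : z ≤ 2 := by
      by_contra hcon
      have hz3 : (3:ℝ) ≤ |(z:ℝ)| := by
        have h3 : (3:ℝ) ≤ z := by exact_mod_cast (by omega : 3 ≤ z)
        exact le_trans h3 (le_abs_self _)
      exact z_bd h hr hP w 3 (by norm_num) hz3 hK (Or.inl rfl)
    have hzR : |(z:ℝ)| ≤ 2 := by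
      have h3 : (z:ℝ) ≤ 2 := by exact_mod_cast hz2
      have h4 : (0:ℝ) ≤ z := by exact_mod_cast hz0
      rw [abs_of_nonneg h4]; exact h3
    have hyb : |2*y + Q*x| ≤ 53 := by
      have := y_bd h hr hP w hxbR hzR
      have : |2*y + Q*x| < 54 := by exact_mod_cast this
      omega
    have hE141 : 4*P - Q^2 ≤ 2580 := by nlinarith
    have hell := ell h hr hP w hE4 hz0 hz2 hE141
    rcases chk_spec hck hM hz0 hz2 hxb hyb hell with hh | hh
    · exact h0 hh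
    · omega
  · have h5000 : (5000:ℝ) ≤ ((P * (4*P-Q^2) : ℤ) : ℝ) := by exact_mod_cast hPE
    rw [hcast] at h5000
    have hK : 3400 ≤ 4*r^3*B := by linarith
    have hz1 : z = 0 := by
      by_contra hcon
      have hz3 : (1:ℝ) ≤ |(z:ℝ)| := by
        have h3 : (1:ℝ) ≤ z := by exact_mod_cast (by omega : 1 ≤ z)
        exact le_trans h3 (le_abs_self _)
      exact z_bd h hr hP w 1 (by norm_num) hz3 (by linarith) (Or.inr hK)
    subst hz1
    have hyb : |2*y + Q*x| ≤ 53 := by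
      have := y_bd h hr hP w hxbR (by norm_num)
      have : |2*y + Q*x| < 54 := by exact_mod_cast this
      omega
    obtain ⟨m1, m2, m3⟩ := hM
    exact large (E := 4*P - Q^2) rfl hE4 hPE (by simpa using m2) (by simpa using m3)
      (by simpa using m1) hxb hyb h0 hN

/-- **Main estimate.** -/
theorem main {ε P Q : ℤ} {r a B : ℝ} (h : Data P Q r a B) (hr : 1 < r) (hR : Reg ε P Q)
    (hx : (P, Q) ∉ exc ε) {x y z : ℤ} (hM : Md ε x y z) (h0 : Nf P Q x y z ≠ 0) :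
    216 ≤ |Nf P Q x y z| := by
  by_contra hcon
  have hN : |Nf P Q x y z| ≤ 215 := by omega
  have hP : 15 ≤ P := by
    by_contra hc
    exact hx (small h hr hR (by omega))
  have hE4 := E_four hR (E_ge h hr hP)
  obtain ⟨x', y', z', H, g1, g2, g3, g4⟩ := exists_win h hr hR hM h0 hN
  rcases le_or_gt 0 z' with hz | hz
  · exact neg_case h hr hR hP hE4 hx g1 hz g2 g3 g4
  · refine neg_case h hr hR hP hE4 hx (Md_neg g1) (z := -z') (by omega) (H := H) ?_ ?_ ?_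
    · rw [Nf_neg]; exact neg_ne_zero.mpr g2
    · rw [Nf_neg, abs_neg]; exact g3
    · refine ⟨?_, g4.hL, g4.hU, ?_⟩
      · rw [g4.hH]
        push_cast
        rw [← abs_neg]
        congr 1
        ring
      · have := g4.hN
        push_cast
        have e : (-(x':ℝ) + -(y':ℝ)*a + -(z':ℝ)*(a^2-B))^2 + B*(-(y':ℝ)+2*a*(-(z':ℝ)))^2 =
          (x' + y'*a + z'*(a^2-B))^2 + B*(y'+2*a*z')^2 := by ring
        rw [e]
        exact this

end Pool.Agent.Q269.Hess27
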