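import Mathlib
import Pool.Agent.Q149.HessE
import Pool.Agent.Q269.Hess27C

/-!
The Hessenberg matrices `H(m,n)` of MP_51245c_nt: definitions, NRS-matrices, and the reduction to
elements of small norm.
-/

namespace Pool.Agent.Q269.Hess27

open Polynomial Matrix
open Pool.Agent.Q149.Hess (Nf Data indep)

/-- The matrix `H(m,n)` of the problem. -/
def H (m n : ℤ) : Matrix (Fin 3) (Fin 3) ℤ := !![1, 1, m+n; 2, 1, 2*m+n; 0, 3, 3*n-1]

/-- upper Hessenberg `3 × 3` matrices -/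
def IsHessenberg (A : Matrix (Fin 3) (Fin 3) ℤ) : Prop := A 2 0 = 0

/-- the Hessenberg complexity `ς(A) = a₂₁² |a₃₂|` -/
def complexity (A : Matrix (Fin 3) (Fin 3) ℤ) : ℤ := (A 1 0)^2 * |A 2 1|

/-- `B = X A X⁻¹` for some `X ∈ GL(3, ℤ)` -/
def IntConj (A B : Matrix (Fin 3) (Fin 3) ℤ) : Prop :=
  ∃ X : GL (Fin 3) ℤ, B = (X : Matrix (Fin 3) (Fin 3) ℤ) * A *
    ((X⁻¹ : GL (Fin 3) ℤ) : Matrix (Fin 3) (Fin 3) ℤ)

/-- `A` is ς-reduced: `ς(A) ≤ ς(B)` for every upper Hessenberg matrix `B` integer conjugate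
to `A`. -/
def Reduced (A : Matrix (Fin 3) (Fin 3) ℤ) : Prop :=
  ∀ B : Matrix (Fin 3) (Fin 3) ℤ, IsHessenberg B → IntConj A B → complexity A ≤ complexity B

/-- `A` is an NRS-matrix: its characteristic polynomial is irreducible over `ℚ` and has negative
discriminant. -/
def NRS (A : Matrix (Fin 3) (Fin 3) ℤ) : Prop :=
  Irreducible (A.charpoly.map (Int.castRingHom ℚ)) ∧ A.charpoly.discr < 0

lemma charpoly_H (m n : ℤ) :
    (H m n).charpoly = X^3 - C (3*n+1) * X^2 + C (3*n-6*m-3) * X - 1 := by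
  unfold Matrix.charpoly Matrix.charmatrix H
  rw [Matrix.det_fin_three]
  simp
  ring

lemma det_H (m n : ℤ) : (H m n).det = 1 := by
  unfold H
  rw [Matrix.det_fin_three]
  simp
  ring

lemma charpoly_natDegree (m n : ℤ) : (H m n).charpoly.natDegree = 3 := by
  simp [Matrix.charpoly_natDegree_eq_dim]

lemma charpoly_monic (m n : ℤ) : (H m n).charpoly.Monic := Matrix.charpoly_monic _

lemma discr_H (m n : ℤ) : (H m n).charpoly.discr =
    -(4*(3*n-6*m-3)^3 + 4*(3*n+1)^3 + 27 - (3*n+1)^2*(3*n-6*m-3)^2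
      - 18*(3*n+1)*(3*n-6*m-3)) := by
  have hd : (H m n).charpoly.degree = 3 := by
    rw [degree_eq_natDegree (charpoly_monic m n).ne_zero, charpoly_natDegree]; rfl
  rw [discr_of_degree_eq_three hd, charpoly_H]
  simp only [coeff_sub, coeff_add, coeff_C_mul, coeff_X_pow, coeff_X, coeff_one]
  norm_num
  ring

/-- the real data -/
lemma data_of {p Q : ℤ} (hD : 0 < 4*Q^3 + 4*p^3 + 27 - p^2*Q^2 - 18*p*Q) :
    ∃ r a b : ℝ, Data p Q r a (b^2) := by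
  have hDR : (0:ℝ) < 4*Q^3 + 4*p^3 + 27 - p^2*Q^2 - 18*p*Q := by exact_mod_cast hD
  obtain ⟨r, hr⟩ : ∃ r : ℝ, r^3 - p*r^2 + Q*r - 1 = 0 := by
    have hcont : Continuous (fun r : ℝ => r^3 - p*r^2 + Q*r - 1) := by fun_prop
    obtain ⟨N, hN⟩ : ∃ N : ℝ, N = |(p:ℝ)| + |(Q:ℝ)| + 1 := ⟨_, rfl⟩
    have hN0 : 0 ≤ N := by rw [hN]; positivity
    have hN1 : 1 ≤ N := by rw [hN]; linarith [abs_nonneg (p:ℝ), abs_nonneg (Q:ℝ)]
    have h0 : (fun r : ℝ => r^3 - p*r^2 + Q*r - 1) 0 ≤ 0 := by norm_num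
    have h1 : 0 ≤ (fun r : ℝ => r^3 - p*r^2 + Q*r - 1) N := by
      show 0 ≤ N^3 - p*N^2 + Q*N - 1
      have a1 : (p:ℝ) ≤ |(p:ℝ)| := le_abs_self _
      have a2 : -|(Q:ℝ)| ≤ Q := neg_abs_le _
      have a3 : p*N^2 ≤ |(p:ℝ)| * N^2 := mul_le_mul_of_nonneg_right a1 (by positivity)
      have a4 : -|(Q:ℝ)| * N ≤ Q*N := mul_le_mul_of_nonneg_right a2 hN0
      have a5 : |(Q:ℝ)| * N ≤ |(Q:ℝ)| * N^2 := by
        apply mul_le_mul_of_nonneg_left _ (abs_nonneg _)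
        nlinarith
      have a6 : N^3 = (|(p:ℝ)| + |(Q:ℝ)| + 1)*N^2 := by rw [← hN]; ring
      nlinarith
    have := intermediate_value_Icc hN0 hcont.continuousOn ⟨h0, h1⟩
    obtain ⟨r, _, hr⟩ := this
    exact ⟨r, hr⟩
  obtain ⟨a, ha⟩ : ∃ a : ℝ, a = (p-r)/2 := ⟨_, rfl⟩
  have hpa : (p:ℝ) = r + 2*a := by rw [ha]; ring
  obtain ⟨B, hB⟩ : ∃ B : ℝ, B = Q - 2*r*a - a^2 := ⟨_, rfl⟩
  have hQa : (Q:ℝ) = 2*r*a + a^2 + B := by rw [hB]; ring
  have h1 : r*(a^2+B) = 1 := by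
    rw [hpa, hQa] at hr; linarith
  have hdisc : (4*Q^3 + 4*p^3 + 27 - p^2*Q^2 - 18*p*Q : ℝ) = 4*B*((r-a)^2+B)^2 := by
    rw [hpa, hQa]
    linear_combination (-4*(r+2*a)^3 + 18*(r+2*a)*(2*r*a + a^2 + B)
      - 27*(1 + r*(a^2+B)) : ℝ) * h1
  have hBpos : 0 < B := by
    by_contra hc
    have hc : B ≤ 0 := not_lt.mp hc
    have : B*((r-a)^2+B)^2 ≤ 0 := mul_nonpos_of_nonpos_of_nonneg hc (sq_nonneg _)
    linarith
  have hsq : (Real.sqrt B)^2 = B := Real.sq_sqrt hBpos.le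
  exact ⟨r, a, Real.sqrt B, by rw [hsq]; exact ⟨hpa, hQa, h1, hBpos⟩⟩

lemma NRS.disc {m n : ℤ} (h : NRS (H m n)) :
    0 < 4*(3*n-6*m-3)^3 + 4*(3*n+1)^3 + 27 - (3*n+1)^2*(3*n-6*m-3)^2
      - 18*(3*n+1)*(3*n-6*m-3) := by
  have := h.2
  rw [discr_H] at this
  linarith

lemma root_of {m n : ℤ} {w : ℂ} (hw : w^3 - (3*n+1)*w^2 + (3*n-6*m-3)*w - 1 = 0) :
    aeval w ((H m n).charpoly.map (Int.castRingHom ℚ)) = 0 := by
  rw [charpoly_H]
  simp only [Polynomial.map_sub, Polynomial.map_add, Polynomial.map_mul, Polynomial.map_pow,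
    Polynomial.map_X, Polynomial.map_C, Polynomial.map_one, map_sub, map_add, map_mul, map_pow,
    aeval_X, aeval_C, map_one]
  simp
  linear_combination hw

lemma natDegree_map (m n : ℤ) :
    ((H m n).charpoly.map (Int.castRingHom ℚ)).natDegree = 3 := by
  rw [(charpoly_monic m n).natDegree_map, charpoly_natDegree]

/-- no zero divisors -/
lemma NRS.Nf_ne {m n : ℤ} (h : NRS (H m n)) {x y z : ℤ}
    (h0 : Nf (3*n+1) (3*n-6*m-3) x y z = 0) : x = 0 ∧ y = 0 ∧ z = 0 := by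
  obtain ⟨r, a, b, hd⟩ := data_of h.disc
  have hirr := h.1
  have hdeg := natDegree_map m n
  have hn := hd.norm x y z
  rw [h0] at hn
  have hp := hd.hp
  have hQ := hd.hQ
  have h1 := hd.h1
  push_cast at hp hQ hn
  have hpC : (3*n+1:ℂ) = (r:ℂ) + 2*(a:ℂ) := by
    have := congrArg (fun t : ℝ => (t:ℂ)) hp
    push_cast at this; exact this
  have hQC : (3*n-6*m-3:ℂ) = 2*(r:ℂ)*a + (a:ℂ)^2 + (b:ℂ)^2 := by
    have := congrArg (fun t : ℝ => (t:ℂ)) hQ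
    push_cast at this; exact this
  have h1C : (r:ℂ)*((a:ℂ)^2 + (b:ℂ)^2) = 1 := by
    have := congrArg (fun t : ℝ => (t:ℂ)) h1
    push_cast at this; exact this
  rcases mul_eq_zero.mp hn.symm with h2 | h2
  · -- real root
    have hr : (r:ℂ)^3 - (3*n+1)*(r:ℂ)^2 + (3*n-6*m-3)*(r:ℂ) - 1 = 0 := by
      rw [hpC, hQC]
      linear_combination h1C
    apply indep hirr hdeg (root_of hr)
    have := congrArg (fun t : ℝ => (t:ℂ)) h2
    push_cast at this ⊢; exact this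
  · have hI : Complex.I^2 = -1 := Complex.I_sq
    have hw : ((a:ℂ) + b*Complex.I)^3 - (3*n+1)*((a:ℂ) + b*Complex.I)^2
        + (3*n-6*m-3)*((a:ℂ) + b*Complex.I) - 1 = 0 := by
      rw [hpC, hQC]
      linear_combination (3*(a:ℂ)*b^2 + b^3*Complex.I - (r + 2*a)*b^2) * hI + h1C
    apply indep hirr hdeg (root_of hw)
    have hb2 : 0 < b^2 := hd.hB
    have h3 : ((x:ℝ) + (y:ℝ)*a + (z:ℝ)*(a^2-b^2)) = 0 ∧ ((y:ℝ) + 2*a*z) = 0 := by
      have s1 := sq_nonneg ((x:ℝ) + y*a + z*(a^2-b^2))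
      have s2 := mul_nonneg hb2.le (sq_nonneg ((y:ℝ) + 2*a*z))
      constructor
      · have : ((x:ℝ) + y*a + z*(a^2-b^2))^2 = 0 := by linarith
        exact pow_eq_zero_iff (two_ne_zero) |>.mp this
      · have : b^2*((y:ℝ) + 2*a*z)^2 = 0 := by linarith
        rcases mul_eq_zero.mp this with h | h
        · exact absurd h hb2.ne'
        · exact pow_eq_zero_iff (two_ne_zero) |>.mp h
    obtain ⟨h4, h5⟩ := h3
    have h4C := congrArg (fun t : ℝ => (t:ℂ)) h4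
    have h5C := congrArg (fun t : ℝ => (t:ℂ)) h5
    push_cast at h4C h5C ⊢
    linear_combination h4C + b*Complex.I*h5C + z*b^2*hI

lemma NRS.ne {m n : ℤ} (h : NRS (H m n)) : 3*n+1 ≠ 3*n-6*m-3 := by
  intro he
  have hw : (1:ℂ)^3 - (3*n+1)*(1:ℂ)^2 + (3*n-6*m-3)*(1:ℂ) - 1 = 0 := by
    have : ((3*n+1 : ℤ) : ℂ) = ((3*n-6*m-3 : ℤ) : ℂ) := by rw [he]
    push_cast at this
    linear_combination -this
  have := indep h.1 (natDegree_map m n) (root_of hw) (a := 1) (b := -1) (c := 0)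
    (by push_cast; ring)
  omega

/-- a criterion -/
lemma nrs_of {m n : ℤ} (hD : 0 < 4*(3*n-6*m-3)^3 + 4*(3*n+1)^3 + 27 - (3*n+1)^2*(3*n-6*m-3)^2
      - 18*(3*n+1)*(3*n-6*m-3)) (hne : 3*n+1 ≠ 3*n-6*m-3) (hne2 : 3*n+1 + (3*n-6*m-3) ≠ -2) :
    NRS (H m n) := by
  constructor
  · have hdeg := natDegree_map m n
    have hmon : ((H m n).charpoly.map (Int.castRingHom ℚ)).Monic := (charpoly_monic m n).map _
    rw [hmon.irreducible_iff_roots_eq_zero_of_degree_le_three (by omega) (by omega)]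
    rw [Multiset.eq_zero_iff_forall_notMem]
    intro q hq
    have hq' : aeval q (H m n).charpoly = 0 := by
      have := (mem_roots'.mp hq).2
      rw [IsRoot, eval_map] at this
      exact this
    obtain ⟨k, hk⟩ := isInteger_of_is_root_of_monic (charpoly_monic m n) hq'
    rw [← hk, charpoly_H] at hq'
    simp only [map_sub, map_add, map_mul, map_pow, aeval_X, aeval_C, map_one] at hq'
    simp at hq'
    have h2' : ((k^3 - (3*n+1)*k^2 + (3*n-6*m-3)*k - 1 : ℤ) : ℚ) = 0 := by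
      push_cast; linarith
    have h2 : k^3 - (3*n+1)*k^2 + (3*n-6*m-3)*k - 1 = 0 := by exact_mod_cast h2'
    have hdvd : k ∣ 1 := ⟨k^2 - (3*n+1)*k + (3*n-6*m-3), by linarith⟩
    rcases Int.isUnit_iff.mp (isUnit_of_dvd_one hdvd) with rfl | rfl
    · apply hne; linarith
    · apply hne2; linarith
  · rw [discr_H]; linarith

/-- the determinant as a polynomial -/
def F (m n x y z : ℤ) : ℤ :=
  (Matrix.of ![![x, y, z], H m n *ᵥ ![x, y, z], H m n *ᵥ (H m n *ᵥ ![x, y, z])]).det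

lemma F_eq (m n x y z : ℤ) :
    18 * F m n x y z = Nf (3*n+1) (3*n-6*m-3) (6*x-3*y-z) (3*y-2*z) z := by
  unfold F Nf H
  rw [Matrix.det_fin_three]
  simp [Matrix.mulVec, dotProduct, Fin.sum_univ_three, Matrix.of_apply]
  ring

end Pool.Agent.Q269.Hess27
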