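import Mathlib

/-!
# Non-integral points generate infinitely many points

Let `Y² = X³ + A X² + B X` with integers `A, B`.  If this curve has a rational point whose
`X`-coordinate is not an integer, then it has infinitely many rational points (with
infinitely many different `X`-coordinates).  This is the Nagell-Lutz argument, carried out
with explicit chords in the coordinates `z = X/Y`, `w = 1/Y`, so that no group law is needed.
-/

namespace Pool.Agent.Q269.NagellLutz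

variable {p : ℕ} [hp : Fact p.Prime]

lemma N_add_le {a b e : ℚ} (ha : padicNorm p a ≤ e) (hb : padicNorm p b ≤ e) :
    padicNorm p (a + b) ≤ e :=
  le_trans padicNorm.nonarchimedean (max_le ha hb)

lemma N_sub_le {a b e : ℚ} (ha : padicNorm p a ≤ e) (hb : padicNorm p b ≤ e) :
    padicNorm p (a - b) ≤ e :=
  le_trans padicNorm.sub (max_le ha hb)

omit hp in
lemma N_neg_le {a e : ℚ} (ha : padicNorm p a ≤ e) : padicNorm p (-a) ≤ e := by
  rwa [padicNorm.neg]

lemma N_mul_le {a b e f : ℚ} (ha : padicNorm p a ≤ e) (hb : padicNorm p b ≤ f) :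
    padicNorm p (a * b) ≤ e * f := by
  rw [padicNorm.mul]
  exact mul_le_mul ha hb (padicNorm.nonneg _) (le_trans (padicNorm.nonneg _) ha)

lemma N_int_mul_le (A : ℤ) {a e : ℚ} (ha : padicNorm p a ≤ e) :
    padicNorm p ((A : ℚ) * a) ≤ e := by
  have h := N_mul_le (padicNorm.of_int (p := p) A) ha
  simpa using h

lemma N_one_add {u : ℚ} (hu : padicNorm p u < 1) : padicNorm p (1 + u) = 1 := by
  have h1 : padicNorm p (1 : ℚ) = 1 := padicNorm.one
  rw [padicNorm.add_eq_max_of_ne (by rw [h1]; exact ne_of_gt hu), h1]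
  exact max_eq_left hu.le

lemma N_one_sub {u : ℚ} (hu : padicNorm p u < 1) : padicNorm p (1 - u) = 1 := by
  rw [sub_eq_add_neg]
  exact N_one_add (by rwa [padicNorm.neg])

/-- the point `(z, w)` lies on the curve `w = z³ + A z² w + B z w²`. -/
def OnZW (A B : ℤ) (z w : ℚ) : Prop := w = z ^ 3 + A * z ^ 2 * w + B * z * w ^ 2

/-- Third intersection point of a line of small slope. -/
lemma third_point (A B : ℤ) {z1 w1 z2 l e : ℚ} (he0 : 0 < e) (he1 : e < 1)
    (hz1 : padicNorm p z1 ≤ e) (hw1 : padicNorm p w1 ≤ e ^ 3)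
    (hz2 : padicNorm p z2 ≤ e) (hl : padicNorm p l ≤ e ^ 2)
    (hroot : ∀ t : ℚ, (1 + A * l + B * l ^ 2) * (z1 + z2 + t)
        + (A * (w1 - l * z1) + 2 * B * l * (w1 - l * z1)) = 0 →
        OnZW A B t (l * t + (w1 - l * z1))) :
    ∃ z3 w3 : ℚ, OnZW A B z3 w3 ∧ padicNorm p (z3 - (z1 + z2)) ≤ e ^ 3 ∧
      padicNorm p w3 ≤ e ^ 3 := by
  have he2 : e ^ 2 < 1 := by nlinarith
  have he2' : e ^ 2 * e ^ 2 ≤ e ^ 2 := by nlinarith [sq_nonneg e]
  have he3 : e ^ 3 ≤ e := by nlinarith [mul_pos he0 he0]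
  set nu : ℚ := w1 - l * z1 with hnu
  have hnuN : padicNorm p nu ≤ e ^ 3 := by
    refine N_sub_le hw1 ?_
    have := N_mul_le hl hz1
    calc _ ≤ _ := this
      _ = e ^ 3 := by ring
  have hu : padicNorm p (A * l + B * l ^ 2) ≤ e ^ 2 := by
    refine N_add_le (N_int_mul_le A hl) (N_int_mul_le B ?_)
    rw [pow_two]
    exact le_trans (N_mul_le hl hl) he2'
  have hc : padicNorm p (1 + (A * l + B * l ^ 2)) = 1 := N_one_add (lt_of_le_of_lt hu he2)
  have hc' : (1 + A * l + B * l ^ 2 : ℚ) = 1 + (A * l + B * l ^ 2) := by ring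
  have hc0 : (1 + A * l + B * l ^ 2 : ℚ) ≠ 0 := by
    intro h
    rw [hc'] at h
    rw [h] at hc
    simp at hc
  set m : ℚ := A * nu + 2 * B * l * nu with hm
  have hmN : padicNorm p m ≤ e ^ 3 := by
    refine N_add_le (N_int_mul_le A hnuN) ?_
    have h1 : (2 * B * l * nu : ℚ) = ((2 * B : ℤ) : ℚ) * (l * nu) := by push_cast; ring
    rw [h1]
    refine N_int_mul_le _ ?_
    refine le_trans (N_mul_le hl hnuN) ?_
    have : 0 < e ^ 3 := by positivity
    nlinarith
  have hq : padicNorm p (m / (1 + A * l + B * l ^ 2)) ≤ e ^ 3 := by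
    rw [padicNorm.div, hc', hc, div_one]
    exact hmN
  set t : ℚ := -(m / (1 + A * l + B * l ^ 2)) - z1 - z2 with ht
  have hmc : (1 + A * l + B * l ^ 2) * (m / (1 + A * l + B * l ^ 2)) = m := by
    rw [mul_comm]; exact div_mul_cancel₀ m hc0
  have hrt := hroot t (by rw [ht]; linear_combination -hmc)
  have htN : padicNorm p t ≤ e := by
    refine N_sub_le (N_sub_le (N_neg_le (le_trans hq he3)) hz1) hz2
  refine ⟨-t, -(l * t + nu), ?_, ?_, ?_⟩
  · unfold OnZW at hrt ⊢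
    linear_combination -hrt
  · have : -t - (z1 + z2) = m / (1 + A * l + B * l ^ 2) := by rw [ht]; ring
    rw [this]
    exact hq
  · refine N_neg_le (N_add_le ?_ hnuN)
    calc _ ≤ _ := N_mul_le hl htN
      _ = e ^ 3 := by ring

/-- Adding two points that are `p`-adically close to the origin. -/
lemma sum_point (A B : ℤ) {z1 w1 z2 w2 e : ℚ} (he0 : 0 < e) (he1 : e < 1)
    (h1 : OnZW A B z1 w1) (h2 : OnZW A B z2 w2)
    (hz1 : padicNorm p z1 ≤ e) (hw1 : padicNorm p w1 ≤ e ^ 3)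
    (hz2 : padicNorm p z2 ≤ e) (hw2 : padicNorm p w2 ≤ e ^ 3) :
    ∃ z3 w3 : ℚ, OnZW A B z3 w3 ∧ padicNorm p (z3 - (z1 + z2)) ≤ e ^ 3 ∧
      padicNorm p w3 ≤ e ^ 3 := by
  have he2 : e ^ 2 < 1 := by nlinarith
  have he32 : e ^ 3 ≤ e ^ 2 := by nlinarith [mul_pos he0 he0]
  have he3e : e ^ 3 ≤ e := by nlinarith [mul_pos he0 he0]
  have hw1e : padicNorm p w1 ≤ e := le_trans hw1 he3e
  have hw2e : padicNorm p w2 ≤ e := le_trans hw2 he3e
  have hee : e * e = e ^ 2 := by ring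
  -- the denominator
  have hd : padicNorm p (A * z2 ^ 2 + B * z2 * (w1 + w2)) ≤ e ^ 2 := by
    refine N_add_le (N_int_mul_le A ?_) ?_
    · rw [pow_two, pow_two]; exact N_mul_le hz2 hz2
    · rw [mul_assoc]
      refine N_int_mul_le B ?_
      rw [← hee]
      exact N_mul_le hz2 (N_add_le hw1e hw2e)
  have hdn := N_one_sub (lt_of_le_of_lt hd he2)
  have hd0 : (1 - (A * z2 ^ 2 + B * z2 * (w1 + w2)) : ℚ) ≠ 0 := by
    intro h
    rw [h] at hdn
    simp at hdn
  have hn : padicNorm p (z1 ^ 2 + z1 * z2 + z2 ^ 2 + A * (w1 * (z1 + z2)) + B * (w1 * w1))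
      ≤ e ^ 2 := by
    refine N_add_le (N_add_le (N_add_le (N_add_le ?_ ?_) ?_) (N_int_mul_le A ?_))
      (N_int_mul_le B ?_)
    · rw [pow_two, pow_two]; exact N_mul_le hz1 hz1
    · rw [← hee]; exact N_mul_le hz1 hz2
    · rw [pow_two, pow_two]; exact N_mul_le hz2 hz2
    · rw [← hee]; exact N_mul_le hw1e (N_add_le hz1 hz2)
    · rw [← hee]; exact N_mul_le hw1e hw1e
  have key : (w2 - w1) * (1 - (A * z2 ^ 2 + B * z2 * (w1 + w2)))
      = (z2 - z1) * (z1 ^ 2 + z1 * z2 + z2 ^ 2 + A * (w1 * (z1 + z2)) + B * (w1 * w1)) := by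
    unfold OnZW at h1 h2
    linear_combination h2 - h1
  set D : ℚ := 1 - (A * z2 ^ 2 + B * z2 * (w1 + w2)) with hD
  set Nn : ℚ := z1 ^ 2 + z1 * z2 + z2 ^ 2 + A * (w1 * (z1 + z2)) + B * (w1 * w1) with hN
  set l : ℚ := Nn / D with hl
  have hlN : padicNorm p l ≤ e ^ 2 := by
    rw [hl, padicNorm.div, hdn, div_one]
    exact hn
  have hlD : l * D = Nn := by rw [hl]; field_simp
  have hw : w2 - w1 = l * (z2 - z1) := by
    have : (w2 - w1) * D = (l * (z2 - z1)) * D := by rw [key]; linear_combination (z1 - z2) * hlD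
    exact mul_right_cancel₀ hd0 this
  refine third_point A B he0 he1 hz1 hw1 hz2 hlN ?_
  intro t ht
  unfold OnZW at h1 h2 ⊢
  by_cases hzz : z1 = z2
  · -- tangent
    have hww : w2 = w1 := by
      have : w2 - w1 = 0 := by rw [hw, hzz]; ring
      linarith
    subst hzz
    rw [hww] at hD
    rw [hD, hN] at hlD
    -- F(t) = (t-z1)^2 (...) + F(z1) + F'(z1) (t - z1)
    linear_combination (-(t - z1) ^ 2) * ht + h1 + (t - z1) * hlD
  · have hne : z1 - z2 ≠ 0 := sub_ne_zero.mpr hzz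
    have hw2' : w2 = l * z2 + (w1 - l * z1) := by linarith
    rw [hw2'] at h2
    apply mul_left_cancel₀ hne
    linear_combination (t - z2) * h1 - (t - z1) * h2 - (z1 - z2) * (t - z1) * (t - z2) * ht

/-- Multiples of a point close to the origin. -/
lemma mult_point (A B : ℤ) {z w e : ℚ} (he0 : 0 < e) (he1 : e < 1)
    (h : OnZW A B z w) (hz : padicNorm p z ≤ e) (hw : padicNorm p w ≤ e ^ 3) (n : ℕ) :
    ∃ z' w' : ℚ, OnZW A B z' w' ∧ padicNorm p (z' - (n + 1) * z) ≤ e ^ 3 ∧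
      padicNorm p w' ≤ e ^ 3 := by
  induction n with
  | zero =>
    refine ⟨z, w, h, ?_, hw⟩
    simp
    positivity
  | succ n ih =>
    obtain ⟨z', w', h', hz', hw'⟩ := ih
    have he3e : e ^ 3 ≤ e := by nlinarith [mul_pos he0 he0]
    have hz'e : padicNorm p z' ≤ e := by
      have h1 : z' = (z' - (n + 1) * z) + (((n : ℤ) + 1 : ℤ) : ℚ) * z := by push_cast; ring
      rw [h1]
      exact N_add_le (le_trans hz' he3e) (N_int_mul_le _ hz)
    obtain ⟨z3, w3, h3, hz3, hw3⟩ := sum_point A B he0 he1 h' h hz'e hw' hz hw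
    refine ⟨z3, w3, h3, ?_, hw3⟩
    have h2 : z3 - ((n + 1 : ℕ) + 1) * z = (z3 - (z' + z)) + (z' - (n + 1) * z) := by
      push_cast; ring
    rw [h2]
    exact N_add_le hz3 hz'

/-- On the curve near the origin, `|w| = |z|³`. -/
lemma norm_w (A B : ℤ) {z w e : ℚ} (he0 : 0 < e) (he1 : e < 1)
    (h : OnZW A B z w) (hz : padicNorm p z ≤ e) (hw : padicNorm p w ≤ e ^ 3) :
    padicNorm p w = padicNorm p z ^ 3 := by
  have he2 : e ^ 2 < 1 := by nlinarith
  have he3e : e ^ 3 ≤ e := by nlinarith [mul_pos he0 he0]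
  have hee : e * e = e ^ 2 := by ring
  have hd : padicNorm p (A * z ^ 2 + B * z * w) ≤ e ^ 2 := by
    refine N_add_le (N_int_mul_le A ?_) ?_
    · rw [pow_two, pow_two]; exact N_mul_le hz hz
    · rw [mul_assoc]
      refine N_int_mul_le B ?_
      rw [← hee]
      exact N_mul_le hz (le_trans hw he3e)
  have hdn := N_one_sub (lt_of_le_of_lt hd he2)
  have : w * (1 - (A * z ^ 2 + B * z * w)) = z * z * z := by
    unfold OnZW at h
    linear_combination h
  have h2 : padicNorm p (w * (1 - (A * z ^ 2 + B * z * w))) = padicNorm p (z * z * z) := by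
    rw [this]
  rw [padicNorm.mul, hdn, mul_one, padicNorm.mul, padicNorm.mul] at h2
  rw [h2]; ring

/-- From a point at level `j` we get one at level `j + 1`. -/
lemma next_point (A B : ℤ) {z w e : ℚ} (he0 : 0 < e) (he1 : e ≤ (p : ℚ)⁻¹)
    (h : OnZW A B z w) (hz : padicNorm p z = e) (hw : padicNorm p w ≤ e ^ 3) :
    ∃ z' w' : ℚ, OnZW A B z' w' ∧ padicNorm p z' = e * (p : ℚ)⁻¹ ∧
      padicNorm p w' ≤ (e * (p : ℚ)⁻¹) ^ 3 := by
  have hp2 : (2 : ℚ) ≤ p := by exact_mod_cast hp.out.two_le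
  have hp0 : (0 : ℚ) < p := by linarith
  have hpi : (p : ℚ)⁻¹ ≤ 1 / 2 := by
    rw [inv_eq_one_div]
    exact one_div_le_one_div_of_le (by norm_num) hp2
  have hpi0 : 0 < (p : ℚ)⁻¹ := by positivity
  have he1' : e < 1 := by linarith
  obtain ⟨z', w', h', hz', hw'⟩ := mult_point A B he0 he1' h hz.le hw (p - 1)
  have hpp : (((p - 1 : ℕ) : ℚ) + 1) = (p : ℚ) := by
    have : 1 ≤ p := hp.out.one_le
    push_cast [Nat.cast_sub this]
    ring
  rw [hpp] at hz'
  have hpz : padicNorm p ((p : ℚ) * z) = e * (p : ℚ)⁻¹ := by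
    rw [padicNorm.mul, hz, padicNorm.padicNorm_p_of_prime]
    ring
  have hlt : e ^ 3 < e * (p : ℚ)⁻¹ := by
    have h1 : e ^ 2 ≤ (p : ℚ)⁻¹ * (p : ℚ)⁻¹ := by
      rw [pow_two]
      exact mul_le_mul he1 he1 he0.le hpi0.le
    have h2 : (p : ℚ)⁻¹ * (p : ℚ)⁻¹ < (p : ℚ)⁻¹ := by nlinarith
    have h3 : e ^ 2 < (p : ℚ)⁻¹ := lt_of_le_of_lt h1 h2
    calc e ^ 3 = e * e ^ 2 := by ring
      _ < e * (p : ℚ)⁻¹ := by exact mul_lt_mul_of_pos_left h3 he0
  have hz'n : padicNorm p z' = e * (p : ℚ)⁻¹ := by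
    have h1 : z' = (z' - p * z) + p * z := by ring
    have h2 : padicNorm p (z' - p * z) < padicNorm p (p * z) := by
      rw [hpz]; exact lt_of_le_of_lt hz' hlt
    rw [h1, padicNorm.add_eq_max_of_ne (ne_of_lt h2), max_eq_right h2.le, hpz]
  have hz'e : padicNorm p z' ≤ e := by
    rw [hz'n]; nlinarith
  refine ⟨z', w', h', hz'n, ?_⟩
  rw [norm_w A B he0 he1' h' hz'e hw', hz'n]

/-- A point close to the origin gives points at all levels. -/
lemma all_levels (A B : ℤ) {z w e : ℚ} (he0 : 0 < e) (he1 : e ≤ (p : ℚ)⁻¹)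
    (h : OnZW A B z w) (hz : padicNorm p z = e) (hw : padicNorm p w ≤ e ^ 3) (n : ℕ) :
    ∃ z' w' : ℚ, OnZW A B z' w' ∧ padicNorm p z' = e * (p : ℚ)⁻¹ ^ n ∧
      padicNorm p w' ≤ (e * (p : ℚ)⁻¹ ^ n) ^ 3 := by
  have hp2 : (2 : ℚ) ≤ p := by exact_mod_cast hp.out.two_le
  have hp0 : (0 : ℚ) < p := by linarith
  have hpi0 : 0 < (p : ℚ)⁻¹ := by positivity
  have hpi1 : (p : ℚ)⁻¹ ≤ 1 := by
    rw [inv_eq_one_div, div_le_one hp0]; linarith
  induction n with
  | zero => exact ⟨z, w, h, by simpa using hz, by simpa using hw⟩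
  | succ n ih =>
    obtain ⟨z', w', h', hz', hw'⟩ := ih
    have h1 : e * (p : ℚ)⁻¹ ^ n ≤ (p : ℚ)⁻¹ := by
      have : (p : ℚ)⁻¹ ^ n ≤ 1 := pow_le_one₀ hpi0.le hpi1
      calc e * (p : ℚ)⁻¹ ^ n ≤ e * 1 := mul_le_mul_of_nonneg_left this he0.le
        _ ≤ _ := by linarith
    obtain ⟨z3, w3, h3, hz3, hw3⟩ := next_point A B (by positivity) h1 h' hz' hw'
    refine ⟨z3, w3, h3, ?_, ?_⟩
    · rw [hz3]; ring
    · have : e * (p : ℚ)⁻¹ ^ (n + 1) = e * (p : ℚ)⁻¹ ^ n * (p : ℚ)⁻¹ := by ring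
      rw [this]; exact hw3

/-- **Nagell-Lutz, explicit form.**  If `Y² = X³ + A X² + B X` (with `A, B` integers) has a
rational point with non-integral `X`, then infinitely many rational numbers occur as
`X`-coordinates of rational points. -/
theorem infinite_of_nonintegral (A B : ℤ) {X Y : ℚ} (h : Y ^ 2 = X ^ 3 + A * X ^ 2 + B * X)
    (hX : X.den ≠ 1) :
    {x : ℚ | ∃ y : ℚ, y ^ 2 = x ^ 3 + A * x ^ 2 + B * x}.Infinite := by
  obtain ⟨p, hpp, hpd⟩ := Nat.exists_prime_and_dvd hX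
  have : Fact p.Prime := ⟨hpp⟩
  have hp2 : (2 : ℚ) ≤ p := by exact_mod_cast hpp.two_le
  have hp0 : (0 : ℚ) < p := by linarith
  have hp1 : (1 : ℚ) < p := by linarith
  have hpi0 : 0 < (p : ℚ)⁻¹ := by positivity
  have hX0 : X ≠ 0 := by
    rintro rfl
    simp at hX
  -- the valuation of X is negative
  have hvX : padicValRat p X < 0 := by
    unfold padicValRat
    have h1 : ¬ (p : ℤ) ∣ X.num := by
      intro hd
      have hc := X.reduced
      have h2 : p ∣ X.num.natAbs := Int.natCast_dvd.mp hd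
      have := Nat.dvd_gcd h2 hpd
      rw [Nat.Coprime.gcd_eq_one hc] at this
      exact hpp.one_lt.ne' (Nat.dvd_one.mp this)
    rw [padicValInt.eq_zero_of_not_dvd h1]
    have h2 : 1 ≤ padicValNat p X.den := one_le_padicValNat_of_dvd X.den_nz hpd
    omega
  set v : ℤ := padicValRat p X with hv
  have hNX : padicNorm p X = (p : ℚ) ^ (-v) := padicNorm.eq_zpow_of_nonzero hX0
  have hNX1 : 1 < padicNorm p X := by
    rw [hNX]
    exact one_lt_zpow₀ hp1 (by omega)
  have hNX0 : 0 < padicNorm p X := by linarith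
  -- |Y|² = |X|³
  have hYX : padicNorm p Y ^ 2 = padicNorm p X ^ 3 := by
    have h1 : Y ^ 2 = X ^ 3 + (A * (X * X) + B * X) := by rw [h]; ring
    have h2 : padicNorm p (A * (X * X) + B * X) < padicNorm p (X ^ 3) := by
      have h3 : padicNorm p (A * (X * X) + B * X) ≤ padicNorm p X * padicNorm p X := by
        refine N_add_le (N_int_mul_le A ?_) (N_int_mul_le B ?_)
        · rw [padicNorm.mul]
        · nlinarith
      refine lt_of_le_of_lt h3 ?_
      have h4 : padicNorm p (X ^ 3) = padicNorm p X * padicNorm p X * padicNorm p X := by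
        rw [pow_succ, pow_two, padicNorm.mul, padicNorm.mul]
      rw [h4]
      nlinarith [mul_pos hNX0 hNX0]
    have h5 : padicNorm p (Y ^ 2) = padicNorm p (X ^ 3) := by
      rw [h1, padicNorm.add_eq_max_of_ne (ne_of_gt h2), max_eq_left h2.le]
    have h6 : padicNorm p (Y ^ 2) = padicNorm p Y ^ 2 := by
      rw [pow_two, pow_two, padicNorm.mul]
    have h7 : padicNorm p (X ^ 3) = padicNorm p X ^ 3 := by
      rw [pow_succ, pow_two, padicNorm.mul, padicNorm.mul]; ring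
    rw [← h6, h5, h7]
  have hY0 : Y ≠ 0 := by
    rintro rfl
    rw [padicNorm.zero] at hYX
    have : 0 < padicNorm p X ^ 3 := by positivity
    nlinarith
  have hNY : padicNorm p Y = (p : ℚ) ^ (-padicValRat p Y) := padicNorm.eq_zpow_of_nonzero hY0
  set u : ℤ := padicValRat p Y with hu
  have huv : 2 * u = 3 * v := by
    rw [hNY, hNX, ← zpow_natCast, ← zpow_natCast, ← zpow_mul, ← zpow_mul] at hYX
    have := zpow_right_injective₀ hp0 (ne_of_gt hp1) hYX
    push_cast at this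
    omega
  -- coordinates at infinity
  have hz : padicNorm p (X / Y) = (p : ℚ) ^ (-v + u) := by
    rw [padicNorm.div, hNX, hNY, zpow_add₀ hp0.ne', zpow_neg, zpow_neg]
    field_simp
  have hw : padicNorm p (1 / Y) = (p : ℚ) ^ u := by
    rw [padicNorm.div, hNY, padicNorm.one, zpow_neg]
    field_simp
  have hcurve : OnZW A B (X / Y) (1 / Y) := by
    unfold OnZW
    field_simp
    linear_combination h
  set e : ℚ := (p : ℚ) ^ (-v + u) with he
  have he0 : 0 < e := by positivity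
  have he1 : e ≤ (p : ℚ)⁻¹ := by
    rw [he, ← zpow_neg_one]
    exact zpow_le_zpow_right₀ hp1.le (by omega)
  have hwe : padicNorm p (1 / Y) ≤ e ^ 3 := by
    rw [hw, he, ← zpow_natCast, ← zpow_mul]
    apply le_of_eq
    congr 1
    push_cast
    omega
  have hall := all_levels (p := p) A B he0 he1 hcurve hz hwe
  choose fz fw hf1 hf2 hf3 using hall
  have hpi1 : (p : ℚ)⁻¹ < 1 := inv_lt_one_of_one_lt₀ hp1
  have hlev0 : ∀ n, 0 < e * (p : ℚ)⁻¹ ^ n := fun n => by positivity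
  have hlevle : ∀ n, e * (p : ℚ)⁻¹ ^ n ≤ e := fun n => by
    have : (p : ℚ)⁻¹ ^ n ≤ 1 := pow_le_one₀ hpi0.le hpi1.le
    nlinarith
  have he1' : e < 1 := lt_of_le_of_lt he1 hpi1
  have hfw : ∀ n, padicNorm p (fw n) = (e * (p : ℚ)⁻¹ ^ n) ^ 3 := fun n => by
    rw [← hf2 n]
    exact norm_w A B (hlev0 n) (lt_of_le_of_lt (hlevle n) he1') (hf1 n) (hf2 n).le (hf3 n)
  have hfw0 : ∀ n, fw n ≠ 0 := fun n hn => by
    have h1 := hfw n
    rw [hn, padicNorm.zero] at h1
    have := hlev0 n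
    have h2 : 0 < (e * (p : ℚ)⁻¹ ^ n) ^ 3 := by positivity
    linarith
  have hnorm : ∀ n, padicNorm p (fz n / fw n) * (e * (p : ℚ)⁻¹ ^ n) ^ 2 = 1 := fun n => by
    rw [padicNorm.div, hf2 n, hfw n]
    have := (hlev0 n).ne'
    field_simp
  have hinj : Function.Injective (fun n => fz n / fw n) := by
    intro m n hmn
    have h1 := hnorm m
    have h2 := hnorm n
    simp only at hmn
    rw [hmn] at h1
    have h3 : padicNorm p (fz n / fw n) ≠ 0 := by
      intro h0; rw [h0] at h2; simp at h2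
    have h4 : (e * (p : ℚ)⁻¹ ^ m) ^ 2 = (e * (p : ℚ)⁻¹ ^ n) ^ 2 :=
      mul_left_cancel₀ h3 (h1.trans h2.symm)
    have h5 : e * (p : ℚ)⁻¹ ^ m = e * (p : ℚ)⁻¹ ^ n := by
      exact (pow_left_inj₀ (hlev0 m).le (hlev0 n).le (by norm_num)).mp h4
    have h6 : (p : ℚ)⁻¹ ^ m = (p : ℚ)⁻¹ ^ n := mul_left_cancel₀ he0.ne' h5
    exact pow_right_injective₀ hpi0 (ne_of_lt hpi1) h6
  refine Set.infinite_of_injective_forall_mem hinj ?_
  intro n
  refine ⟨1 / fw n, ?_⟩
  have h1 := hf1 n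
  unfold OnZW at h1
  have h2 := hfw0 n
  field_simp
  linear_combination h1

end Pool.Agent.Q269.NagellLutz
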