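import Mathlib

/-!
Dickson polynomials `D_n(s, 1)` at the elements `s = 2 + y √(-D)` of `ℤ[√(-D)]`, `D ≡ 2 (mod 8)`,
`y` odd: the real part of `D_n` is not `± 2` for odd `n > 1` (a 2-adic argument).
-/

namespace Pool.Agent.Q269.UnitSum

/-- Dickson polynomials `D_n(s, 1)` -/
def Dk {R : Type*} [CommRing R] (s : R) : ℕ → R
  | 0 => 2
  | 1 => s
  | n+2 => s * Dk s (n+1) - Dk s n

/-- Dickson polynomials of the second kind, `S_n = (z^n - z^(-n)) / (z - z^(-1))`, `z + 1/z = s` -/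
def Sk {R : Type*} [CommRing R] (s : R) : ℕ → R
  | 0 => 0
  | 1 => 1
  | n+2 => s * Sk s (n+1) - Sk s n

section ring
variable {R : Type*} [CommRing R] (s : R)

@[simp] lemma Dk_zero : Dk s 0 = 2 := rfl
@[simp] lemma Dk_one : Dk s 1 = s := rfl
lemma Dk_succ (n : ℕ) : Dk s (n+2) = s * Dk s (n+1) - Dk s n := rfl
@[simp] lemma Sk_zero : Sk s 0 = 0 := rfl
@[simp] lemma Sk_one : Sk s 1 = 1 := rfl
lemma Sk_succ (n : ℕ) : Sk s (n+2) = s * Sk s (n+1) - Sk s n := rfl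

lemma Dk_eq : ∀ n : ℕ, Dk s n = 2 * Sk s (n+1) - s * Sk s n ∧
    Dk s (n+1) = 2 * Sk s (n+2) - s * Sk s (n+1) := by
  intro n
  induction n with
  | zero => refine ⟨by simp, by simp [Sk_succ]; ring⟩
  | succ n ih =>
    refine ⟨ih.2, ?_⟩
    rw [Dk_succ, ih.1, ih.2, Sk_succ s (n+1), Sk_succ s n]
    ring

lemma inv : ∀ n : ℕ, Sk s (n+1)^2 - s * Sk s n * Sk s (n+1) + Sk s n^2 = 1 := by
  intro n
  induction n with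
  | zero => simp
  | succ n ih =>
    rw [Sk_succ]
    linear_combination ih

lemma Sk_add (m : ℕ) : ∀ n : ℕ, Sk s (m+n+1) = Sk s (n+1) * Sk s (m+1) - Sk s n * Sk s m ∧
    Sk s (m+n+2) = Sk s (n+2) * Sk s (m+1) - Sk s (n+1) * Sk s m := by
  intro n
  induction n with
  | zero => refine ⟨by simp, by simp [Sk_succ]⟩
  | succ n ih =>
    have e1 : m + (n+1) + 1 = m + n + 2 := by ring
    have e2 : m + (n+1) + 2 = (m + n + 1) + 2 := by ring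
    rw [e1, e2]
    refine ⟨ih.2, ?_⟩
    rw [Sk_succ s (m+n+1), ih.1, ih.2, Sk_succ s (n+1), show Sk s (n+1+1) = Sk s (n+2) from rfl,
      Sk_succ s n]
    ring

lemma Sk_double (n : ℕ) : Sk s (2*n) = Sk s n * Dk s n := by
  rcases n with _ | n
  · simp
  · have h := (Sk_add s n (n+1)).1
    have e : 2*(n+1) = n + (n+1) + 1 := by ring
    rw [e, h, (Dk_eq s (n+1)).1, Sk_succ]
    ring

lemma Dk_odd (a : ℕ) : Dk s (2*a+1) - s = (s^2-4) * Sk s a * Sk s (a+1) := by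
  have h1 := (Sk_add s a a).1
  have h2 := (Sk_add s a a).2
  have h3 := inv s a
  have h4 := (Dk_eq s (2*a)).2
  have e1 : 2*a+1 = a+a+1 := by ring
  have e2 : 2*a+2 = a+a+2 := by ring
  rw [e1, e2, h1, h2, Sk_succ] at h4
  rw [e1, h4]
  linear_combination s * h3

lemma Dk_step (c : ℕ) : Dk s (c+8) = (s^4-4*s^2+2) * Dk s (c+4) - Dk s c := by
  have h2 : Dk s (c+2) = s * Dk s (c+1) - Dk s (c) := rfl
  have h3 : Dk s (c+3) = s * Dk s (c+2) - Dk s (c+1) := rfl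
  have h4 : Dk s (c+4) = s * Dk s (c+3) - Dk s (c+2) := rfl
  have h5 : Dk s (c+5) = s * Dk s (c+4) - Dk s (c+3) := rfl
  have h6 : Dk s (c+6) = s * Dk s (c+5) - Dk s (c+4) := rfl
  have h7 : Dk s (c+7) = s * Dk s (c+6) - Dk s (c+5) := rfl
  have h8 : Dk s (c+8) = s * Dk s (c+7) - Dk s (c+6) := rfl
  rw [h8, h7, h6, h5, h4, h3, h2]
  ring

lemma Sk_step (c : ℕ) : Sk s (c+8) = (s^4-4*s^2+2) * Sk s (c+4) - Sk s c := by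
  have h2 : Sk s (c+2) = s * Sk s (c+1) - Sk s (c) := rfl
  have h3 : Sk s (c+3) = s * Sk s (c+2) - Sk s (c+1) := rfl
  have h4 : Sk s (c+4) = s * Sk s (c+3) - Sk s (c+2) := rfl
  have h5 : Sk s (c+5) = s * Sk s (c+4) - Sk s (c+3) := rfl
  have h6 : Sk s (c+6) = s * Sk s (c+5) - Sk s (c+4) := rfl
  have h7 : Sk s (c+7) = s * Sk s (c+6) - Sk s (c+5) := rfl
  have h8 : Sk s (c+8) = s * Sk s (c+7) - Sk s (c+6) := rfl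
  rw [h8, h7, h6, h5, h4, h3, h2]
  ring

lemma Dk_three : Dk s 3 = s^3 - 3*s := by
  simp only [Dk]; ring

lemma Dk_four : Dk s 4 = s^4 - 4*s^2 + 2 := by
  simp only [Dk]; ring

lemma Dk_five : Dk s 5 = s^5 - 5*s^3 + 5*s := by
  simp only [Dk]; ring

lemma Dk_seven : Dk s 7 = (s^4 - 4*s^2 + 2) * Dk s 3 - s := by
  simp only [Dk]; ring

lemma Sk_four : Sk s 4 = s^3 - 2*s := by
  simp only [Sk]; ring

lemma Dk_neg : ∀ n : ℕ, Dk (-s) (2*n) = Dk s (2*n) ∧ Dk (-s) (2*n+1) = - Dk s (2*n+1) := by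
  intro n
  induction n with
  | zero => simp
  | succ n ih =>
    have e1 : 2*(n+1) = 2*n+2 := by ring
    have e2 : 2*n+2+1 = (2*n+1)+2 := by ring
    rw [e1, e2, Dk_succ (-s) (2*n), Dk_succ s (2*n), ih.1, ih.2]
    refine ⟨by ring, ?_⟩
    rw [Dk_succ (-s) (2*n+1), Dk_succ s (2*n+1), show 2*n+1+1 = 2*n+2 by ring,
      Dk_succ (-s) (2*n), Dk_succ s (2*n), ih.1, ih.2]
    ring

end ring

lemma Dk_map {R S : Type*} [CommRing R] [CommRing S] (f : R →+* S) (s : R) :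
    ∀ n, f (Dk s n) = Dk (f s) n ∧ f (Dk s (n+1)) = Dk (f s) (n+1) := by
  intro n
  induction n with
  | zero => exact ⟨by rw [Dk_zero, Dk_zero]; exact map_ofNat f 2, by simp⟩
  | succ n ih =>
    refine ⟨ih.2, ?_⟩
    rw [Dk_succ, Dk_succ, map_sub, map_mul, ih.1, ih.2]

section generic
variable {R : Type*} [CommRing R] {w Z : R} (h : w^2 = -(2+8*Z))
include h

lemma gen_four : ((2+w)^2-4)*Sk (2+w) 4 = 16*((1+4*Z)*(10*Z-3) + (4*Z^2-15*Z-3)*w) := by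
  rw [Sk_four]
  linear_combination (w^3+10*w^2+(34-(2+8*Z))*w+(44-10*(2+8*Z))) * h

lemma gen_D : (2+w)^4-4*(2+w)^2+2 = 2*(8*(w-2*Z)^2-1) := by
  linear_combination (w^2+8*w+2-8*Z) * h

end generic

/-- the hypotheses: `w = y √d`, `w² = -(2 + 8 Z)`, `d` even -/
structure Par (d y Z : ℤ) : Prop where
  hd : Even d
  hY : d * y^2 = -(2 + 8*Z)

section two
variable {d y Z : ℤ}

lemma odd_mul (hd : Even d) {a b : ℤ√d} (ha : Odd a.re) (hb : Odd b.re) : Odd (a*b).re := by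
  rw [Zsqrtd.re_mul]
  apply Odd.add_even (ha.mul hb)
  rw [mul_assoc]
  exact hd.mul_right _

lemma re_form (a b : ℤ) : ((a : ℤ√d) + (b : ℤ√d) * ⟨0, y⟩).re = a := by
  rw [Zsqrtd.re_add, Zsqrtd.re_mul, Zsqrtd.re_intCast, Zsqrtd.im_intCast]
  simp

lemma re_int_mul (a : ℤ) (c : ℤ√d) : ((a : ℤ√d) * c).re = a * c.re := by
  rw [Zsqrtd.re_mul, Zsqrtd.re_intCast, Zsqrtd.im_intCast]
  simp

lemma Par.w2 (h : Par d y Z) : (⟨0, y⟩ : ℤ√d)^2 = -(2 + 8*(Z : ℤ√d)) := by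
  rw [pow_two]
  ext
  · simp
    linarith [h.hY]
  · simp

lemma C1 (h : Par d y Z) : ∀ n : ℕ,
    (∃ c : ℤ√d, ((2 + ⟨0, y⟩ : ℤ√d)^2 - 4) * Sk (2 + ⟨0, y⟩ : ℤ√d) (4*n) = 16 * c ∧
      (Odd n → Odd c.re)) ∧
    (∃ c : ℤ√d, ((2 + ⟨0, y⟩ : ℤ√d)^2 - 4) * Sk (2 + ⟨0, y⟩ : ℤ√d) (4*(n+1)) = 16 * c ∧
      (Odd (n+1) → Odd c.re)) := by
  intro n
  induction n with
  | zero =>
    refine ⟨⟨0, by simp, fun h => by simp at h⟩, ?_⟩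
    refine ⟨((1+4*(Z : ℤ√d))*(10*Z-3) + (4*(Z : ℤ√d)^2-15*Z-3)*(⟨0, y⟩ : ℤ√d)), gen_four h.w2, ?_⟩
    intro _
    have e : ((1+4*(Z : ℤ√d))*(10*Z-3) + (4*(Z : ℤ√d)^2-15*Z-3)*(⟨0, y⟩ : ℤ√d)).re
        = (1+4*Z)*(10*Z-3) := by
      have e1 : ((1+4*(Z : ℤ√d))*(10*Z-3)) = (((1+4*Z)*(10*Z-3) : ℤ) : ℤ√d) := by push_cast; ring
      have e2 : (4*(Z : ℤ√d)^2-15*Z-3) = ((4*Z^2-15*Z-3 : ℤ) : ℤ√d) := by push_cast; ring
      rw [e1, e2]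
      exact re_form _ _
    rw [e]
    refine Odd.mul ⟨2*Z, by ring⟩ ⟨5*Z-2, by ring⟩
  | succ n ih =>
    obtain ⟨⟨c, hc1, hc2⟩, ⟨c', hc1', hc2'⟩⟩ := ih
    refine ⟨⟨c', hc1', hc2'⟩, ?_⟩
    refine ⟨2*(8*((⟨0, y⟩ : ℤ√d)-2*Z)^2-1)*c' - c, ?_, ?_⟩
    · have e := Sk_step (2 + ⟨0, y⟩ : ℤ√d) (4*n)
      rw [show 4*(n+1+1) = 4*n+8 by ring, e, gen_D h.w2]
      rw [show 4*(n+1) = 4*n+4 by ring] at hc1'
      linear_combination (2*(8*((⟨0, y⟩ : ℤ√d)-2*Z)^2-1)) * hc1' - hc1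
    · intro hn
      have hodd := hc2 (by
        rcases hn with ⟨k, hk⟩
        exact ⟨k-1, by omega⟩)
      rw [mul_assoc, Zsqrtd.re_sub]
      have e3 : (2 * ((8*((⟨0, y⟩ : ℤ√d)-2*Z)^2-1)*c')).re
          = 2 * ((8*((⟨0, y⟩ : ℤ√d)-2*Z)^2-1)*c').re := by
        rw [Zsqrtd.re_mul]; simp
      rw [e3]
      exact Even.sub_odd (even_two_mul _) hodd

lemma C2 (h : Par d y Z) : ∀ n : ℕ,
    (∃ g : ℤ√d, Dk (2 + ⟨0, y⟩ : ℤ√d) (4*n) = 2 * g ∧ Odd g.re) ∧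
    (∃ g : ℤ√d, Dk (2 + ⟨0, y⟩ : ℤ√d) (4*(n+1)) = 2 * g ∧ Odd g.re) := by
  intro n
  have godd : Odd (8*((⟨0, y⟩ : ℤ√d)-2*Z)^2-1).re := by
    rw [Zsqrtd.re_sub]
    have e : (8*((⟨0, y⟩ : ℤ√d)-2*Z)^2).re = 2*(4*(((⟨0, y⟩ : ℤ√d)-2*Z)^2).re) := by
      rw [Zsqrtd.re_mul]; simp; ring
    rw [e]
    exact Even.sub_odd (even_two_mul _) odd_one
  induction n with
  | zero =>
    refine ⟨⟨1, by simp, by simp⟩, ⟨8*((⟨0, y⟩ : ℤ√d)-2*Z)^2-1, ?_, godd⟩⟩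
    rw [show 4*(0+1) = 4 by rfl, Dk_four, gen_D h.w2]
  | succ n ih =>
    obtain ⟨⟨g, hg1, hg2⟩, ⟨g', hg1', hg2'⟩⟩ := ih
    refine ⟨⟨g', hg1', hg2'⟩, ?_⟩
    refine ⟨2*((8*((⟨0, y⟩ : ℤ√d)-2*Z)^2-1)*g') - g, ?_, ?_⟩
    · have e := Dk_step (2 + ⟨0, y⟩ : ℤ√d) (4*n)
      rw [show 4*(n+1+1) = 4*n+8 by ring, e, gen_D h.w2]
      rw [show 4*(n+1) = 4*n+4 by ring] at hg1'
      linear_combination (2*(8*((⟨0, y⟩ : ℤ√d)-2*Z)^2-1)) * hg1' - hg1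
    · rw [Zsqrtd.re_sub]
      have e3 : (2 * ((8*((⟨0, y⟩ : ℤ√d)-2*Z)^2-1)*g')).re
          = 2 * ((8*((⟨0, y⟩ : ℤ√d)-2*Z)^2-1)*g').re := by
        rw [Zsqrtd.re_mul]; simp
      rw [e3]
      exact Even.sub_odd (even_two_mul _) hg2

lemma C3 (h : Par d y Z) : ∀ n : ℕ, 0 < n →
    ∃ (e : ℕ) (c : ℤ√d), ((2 + ⟨0, y⟩ : ℤ√d)^2 - 4) * Sk (2 + ⟨0, y⟩ : ℤ√d) (4*n) = 2^(e+4) * c ∧
      Odd c.re := by
  intro n
  induction n using Nat.strong_induction_on with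
  | _ n ih =>
    intro hn
    rcases Nat.even_or_odd n with ⟨j, hj⟩ | hodd
    · have hj0 : 0 < j := by omega
      obtain ⟨e, c, h1, h2⟩ := ih j (by omega) hj0
      obtain ⟨g, hg1, hg2⟩ := (C2 h j).1
      refine ⟨e+1, c*g, ?_, odd_mul h.hd h2 hg2⟩
      rw [show 4*n = 2*(4*j) by omega, Sk_double, hg1, ← mul_assoc, h1]
      ring
    · obtain ⟨c, h1, h2⟩ := (C1 h n).1
      exact ⟨0, c, by rw [h1]; norm_num, h2 hodd⟩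

lemma C4 (h : Par d y Z) : ∀ n : ℕ, Odd (Sk (2 + ⟨0, y⟩ : ℤ√d) (2*n+1)).re := by
  intro n
  induction n with
  | zero => simp
  | succ n ih =>
    rw [show 2*(n+1)+1 = (2*n+1)+2 by ring, Sk_succ, Zsqrtd.re_sub, Zsqrtd.re_mul]
    have e : (2 + ⟨0, y⟩ : ℤ√d).re = 2 := by simp
    rw [e]
    obtain ⟨k, hk⟩ := h.hd
    refine Even.sub_odd ?_ ih
    refine Even.add (even_two_mul _) ?_
    rw [mul_assoc]
    exact h.hd.mul_right _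

lemma re_two_pow_mul (e : ℕ) (c : ℤ√d) : ((2:ℤ√d)^e * c).re = 2^e * c.re := by
  have : (2:ℤ√d)^e = ((2^e : ℤ) : ℤ√d) := by push_cast; rfl
  rw [this]
  exact re_int_mul _ _

/-- the indices `m = 8 n ± 1` -/
lemma one_seven (h : Par d y Z) {m : ℕ} (hm : 1 < m) (h8 : m % 8 = 1 ∨ m % 8 = 7) :
    ∃ j : ℤ, j ≠ 0 ∧ (Dk (2 + ⟨0, y⟩ : ℤ√d) m).re = 2 + 16*j := by
  obtain ⟨e, c, hc, hodd⟩ : ∃ (e : ℕ) (c : ℤ√d),
      Dk (2 + ⟨0, y⟩ : ℤ√d) m - (2 + ⟨0, y⟩) = 2^(e+4) * c ∧ Odd c.re := by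
    rcases h8 with h8 | h8
    · obtain ⟨n, hn⟩ : ∃ n, m = 8*n+1 := ⟨m/8, by omega⟩
      obtain ⟨e, c, h1, h2⟩ := C3 h n (by omega)
      refine ⟨e, c * Sk (2 + ⟨0, y⟩ : ℤ√d) (4*n+1), ?_, odd_mul h.hd h2 ?_⟩
      · have := Dk_odd (2 + ⟨0, y⟩ : ℤ√d) (4*n)
        rw [show 2*(4*n)+1 = m by omega] at this
        rw [this, h1, mul_assoc]
      · rw [show 4*n+1 = 2*(2*n)+1 by ring]
        exact C4 h _
    · obtain ⟨n, hn⟩ : ∃ n, m = 8*n+7 := ⟨m/8, by omega⟩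
      obtain ⟨e, c, h1, h2⟩ := C3 h (n+1) (by omega)
      refine ⟨e, c * Sk (2 + ⟨0, y⟩ : ℤ√d) (4*n+3), ?_, odd_mul h.hd h2 ?_⟩
      · have := Dk_odd (2 + ⟨0, y⟩ : ℤ√d) (4*n+3)
        rw [show 2*(4*n+3)+1 = m by omega, show 4*n+3+1 = 4*(n+1) by ring] at this
        rw [this, mul_right_comm, h1, mul_assoc]
      · rw [show 4*n+3 = 2*(2*n+1)+1 by ring]
        exact C4 h _
  have h1 := congrArg Zsqrtd.re hc
  rw [re_two_pow_mul, Zsqrtd.re_sub] at h1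
  have e2 : (2 + ⟨0, y⟩ : ℤ√d).re = 2 := by simp
  rw [e2] at h1
  refine ⟨2^e * c.re, ?_, ?_⟩
  · apply mul_ne_zero (by positivity)
    intro h0
    rw [h0] at hodd
    simp at hodd
  · have : (2:ℤ)^(e+4) = 16 * 2^e := by rw [pow_add]; ring
    rw [this] at h1
    linarith

/-- real parts modulo 16 of the indices `m = 8 n ± 3` -/
lemma three_five (h : Par d y Z) : ∀ n : ℕ,
    ((Dk (2 + ⟨0, y⟩ : ℤ√d) (8*n+1)).re % 16 = 2 ∧ (Dk (2 + ⟨0, y⟩ : ℤ√d) (8*n+5)).re % 16 = 6) ∧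
    ((Dk (2 + ⟨0, y⟩ : ℤ√d) (8*n+3)).re % 16 = 6 ∧ (Dk (2 + ⟨0, y⟩ : ℤ√d) (8*n+7)).re % 16 = 2) := by
  have key : ∀ X : ℤ√d, (((2 + (⟨0, y⟩ : ℤ√d))^4 - 4*(2 + (⟨0, y⟩ : ℤ√d))^2+2) * X).re =
      16 * (((⟨0, y⟩ : ℤ√d)-2*Z)^2 * X).re - 2 * X.re := by
    intro X
    rw [gen_D h.w2]
    have e : 2*(8*((⟨0, y⟩ : ℤ√d)-2*(Z : ℤ√d))^2-1) * X = 16*(((⟨0, y⟩ : ℤ√d)-2*(Z : ℤ√d))^2*X) - 2*X := by
      ring
    rw [e, Zsqrtd.re_sub]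
    have e1 : (16*(((⟨0, y⟩ : ℤ√d)-2*Z)^2*X)).re = 16 * (((⟨0, y⟩ : ℤ√d)-2*Z)^2*X).re := by
      rw [Zsqrtd.re_mul]; simp
    have e2 : (2*X).re = 2*X.re := by rw [Zsqrtd.re_mul]; simp
    rw [e1, e2]
  have r1 : (2 + ⟨0, y⟩ : ℤ√d).re = 2 := by simp
  have r3 : (Dk (2 + ⟨0, y⟩ : ℤ√d) 3).re = -10 - 48*Z := by
    rw [Dk_three]
    have e : (2 + ⟨0, y⟩ : ℤ√d)^3 - 3*(2 + ⟨0, y⟩) = (((-10 - 48*Z : ℤ)) : ℤ√d)
        + ((7 - 8*Z : ℤ) : ℤ√d) * ⟨0, y⟩ := by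
      push_cast
      linear_combination (⟨0, y⟩ + 6 : ℤ√d) * h.w2
    rw [e]
    exact re_form _ _
  have r5 : (Dk (2 + ⟨0, y⟩ : ℤ√d) 5).re = 16 * (40*Z^2 - 5*Z - 4) + 6 := by
    rw [Dk_five]
    have e : (2 + ⟨0, y⟩ : ℤ√d)^5 - 5*(2 + ⟨0, y⟩)^3 + 5*(2 + ⟨0, y⟩)
        = (((16 * (40*Z^2 - 5*Z - 4) + 6 : ℤ)) : ℤ√d)
        + ((25 - 35*(2+8*Z) + (2+8*Z)^2 : ℤ) : ℤ√d) * ⟨0, y⟩ := by
      push_cast
      linear_combination ((⟨0, y⟩ : ℤ√d)^3 + 10*⟨0, y⟩^2 + (35-(2+8*Z))*⟨0, y⟩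
        + (50 - 10*(2+8*Z))) * h.w2
    rw [e]
    exact re_form _ _
  have r7 : (Dk (2 + ⟨0, y⟩ : ℤ√d) 7).re % 16 = 2 := by
    rw [Dk_seven, Zsqrtd.re_sub, key, r3, r1]
    omega
  intro n
  induction n with
  | zero =>
    refine ⟨⟨?_, ?_⟩, ?_, ?_⟩
    · simp
    · rw [show 8*0+5 = 5 by rfl, r5]; omega
    · rw [show 8*0+3 = 3 by rfl, r3]; omega
    · exact r7
  | succ n ih =>
    obtain ⟨⟨i1, i2⟩, i3, i4⟩ := ih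
    have s1 : (Dk (2 + ⟨0, y⟩ : ℤ√d) (8*n+9)).re % 16 = 2 := by
      have := Dk_step (2 + ⟨0, y⟩ : ℤ√d) (8*n+1)
      rw [show 8*n+1+8 = 8*n+9 by ring, show 8*n+1+4 = 8*n+5 by ring] at this
      rw [this, Zsqrtd.re_sub, key]
      omega
    have s2 : (Dk (2 + ⟨0, y⟩ : ℤ√d) (8*n+13)).re % 16 = 6 := by
      have := Dk_step (2 + ⟨0, y⟩ : ℤ√d) (8*n+5)
      rw [show 8*n+5+8 = 8*n+13 by ring, show 8*n+5+4 = 8*n+9 by ring] at this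
      rw [this, Zsqrtd.re_sub, key]
      omega
    have s3 : (Dk (2 + ⟨0, y⟩ : ℤ√d) (8*n+11)).re % 16 = 6 := by
      have := Dk_step (2 + ⟨0, y⟩ : ℤ√d) (8*n+3)
      rw [show 8*n+3+8 = 8*n+11 by ring, show 8*n+3+4 = 8*n+7 by ring] at this
      rw [this, Zsqrtd.re_sub, key]
      omega
    have s4 : (Dk (2 + ⟨0, y⟩ : ℤ√d) (8*n+15)).re % 16 = 2 := by
      have := Dk_step (2 + ⟨0, y⟩ : ℤ√d) (8*n+7)
      rw [show 8*n+7+8 = 8*n+15 by ring, show 8*n+7+4 = 8*n+11 by ring] at this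
      rw [this, Zsqrtd.re_sub, key]
      omega
    refine ⟨⟨?_, ?_⟩, ?_, ?_⟩
    · rw [show 8*(n+1)+1 = 8*n+9 by ring]; exact s1
    · rw [show 8*(n+1)+5 = 8*n+13 by ring]; exact s2
    · rw [show 8*(n+1)+3 = 8*n+11 by ring]; exact s3
    · rw [show 8*(n+1)+7 = 8*n+15 by ring]; exact s4

/-- The real part of `D_m(2 + w)` is not `± 2` for odd `m > 1`. -/
lemma no_two (h : Par d y Z) {m : ℕ} (hm : 1 < m) (hodd : m % 2 = 1) :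
    (Dk (2 + ⟨0, y⟩ : ℤ√d) m).re ≠ 2 ∧ (Dk (2 + ⟨0, y⟩ : ℤ√d) m).re ≠ -2 := by
  have h8 : (m % 8 = 1 ∨ m % 8 = 7) ∨ m % 8 = 3 ∨ m % 8 = 5 := by omega
  rcases h8 with h8 | h8 | h8
  · obtain ⟨j, hj, h1⟩ := one_seven h hm h8
    constructor <;> omega
  · obtain ⟨n, rfl⟩ : ∃ n, m = 8*n+3 := ⟨m/8, by omega⟩
    have := (three_five h n).2.1
    constructor <;> omega
  · obtain ⟨n, rfl⟩ : ∃ n, m = 8*n+5 := ⟨m/8, by omega⟩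
    have := (three_five h n).1.2
    constructor <;> omega

end two

end Pool.Agent.Q269.UnitSum
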