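import Mathlib
import Pool.Agent.Q269.UnitSumA

/-!
`2 + f √(-D)`, `D ≡ 2 (mod 8)`, `f` odd, is not of the form `D_p(s', 1)` with `s' ∈ ℤ[√(-D)]` and an odd
prime `p`.
-/

namespace Pool.Agent.Q269.UnitSum

section rec
variable {d : ℤ} (s : ℤ√d)

lemma re_succ (n : ℕ) : (Dk s (n+2)).re = s.re * (Dk s (n+1)).re + d * s.im * (Dk s (n+1)).im
    - (Dk s n).re := by
  rw [Dk_succ, Zsqrtd.re_sub, Zsqrtd.re_mul]

lemma im_succ (n : ℕ) : (Dk s (n+2)).im = s.re * (Dk s (n+1)).im + s.im * (Dk s (n+1)).re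
    - (Dk s n).im := by
  rw [Dk_succ, Zsqrtd.im_sub, Zsqrtd.im_mul]

lemma L1 : ∀ n : ℕ, s.im ∣ (Dk s n).im ∧ s.im ∣ (Dk s (n+1)).im := by
  intro n
  induction n with
  | zero => simp
  | succ n ih =>
    refine ⟨ih.2, ?_⟩
    rw [im_succ]
    exact dvd_sub (dvd_add (ih.2.mul_left _) (Dvd.intro _ rfl)) ih.1

lemma L2 : ∀ n : ℕ, s.re ∣ (Dk s (2*n)).im ∧ s.re ∣ (Dk s (2*n+1)).re := by
  intro n
  induction n with
  | zero => simp
  | succ n ih =>
    have h1 : s.re ∣ (Dk s (2*n+2)).im := by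
      rw [im_succ]
      exact dvd_sub (dvd_add (Dvd.intro _ rfl) (ih.2.mul_left _)) ih.1
    refine ⟨by rw [show 2*(n+1) = 2*n+2 by ring]; exact h1, ?_⟩
    rw [show 2*(n+1)+1 = (2*n+1)+2 by ring, re_succ]
    exact dvd_sub (dvd_add (Dvd.intro _ rfl) (h1.mul_left _)) ih.2

lemma L3 (hd : Even d) (hx : Odd s.re) : ∀ n : ℕ, Even (Dk s (3*n)).re ∧ Odd (Dk s (3*n+1)).re ∧
    Odd (Dk s (3*n+2)).re := by
  have key : ∀ n : ℕ, (Dk s (n+2)).re % 2 = ((Dk s (n+1)).re + (Dk s n).re) % 2 := by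
    intro n
    rw [re_succ]
    obtain ⟨k, hk⟩ := hd
    obtain ⟨l, hl⟩ := hx
    have e : s.re * (Dk s (n+1)).re + d * s.im * (Dk s (n+1)).im - (Dk s n).re
      = (Dk s (n+1)).re + (Dk s n).re + 2*(l * (Dk s (n+1)).re + k * s.im * (Dk s (n+1)).im
        - (Dk s n).re) := by
      linear_combination (Dk s (n+1)).re * hl + (s.im * (Dk s (n+1)).im) * hk
    rw [e, Int.add_mul_emod_self_left]
  intro n
  induction n with
  | zero =>
    have := key 0
    simp at this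
    refine ⟨by simp, by simpa using hx, ?_⟩
    rw [Int.odd_iff] at hx ⊢
    simp
    omega
  | succ n ih =>
    obtain ⟨h0, h1, h2⟩ := ih
    have k3 := key (3*n+1)
    have k4 := key (3*n+2)
    have k5 := key (3*n+3)
    rw [Int.even_iff] at h0 ⊢
    rw [Int.odd_iff] at h1 h2
    rw [Int.odd_iff, Int.odd_iff]
    rw [show 3*(n+1) = 3*n+3 by ring, show 3*n+3+1 = 3*n+4 by ring, show 3*n+3+2 = 3*n+5 by ring]
    rw [show 3*n+1+2 = 3*n+3 by ring, show 3*n+1+1 = 3*n+2 by ring] at k3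
    rw [show 3*n+2+2 = 3*n+4 by ring, show 3*n+2+1 = 3*n+3 by ring] at k4
    rw [show 3*n+3+2 = 3*n+5 by ring, show 3*n+3+1 = 3*n+4 by ring] at k5
    omega

end rec

lemma arith {D x y f : ℤ} (hD : D % 8 = 2) (hpos : 0 < D) {p : ℕ} (hp : p.Prime)
    (hodd : p % 2 = 1) (hf : Odd f) (h : Dk (⟨x, y⟩ : ℤ√(-D)) p = ⟨2, f⟩) : False := by
  have hre : (Dk (⟨x, y⟩ : ℤ√(-D)) p).re = 2 := by rw [h]
  have him : (Dk (⟨x, y⟩ : ℤ√(-D)) p).im = f := by rw [h]
  have hd : Even (-D) := by rw [Int.even_iff]; omega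
  have hy : Odd y := by
    have h1 := (L1 (⟨x, y⟩ : ℤ√(-D)) p).1
    rw [him] at h1
    obtain ⟨c, hc⟩ := h1
    rw [hc] at hf
    exact (Int.odd_mul.mp hf).1
  have hx2 : x ∣ 2 := by
    have h1 := (L2 (⟨x, y⟩ : ℤ√(-D)) (p/2)).2
    rw [show 2*(p/2)+1 = p by omega, hre] at h1
    exact h1
  have hxle : x ≤ 2 := Int.le_of_dvd (by norm_num) hx2
  have hxge : -2 ≤ x := by
    have h1 : -x ∣ 2 := (neg_dvd).mpr hx2
    have := Int.le_of_dvd (by norm_num) h1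
    linarith
  have hy8 : y^2 % 8 = 1 := by
    obtain ⟨k, hk⟩ := hy
    obtain ⟨j, hj⟩ := Int.even_mul_succ_self k
    have : y^2 = 1 + 8*j := by rw [hk]; linarith
    omega
  have hY : ∃ Z : ℤ, D*y^2 = 2 + 8*Z := by
    refine ⟨D*y^2/8, ?_⟩
    have : (D*y^2) % 8 = 2 := by rw [Int.mul_emod, hD, hy8]; rfl
    omega
  obtain ⟨Z, hZ⟩ := hY
  have hYpos : 0 < D*y^2 := by
    have : y ≠ 0 := by rintro rfl; simp at hy
    positivity
  rcases Int.even_or_odd x with hxe | hxo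
  · -- x = ± 2
    have hcases : x = 2 ∨ x = -2 := by
      have hx0 : x ≠ 0 := by rintro rfl; simp at hx2
      rw [Int.even_iff] at hxe
      omega
    rcases hcases with rfl | rfl
    · have hP : Par (-D) y Z := ⟨hd, by linarith⟩
      have e : (⟨2, y⟩ : ℤ√(-D)) = 2 + ⟨0, y⟩ := by
        ext <;> simp
      rw [e] at hre
      exact (no_two hP hp.one_lt hodd).1 hre
    · have hP : Par (-D) (-y) Z := ⟨hd, by linarith [hZ, neg_sq y]⟩
      have e : (⟨-2, y⟩ : ℤ√(-D)) = -(2 + ⟨0, -y⟩) := by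
        ext <;> simp
      have h2 := (Dk_neg (2 + ⟨0, -y⟩ : ℤ√(-D)) (p/2)).2
      rw [show 2*(p/2)+1 = p by omega] at h2
      rw [e, h2, Zsqrtd.re_neg] at hre
      exact (no_two hP hp.one_lt hodd).2 (by linarith)
  · have hcases : x = 1 ∨ x = -1 := by
      rw [Int.odd_iff] at hxo
      omega
    have hp3 : p = 3 := by
      by_contra hne
      have h3 : ¬ 3 ∣ p := by
        intro h3
        exact hne ((Nat.prime_dvd_prime_iff_eq Nat.prime_three hp).mp h3).symm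
      obtain ⟨h0, h1, h2⟩ := L3 (⟨x, y⟩ : ℤ√(-D)) hd hxo (p/3)
      have hcase : p = 3*(p/3)+1 ∨ p = 3*(p/3)+2 := by omega
      rcases hcase with hc | hc
      · rw [← hc, hre] at h1
        exact absurd h1 (by decide)
      · rw [← hc, hre] at h2
        exact absurd h2 (by decide)
    rw [hp3, Dk_three] at hre
    have e : ((⟨x, y⟩ : ℤ√(-D))^3 - 3*(⟨x, y⟩ : ℤ√(-D))).re = x^3 - 3*x*(D*y^2) - 3*x := by
      simp [pow_succ]
      ring
    rw [e, hZ] at hre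
    rcases hcases with rfl | rfl
    · omega
    · omega

end Pool.Agent.Q269.UnitSum
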