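import Mathlib

/-!
Vanishing unit sums: the definitions, and the computation of the least length when all units are
`± uⁿ` and the minimal polynomial of `u` has one dominating coefficient.
-/

namespace Pool.Agent.Q269.UnitSum

open Polynomial NumberField

/-- the sum of the absolute values of the coefficients -/
def l1 (P : ℤ[X]) : ℤ := ∑ i ∈ P.support, |P.coeff i|

lemma l1_eq (P : ℤ[X]) (s : Finset ℕ) (h : P.support ⊆ s) : l1 P = ∑ i ∈ s, |P.coeff i| := by
  unfold l1
  apply Finset.sum_subset h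
  intro i _ hi
  rw [notMem_support_iff.mp hi, abs_zero]

lemma supp_sub {f : ℤ[X]} : f.support ⊆ Finset.range (f.natDegree+1) := by
  intro i hi
  rw [Finset.mem_range]
  exact Nat.lt_succ_of_le (le_natDegree_of_mem_supp i hi)

lemma l1_nonneg (P : ℤ[X]) : 0 ≤ l1 P := Finset.sum_nonneg fun _ _ => abs_nonneg _

lemma l1_zero : l1 0 = 0 := by simp [l1]

lemma l1_add_le (P Q : ℤ[X]) : l1 (P + Q) ≤ l1 P + l1 Q := by
  rw [l1_eq (P+Q) (P.support ∪ Q.support) (support_add), l1_eq P _ Finset.subset_union_left,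
    l1_eq Q _ Finset.subset_union_right, ← Finset.sum_add_distrib]
  apply Finset.sum_le_sum
  intro i _
  rw [coeff_add]
  exact abs_add_le _ _

lemma l1_neg (P : ℤ[X]) : l1 (-P) = l1 P := by
  unfold l1
  rw [support_neg]
  apply Finset.sum_congr rfl
  intro i _
  rw [coeff_neg, abs_neg]

lemma l1_sum_le {ι : Type*} (s : Finset ι) (F : ι → ℤ[X]) :
    l1 (∑ i ∈ s, F i) ≤ ∑ i ∈ s, l1 (F i) := by
  classical
  induction s using Finset.induction_on with
  | empty => simp [l1_zero]
  | insert a s ha ih =>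
    rw [Finset.sum_insert ha, Finset.sum_insert ha]
    exact le_trans (l1_add_le _ _) (by linarith)

lemma l1_C_mul (a : ℤ) (P : ℤ[X]) : l1 (C a * P) = |a| * l1 P := by
  rw [l1_eq (C a * P) P.support, l1, Finset.mul_sum]
  · apply Finset.sum_congr rfl
    intro i _
    rw [coeff_C_mul, abs_mul]
  · intro i hi
    rw [mem_support_iff, coeff_C_mul] at hi
    rw [mem_support_iff]
    exact right_ne_zero_of_mul hi

lemma l1_X_pow_mul (n : ℕ) (P : ℤ[X]) : l1 (X^n * P) = l1 P := by
  unfold l1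
  symm
  apply Finset.sum_bij (fun i _ => i + n)
  · intro i hi
    rw [mem_support_iff] at hi ⊢
    rwa [coeff_X_pow_mul]
  · intro i _ j _ h
    exact Nat.add_right_cancel h
  · intro i hi
    rw [mem_support_iff, coeff_X_pow_mul'] at hi
    split_ifs at hi with h
    · exact ⟨i - n, mem_support_iff.mpr hi, Nat.sub_add_cancel h⟩
    · exact absurd rfl hi
  · intro i _
    rw [coeff_X_pow_mul]

lemma l1_mono_mul (a : ℤ) (n : ℕ) (P : ℤ[X]) : l1 (C a * X^n * P) = |a| * l1 P := by
  rw [mul_assoc, l1_C_mul, l1_X_pow_mul]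

lemma l1_mul_le (P Q : ℤ[X]) : l1 (P * Q) ≤ l1 P * l1 Q := by
  have e : P * Q = ∑ i ∈ P.support, (C (P.coeff i) * X^i * Q) := by
    nth_rewrite 1 [P.as_sum_support_C_mul_X_pow]
    rw [Finset.sum_mul]
  rw [e]
  refine le_trans (l1_sum_le _ _) ?_
  rw [l1, Finset.sum_mul]
  apply Finset.sum_le_sum
  intro i _
  rw [l1_mono_mul]

/-- splitting off one term -/
lemma l1_split (P : ℤ[X]) (j : ℕ) : ∃ r : ℤ[X], P = C (P.coeff j) * X^j + r ∧
    l1 r = l1 P - |P.coeff j| := by
  refine ⟨P.erase j, ?_, ?_⟩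
  · rw [C_mul_X_pow_eq_monomial]
    exact (P.monomial_add_erase j).symm
  · rw [l1_eq P (insert j P.support) (Finset.subset_insert _ _),
      l1_eq (P.erase j) (insert j P.support) (by
        rw [support_erase]
        exact (Finset.erase_subset _ _).trans (Finset.subset_insert _ _))]
    have hj : j ∈ insert j P.support := Finset.mem_insert_self _ _
    rw [← Finset.add_sum_erase _ _ hj, ← Finset.add_sum_erase _ _ hj]
    rw [erase_same]
    have : ∑ i ∈ (insert j P.support).erase j, |(P.erase j).coeff i|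
        = ∑ i ∈ (insert j P.support).erase j, |P.coeff i| := by
      apply Finset.sum_congr rfl
      intro i hi
      rw [coeff_erase, if_neg (Finset.ne_of_mem_erase hi)]
    rw [this]
    simp

lemma l1_eq_zero {P : ℤ[X]} (h : l1 P ≤ 0) : P = 0 := by
  by_contra hne
  obtain ⟨i, hi⟩ := Finset.nonempty_iff_ne_empty.mpr (fun h0 => hne (support_eq_empty.mp h0))
  have h1 : |P.coeff i| ≤ l1 P :=
    Finset.single_le_sum (f := fun i => |P.coeff i|) (fun _ _ => abs_nonneg _) hi
  have h2 := abs_pos.mpr (mem_support_iff.mp hi)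
  omega

/-- a polynomial with a dominating coefficient -/
lemma l1_dom {f g : ℤ[X]} (hg : g ≠ 0) (j : ℕ) (hj : l1 f ≤ 2*(2*|f.coeff j| - l1 f)) :
    l1 f ≤ l1 (f * g) := by
  have hf0 := l1_nonneg f
  rcases le_or_gt (l1 g) 1 with h1 | h1
  · -- g is ± a power of X
    obtain ⟨i, hi⟩ := Finset.nonempty_iff_ne_empty.mpr (fun h0 => hg (support_eq_empty.mp h0))
    obtain ⟨r, hr, hr1⟩ := l1_split g i
    have h2 := abs_pos.mpr (mem_support_iff.mp hi)
    have hr0 : r = 0 := l1_eq_zero (by omega)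
    rw [hr0, add_zero] at hr
    have h3 : |g.coeff i| = 1 := by
      have := l1_nonneg r
      omega
    rw [mul_comm, hr, l1_mono_mul, h3, one_mul]
  · obtain ⟨r, hr, hr1⟩ := l1_split f j
    have h2 : C (f.coeff j) * X^j * g = f * g + -(r * g) := by
      nth_rewrite 2 [hr]
      ring
    have h3 : |f.coeff j| * l1 g ≤ l1 (f*g) + l1 r * l1 g := by
      rw [← l1_mono_mul _ j, h2]
      refine le_trans (l1_add_le _ _) ?_
      rw [l1_neg]
      linarith [l1_mul_le r g]
    have h4 : (2*|f.coeff j| - l1 f) * l1 g ≤ l1 (f*g) := by rw [hr1] at h3; linarith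
    have h5 : 0 ≤ 2*|f.coeff j| - l1 f := by linarith
    have h6 : (2*|f.coeff j| - l1 f) * 2 ≤ (2*|f.coeff j| - l1 f) * l1 g :=
      mul_le_mul_of_nonneg_left h1 h5
    linarith

section defs
variable (K : Type*) [Field K]

/-- `k` units with sum zero -/
def Vanishing {k : ℕ} (ε : Fin k → (𝓞 K)ˣ) : Prop := ∑ i, ((ε i : (𝓞 K)ˣ) : 𝓞 K) = 0

/-- no proper nonempty subsum is zero -/
def NoProperSubsum {k : ℕ} (ε : Fin k → (𝓞 K)ˣ) : Prop :=
  ∀ I : Finset (Fin k), I.Nonempty → I ≠ Finset.univ → ∑ i ∈ I, ((ε i : (𝓞 K)ˣ) : 𝓞 K) ≠ 0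

/-- the least odd `k ≥ 3` for which `K` has a vanishing unit sum of length `k` (`⊤` if there is
none) -/
noncomputable def od : ℕ∞ :=
  sInf {n : ℕ∞ | ∃ k : ℕ, n = k ∧ Odd k ∧ 3 ≤ k ∧ ∃ ε : Fin k → (𝓞 K)ˣ, Vanishing K ε}

/-- the least even `k ≥ 4` for which `K` has a vanishing unit sum of length `k` with no proper
vanishing subsum (`⊤` if there is none) -/
noncomputable def ev : ℕ∞ :=
  sInf {n : ℕ∞ | ∃ k : ℕ, n = k ∧ Even k ∧ 4 ≤ k ∧
    ∃ ε : Fin k → (𝓞 K)ˣ, Vanishing K ε ∧ NoProperSubsum K ε}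

/-- the smaller of `od K` and `ev K` -/
noncomputable def ell : ℕ∞ := min (od K) (ev K)

end defs

section main
variable {K : Type*} [Field K]

/-- the sign of an integer as a unit -/
noncomputable def sg (a : ℤ) : ℤ := if 0 ≤ a then 1 else -1

lemma sg_abs (a : ℤ) : |sg a| = 1 := by
  unfold sg; split_ifs <;> simp

lemma sg_mul (a : ℤ) : sg a * |a| = a := by
  unfold sg
  split_ifs with h
  · rw [abs_of_nonneg h]; ring
  · rw [abs_of_neg (by omega)]; ring


/-- a vanishing sum of units `± uⁿ` gives a polynomial -/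
lemma poly_of {u : (𝓞 K)ˣ} (hU : ∀ v : (𝓞 K)ˣ, ∃ n : ℤ, v = u^n ∨ v = -u^n) {k : ℕ}
    (ε : Fin k → (𝓞 K)ˣ) (h : Vanishing K ε) :
    ∃ (e : Fin k → ℕ) (s : Fin k → ℤ) (N : (𝓞 K)ˣ), (∀ i, s i = 1 ∨ s i = -1) ∧
      (∀ i, (s i : 𝓞 K) * (u : 𝓞 K)^(e i) = N * ε i) ∧
      aeval (u : 𝓞 K) (∑ i, C (s i) * X^(e i)) = 0 := by
  choose n hn using fun i => hU (ε i)
  obtain ⟨M, hM⟩ : ∃ M : ℤ, ∀ i, 0 ≤ n i + M := by
    refine ⟨∑ i, |n i|, fun i => ?_⟩
    have := Finset.single_le_sum (f := fun i => |n i|) (fun _ _ => abs_nonneg _)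
      (Finset.mem_univ i)
    have h2 := neg_abs_le (n i)
    linarith
  have key : ∀ i, ∃ s : ℤ, (s = 1 ∨ s = -1) ∧
      (s : 𝓞 K) * (u : 𝓞 K)^((n i + M).toNat) = ((u^M : (𝓞 K)ˣ) : 𝓞 K) * ε i := by
    intro i
    have e1 : ((u : 𝓞 K)^((n i + M).toNat)) = ((u^(n i + M) : (𝓞 K)ˣ) : 𝓞 K) := by
      rw [← Units.val_pow_eq_pow_val]
      congr 1
      rw [← zpow_natCast, Int.toNat_of_nonneg (hM i)]
    have e2 : ((u^(n i + M) : (𝓞 K)ˣ) : 𝓞 K) = ((u^M : (𝓞 K)ˣ) : 𝓞 K) * ((u^(n i) : (𝓞 K)ˣ) : 𝓞 K) := by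
      rw [← Units.val_mul]
      congr 1
      rw [zpow_add, mul_comm]
    rcases hn i with h1 | h1
    · refine ⟨1, Or.inl rfl, ?_⟩
      rw [e1, e2]
      rw [h1]
      push_cast
      ring
    · refine ⟨-1, Or.inr rfl, ?_⟩
      rw [e1, e2]
      rw [h1]
      push_cast
      ring
  choose s hs1 hs2 using key
  refine ⟨fun i => (n i + M).toNat, s, u^M, hs1, hs2, ?_⟩
  rw [map_sum]
  have : ∀ i ∈ (Finset.univ : Finset (Fin k)), aeval (u : 𝓞 K) (C (s i) * X^((n i + M).toNat))
      = ((u^M : (𝓞 K)ˣ) : 𝓞 K) * ε i := by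
    intro i _
    rw [map_mul, aeval_C, map_pow, aeval_X, ← hs2 i]
    rfl
  rw [Finset.sum_congr rfl this, ← Finset.mul_sum]
  unfold Vanishing at h
  rw [h, mul_zero]

lemma l1_terms {ι : Type*} (I : Finset ι) (s : ι → ℤ) (e : ι → ℕ) (hs : ∀ i, s i = 1 ∨ s i = -1) :
    l1 (∑ i ∈ I, C (s i) * X^(e i)) ≤ I.card := by
  refine le_trans (l1_sum_le _ _) ?_
  have : ∀ i ∈ I, l1 (C (s i) * X^(e i)) = 1 := by
    intro i _
    have := l1_mono_mul (s i) (e i) 1
    rw [mul_one] at this
    rw [this]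
    have h1 : l1 (1 : ℤ[X]) = 1 := by
      rw [l1_eq 1 {0} (by
        intro i hi
        rw [mem_support_iff, coeff_one] at hi
        simp at hi ⊢
        exact hi)]
      simp
    rw [h1]
    rcases hs i with h | h <;> rw [h] <;> norm_num
  rw [Finset.sum_congr rfl this]
  simp

/-- the lower bound -/
lemma lower {u : (𝓞 K)ˣ} (hU : ∀ v : (𝓞 K)ˣ, ∃ n : ℤ, v = u^n ∨ v = -u^n) {f : ℤ[X]}
    (hf : ∀ P : ℤ[X], aeval (u : 𝓞 K) P = 0 ↔ f ∣ P) {j : ℕ}
    (hj : l1 f ≤ 2*(2*|f.coeff j| - l1 f)) {k : ℕ} (ε : Fin k → (𝓞 K)ˣ) (h : Vanishing K ε)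
    (hcase : Odd k ∨ (3 ≤ k ∧ NoProperSubsum K ε)) : l1 f ≤ k := by
  obtain ⟨e, s, N, hs, hN, hP⟩ := poly_of hU ε h
  obtain ⟨P, hPd⟩ : ∃ P : ℤ[X], P = ∑ i, C (s i) * X^(e i) := ⟨_, rfl⟩
  rw [← hPd] at hP
  have hP0 : P ≠ 0 := by
    intro h0
    rcases hcase with hk | ⟨hk, hsub⟩
    · -- parity at 1
      have h1 : eval 1 P = ∑ i, s i := by
        rw [hPd, eval_finsetSum]
        simp
      rw [h0, eval_zero] at h1
      have h2 : ∀ I : Finset (Fin k), (∑ i ∈ I, s i) % 2 = (I.card : ℤ) % 2 := by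
        intro I
        induction I using Finset.induction_on with
        | empty => simp
        | insert a I ha ih =>
          rw [Finset.sum_insert ha, Finset.card_insert_of_notMem ha]
          push_cast
          rcases hs a with h | h <;> rw [h] <;> omega
      have h3 := h2 Finset.univ
      rw [← h1, Finset.card_univ, Fintype.card_fin] at h3
      obtain ⟨c, hc⟩ := hk
      omega
    · -- two opposite units
      obtain ⟨i0, hi0⟩ : ∃ i0 : Fin k, i0 = ⟨0, by omega⟩ := ⟨_, rfl⟩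
      have h1 : P.coeff (e i0) = ∑ i, if e i = e i0 then s i else 0 := by
        rw [hPd, finsetSum_coeff]
        apply Finset.sum_congr rfl
        intro i _
        rw [coeff_C_mul, coeff_X_pow]
        by_cases hc : e i = e i0
        · rw [if_pos hc, if_pos hc.symm, mul_one]
        · rw [if_neg hc, if_neg (fun h => hc h.symm), mul_zero]
      rw [h0, coeff_zero] at h1
      obtain ⟨i1, hi1, hi2⟩ : ∃ i1 : Fin k, e i1 = e i0 ∧ s i1 = - s i0 := by
        by_contra hcon
        push Not at hcon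
        have h2 : ∀ i : Fin k, (if e i = e i0 then s i else 0) * s i0 =
            if e i = e i0 then 1 else 0 := by
          intro i
          by_cases hc : e i = e i0
          · rw [if_pos hc, if_pos hc]
            have h3 := hcon i hc
            rcases hs i with h4 | h4 <;> rcases hs i0 with h5 | h5 <;> rw [h4, h5] at h3 ⊢
            · norm_num
            · norm_num at h3
            · norm_num at h3
            · norm_num
          · rw [if_neg hc, if_neg hc, zero_mul]
        have h3 : (∑ i, if e i = e i0 then s i else 0) * s i0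
            = ∑ i : Fin k, if e i = e i0 then (1:ℤ) else 0 := by
          rw [Finset.sum_mul]
          exact Finset.sum_congr rfl fun i _ => h2 i
        rw [← h1, zero_mul] at h3
        have h4 : (1:ℤ) ≤ ∑ i : Fin k, if e i = e i0 then (1:ℤ) else 0 := by
          have := Finset.single_le_sum (f := fun i : Fin k => if e i = e i0 then (1:ℤ) else 0)
            (fun i _ => by split_ifs <;> norm_num) (Finset.mem_univ i0)
          simpa using this
        omega
      have hne : i0 ≠ i1 := by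
        intro heq
        rw [← heq] at hi2
        rcases hs i0 with h5 | h5 <;> omega
      apply hsub {i0, i1} ⟨i0, by simp⟩
      · intro huniv
        have := congrArg Finset.card huniv
        rw [Finset.card_pair hne, Finset.card_univ, Fintype.card_fin] at this
        omega
      · rw [Finset.sum_pair hne]
        have h6 := hN i0
        have h7 := hN i1
        rw [hi1, hi2] at h7
        have h8 : (N : 𝓞 K) * ((ε i0 : 𝓞 K) + ε i1) = 0 := by
          rw [mul_add, ← h6, ← h7]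
          push_cast
          ring
        rcases mul_eq_zero.mp h8 with h9 | h9
        · exact absurd h9 N.ne_zero
        · exact h9
  obtain ⟨g, hg⟩ := (hf P).mp hP
  have hg0 : g ≠ 0 := by rintro rfl; rw [mul_zero] at hg; exact hP0 hg
  have h1 := l1_dom hg0 j hj
  rw [← hg, hPd] at h1
  refine le_trans h1 ?_
  have := l1_terms Finset.univ s e hs
  rwa [Finset.card_univ, Fintype.card_fin] at this

/-- the upper bound -/
lemma upper {u : (𝓞 K)ˣ} {f : ℤ[X]}
    (hf : ∀ P : ℤ[X], aeval (u : 𝓞 K) P = 0 ↔ f ∣ P) {j : ℕ}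
    (hj : l1 f ≤ 2*(2*|f.coeff j| - l1 f)) {k : ℕ} (hk : l1 f = k) :
    ∃ ε : Fin k → (𝓞 K)ˣ, Vanishing K ε ∧ NoProperSubsum K ε := by
  classical
  let ι := Σ i : Fin (f.natDegree + 1), Fin (f.coeff i).natAbs
  have hcard : Fintype.card ι = k := by
    have h1 : (Fintype.card ι : ℤ) = k := by
      rw [← hk, l1_eq f (Finset.range (f.natDegree+1)) supp_sub, Fintype.card_sigma,
        Finset.sum_range]
      push_cast
      apply Finset.sum_congr rfl
      intro i _
      rw [Fintype.card_fin, Int.natCast_natAbs]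
    exact_mod_cast h1
  let e : Fin k ≃ ι := (Fintype.equivFinOfCardEq hcard).symm
  let s : ι → ℤ := fun x => sg (f.coeff x.1)
  let d : ι → ℕ := fun x => x.1
  have hs : ∀ x, s x = 1 ∨ s x = -1 := by
    intro x
    show sg _ = 1 ∨ sg _ = -1
    unfold sg
    split_ifs
    · left; rfl
    · right; rfl
  have hunit : ∀ x : ι, ∃ v : (𝓞 K)ˣ, (v : 𝓞 K) = aeval (u : 𝓞 K) (C (s x) * X^(d x)) := by
    intro x
    rcases hs x with h | h
    · refine ⟨u^(d x), ?_⟩
      rw [h]
      simp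
    · refine ⟨-u^(d x), ?_⟩
      rw [h]
      simp
  choose v hv using hunit
  have hsum : ∀ I : Finset (Fin k), ∑ i ∈ I, ((v (e i) : (𝓞 K)ˣ) : 𝓞 K)
      = aeval (u : 𝓞 K) (∑ i ∈ I, C (s (e i)) * X^(d (e i))) := by
    intro I
    rw [map_sum]
    exact Finset.sum_congr rfl fun i _ => hv (e i)
  have htot : ∑ i : Fin k, C (s (e i)) * X^(d (e i)) = f := by
    rw [Equiv.sum_comp e (fun x => (C (s x) * X^(d x) : ℤ[X]))]
    rw [Fintype.sum_sigma]
    conv_rhs => rw [f.as_sum_range_C_mul_X_pow, Finset.sum_range]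
    apply Finset.sum_congr rfl
    intro i _
    have h1 : ∀ y : Fin (f.coeff i).natAbs, (C (s ⟨i, y⟩) * X^(d ⟨i, y⟩) : ℤ[X])
        = C (sg (f.coeff i)) * X^(i:ℕ) := fun y => rfl
    rw [Finset.sum_congr rfl (fun y _ => h1 y), Finset.sum_const, Finset.card_univ,
      Fintype.card_fin, nsmul_eq_mul]
    have h2 : ((f.coeff i).natAbs : ℤ[X]) = C (|f.coeff i|) := by
      rw [← Int.natCast_natAbs]
      simp
    rw [h2, ← mul_assoc, ← C_mul, mul_comm, mul_comm (|f.coeff i|), sg_mul, mul_comm]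
  refine ⟨fun i => v (e i), ?_, ?_⟩
  · unfold Vanishing
    rw [hsum, htot]
    exact (hf f).mpr dvd_rfl
  · intro I hI hIu h0
    rw [hsum] at h0
    obtain ⟨i0, hi0⟩ := hI
    obtain ⟨P, hP⟩ : ∃ P : ℤ[X], P = ∑ i ∈ I, C (s (e i)) * X^(d (e i)) := ⟨_, rfl⟩
    rw [← hP] at h0
    have hP0 : P ≠ 0 := by
      intro hz
      have h1 : P.coeff (d (e i0)) * s (e i0)
          = ∑ i ∈ I, if d (e i) = d (e i0) then (1:ℤ) else 0 := by
        rw [hP, finsetSum_coeff, Finset.sum_mul]
        apply Finset.sum_congr rfl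
        intro i _
        rw [coeff_C_mul, coeff_X_pow]
        by_cases hc : d (e i) = d (e i0)
        · rw [if_pos hc, if_pos hc.symm, mul_one]
          have h2 : s (e i) = s (e i0) := by
            show sg (f.coeff (d (e i))) = sg (f.coeff (d (e i0)))
            rw [hc]
          rw [h2]
          rcases hs (e i0) with h | h <;> rw [h] <;> norm_num
        · rw [if_neg hc, if_neg (fun h => hc h.symm), mul_zero, zero_mul]
      rw [hz, coeff_zero, zero_mul] at h1
      have h4 : (1:ℤ) ≤ ∑ i ∈ I, if d (e i) = d (e i0) then (1:ℤ) else 0 := by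
        have := Finset.single_le_sum (f := fun i : Fin k => if d (e i) = d (e i0) then (1:ℤ) else 0)
          (fun i _ => by split_ifs <;> norm_num) hi0
        simpa using this
      omega
    obtain ⟨g, hg⟩ := (hf P).mp h0
    have hg0 : g ≠ 0 := by rintro rfl; rw [mul_zero] at hg; exact hP0 hg
    have h1 := l1_dom hg0 j hj
    rw [← hg, hP] at h1
    have h2 := l1_terms I (fun i => s (e i)) (fun i => d (e i)) (fun i => hs (e i))
    have h3 : (k:ℤ) ≤ I.card := by rw [← hk]; exact le_trans h1 h2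
    apply hIu
    apply Finset.eq_univ_of_card
    rw [Fintype.card_fin]
    have h4 := Finset.card_le_univ I
    rw [Fintype.card_fin] at h4
    omega

/-- **the length** when all units are `± uⁿ` and the minimal polynomial of `u` has a dominating
coefficient -/
theorem ell_eq {u : (𝓞 K)ˣ} (hU : ∀ v : (𝓞 K)ˣ, ∃ n : ℤ, v = u^n ∨ v = -u^n) {f : ℤ[X]}
    (hf : ∀ P : ℤ[X], aeval (u : 𝓞 K) P = 0 ↔ f ∣ P) {j : ℕ}
    (hj : l1 f ≤ 2*(2*|f.coeff j| - l1 f)) {k : ℕ} (hk : l1 f = k) (hev : Even k) (h4 : 4 ≤ k) :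
    ell K = k := by
  apply le_antisymm
  · refine le_trans (min_le_right _ _) ?_
    apply sInf_le
    exact ⟨k, rfl, hev, h4, upper hf hj hk⟩
  · apply le_min
    · apply le_sInf
      rintro _ ⟨m, rfl, hm, _, ε, hε⟩
      have := lower hU hf hj ε hε (Or.inl hm)
      rw [hk] at this
      exact_mod_cast this
    · apply le_sInf
      rintro _ ⟨m, rfl, _, hm, ε, hε, hε2⟩
      have := lower hU hf hj ε hε (Or.inr ⟨by omega, hε2⟩)
      rw [hk] at this
      exact_mod_cast this

end main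

end Pool.Agent.Q269.UnitSum
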