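import Mathlib

/-!
Units of a quadratic extension `K = F(ω)`, `ω² = -1 + sω`, of a field `F` which is `ℚ` or imaginary
quadratic with few units: if `ω` is no proper power then all units are `± ωⁿ`.
-/

namespace Pool.Agent.Q269.UnitSum

open QuadraticAlgebra

/-- an integral element with integral inverse -/
def IsU {K : Type*} [Field K] (x : K) : Prop := x ≠ 0 ∧ IsIntegral ℤ x ∧ IsIntegral ℤ x⁻¹

section basic
variable {K : Type*} [Field K]

lemma IsU.mul {x y : K} (hx : IsU x) (hy : IsU y) : IsU (x*y) :=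
  ⟨mul_ne_zero hx.1 hy.1, hx.2.1.mul hy.2.1, by rw [mul_inv]; exact hx.2.2.mul hy.2.2⟩

lemma IsU.inv {x : K} (hx : IsU x) : IsU (x⁻¹) :=
  ⟨inv_ne_zero hx.1, hx.2.2, by rw [inv_inv]; exact hx.2.1⟩

lemma IsU.neg {x : K} (hx : IsU x) : IsU (-x) :=
  ⟨neg_ne_zero.mpr hx.1, hx.2.1.neg, by rw [inv_neg]; exact hx.2.2.neg⟩

lemma IsU.one : IsU (1:K) := ⟨one_ne_zero, isIntegral_one, by rw [inv_one]; exact isIntegral_one⟩

lemma IsU.pow {x : K} (hx : IsU x) (n : ℕ) : IsU (x^n) := by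
  induction n with
  | zero => rw [pow_zero]; exact IsU.one
  | succ n ih => rw [pow_succ]; exact ih.mul hx

lemma IsU.zpow {x : K} (hx : IsU x) (n : ℤ) : IsU (x^n) := by
  obtain ⟨m, rfl | rfl⟩ := n.eq_nat_or_neg
  · rw [zpow_natCast]; exact hx.pow m
  · rw [zpow_neg, zpow_natCast]; exact (hx.pow m).inv

lemma IsU.map {L : Type*} [Field L] (φ : K →+* L) {x : K} (hx : IsU x) : IsU (φ x) := by
  refine ⟨fun h => hx.1 ((map_eq_zero φ).mp h), ?_, ?_⟩
  · exact hx.2.1.map φ.toIntAlgHom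
  · rw [← map_inv₀]
    exact hx.2.2.map φ.toIntAlgHom

lemma IsU.of_map {L : Type*} [Field L] (φ : K →+* L) {x : K} (hx : IsU (φ x)) : IsU x := by
  refine ⟨fun h => hx.1 (by rw [h, map_zero]), ?_, ?_⟩
  · exact (isIntegral_algHom_iff φ.toIntAlgHom φ.injective).mp hx.2.1
  · have := hx.2.2
    rw [← map_inv₀] at this
    exact (isIntegral_algHom_iff φ.toIntAlgHom φ.injective).mp this

lemma quad_fin (t n : K) : {w : K | w*w = t*w - n}.Finite := by
  by_cases h : ∃ w0 : K, w0*w0 = t*w0 - n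
  · obtain ⟨w0, hw0⟩ := h
    apply Set.Finite.subset (s := {w0, t - w0}) (by simp)
    intro w hw
    have hw' : w*w = t*w - n := hw
    have h1 : (w - w0) * (w - (t - w0)) = 0 := by linear_combination hw' - hw0
    rcases mul_eq_zero.mp h1 with h2 | h2
    · left; exact sub_eq_zero.mp h2
    · right; exact sub_eq_zero.mp h2
  · convert! Set.finite_empty
    ext w
    simp only [Set.mem_ofPred_eq, Set.mem_empty_iff_false, iff_false]
    exact fun hw => h ⟨w, hw⟩

end basic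

section gu
variable {F : Type*} [Field F] {s : F} [Fact (∀ r : F, r^2 ≠ -1 + s*r)]

omit [Fact (∀ r : F, r^2 ≠ -1 + s*r)] in
/-- the embedding given by a root `E` -/
def emb (j : F →+* ℂ) (E : ℂ) (hE : E*E = -1 + j s * E) : QuadraticAlgebra F (-1) s →+* ℂ where
  toFun z := j z.re + j z.im * E
  map_one' := by simp
  map_zero' := by simp
  map_mul' z w := by
    simp only [re_mul, im_mul, map_add, map_mul, map_neg, map_one]
    linear_combination (-(j z.im * j w.im)) * hE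
  map_add' z w := by
    simp only [re_add, im_add, map_add]
    ring

omit [Fact (∀ r : F, r^2 ≠ -1 + s*r)] in
lemma emb_apply (j : F →+* ℂ) (E : ℂ) (hE : E*E = -1 + j s * E) (z : QuadraticAlgebra F (-1) s) :
    emb j E hE z = j z.re + j z.im * E := rfl

omit [Fact (∀ r : F, r^2 ≠ -1 + s*r)] in
lemma emb_C (j : F →+* ℂ) (E : ℂ) (hE : E*E = -1 + j s * E) (a : F) :
    emb j E hE (algebraMap F _ a) = j a := by
  rw [emb_apply]; simp

omit [Fact (∀ r : F, r^2 ≠ -1 + s*r)] in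
lemma emb_omega (j : F →+* ℂ) (E : ℂ) (hE : E*E = -1 + j s * E) :
    emb j E hE ω = E := by
  rw [emb_apply]; simp

lemma IsU.star' {w : QuadraticAlgebra F (-1) s} (hw : IsU w) : IsU (star w) := by
  have := hw.map (starRingEnd (QuadraticAlgebra F (-1) s))
  exact this

lemma IsU.norm' {w : QuadraticAlgebra F (-1) s} (hw : IsU w) : IsU (norm w) := by
  have := hw.mul hw.star'
  rw [← algebraMap_norm_eq_mul_star] at this
  exact this.of_map (algebraMap F (QuadraticAlgebra F (-1) s))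

lemma IsU.trace_int {w : QuadraticAlgebra F (-1) s} (hw : IsU w) : IsIntegral ℤ (trace w) := by
  have := hw.2.1.add hw.star'.2.1
  rw [← algebraMap_trace_eq_add_star] at this
  exact (isIntegral_algHom_iff (algebraMap F (QuadraticAlgebra F (-1) s)).toIntAlgHom
    (algebraMap F (QuadraticAlgebra F (-1) s)).injective).mp this

/-- the hypotheses on `F` -/
structure Good (j : F →+* ℂ) : Prop where
  units : ∀ n : F, IsU n → n = 1 ∨ n = -1
  fin : ∀ B : ℝ, {x : F | IsIntegral ℤ x ∧ ‖j x‖ ≤ B}.Finite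

lemma norm_star_emb {j : F →+* ℂ} (hj : Good j) {E : ℂ} (hE : E*E = -1 + j s * E)
    {w : QuadraticAlgebra F (-1) s} (hw : IsU w) :
    ‖emb j E hE w‖ * ‖emb j E hE (star w)‖ = 1 := by
  rw [← norm_mul, ← map_mul, ← algebraMap_norm_eq_mul_star, emb_C]
  rcases hj.units _ hw.norm' with h | h
  · rw [h, map_one]; simp
  · rw [h, map_neg, map_one]; simp

lemma fin_units {j : F →+* ℂ} (hj : Good j) {E : ℂ} (hE : E*E = -1 + j s * E) (B : ℝ) :
    {w : QuadraticAlgebra F (-1) s | IsU w ∧ 1 < ‖emb j E hE w‖ ∧ ‖emb j E hE w‖ ≤ B}.Finite := by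
  have h1 : (⋃ t ∈ {x : F | IsIntegral ℤ x ∧ ‖j x‖ ≤ B + 1}, ({w : QuadraticAlgebra F (-1) s |
      w*w = algebraMap F _ t*w - 1} ∪ {w : QuadraticAlgebra F (-1) s |
      w*w = algebraMap F _ t*w - (-1)})).Finite := by
    apply (hj.fin (B+1)).biUnion
    intro t _
    exact (quad_fin _ _).union (quad_fin _ _)
  apply h1.subset
  rintro w ⟨hw, hw1, hw2⟩
  rw [Set.mem_iUnion₂]
  refine ⟨trace w, ⟨hw.trace_int, ?_⟩, ?_⟩
  · have e1 : j (trace w) = emb j E hE w + emb j E hE (star w) := by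
      rw [← map_add, ← algebraMap_trace_eq_add_star, emb_C]
    have h2 := norm_star_emb hj hE hw
    have h3 : ‖emb j E hE (star w)‖ ≤ 1 := by
      by_contra hc
      push Not at hc
      nlinarith
    rw [e1]
    exact le_trans (norm_add_le _ _) (by linarith)
  · have h4 := sq_eq_trace_smul_sub_norm w
    rw [Algebra.smul_def, sq] at h4
    rcases hj.units _ hw.norm' with h | h
    · left
      show w*w = _
      rw [h4, h, map_one]
    · right
      show w*w = _
      rw [h4, h, map_neg, map_one]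

/-- all units are `± ωⁿ` -/
theorem all_units {j : F →+* ℂ} (hj : Good j) {E : ℂ} (hE : E*E = -1 + j s * E) (hE1 : 1 < ‖E‖)
    (hω : IsU (ω : QuadraticAlgebra F (-1) s))
    (htor : ∀ w : QuadraticAlgebra F (-1) s, IsU w → ‖emb j E hE w‖ = 1 → w = 1 ∨ w = -1)
    (hpow : ∀ θ : QuadraticAlgebra F (-1) s, IsU θ → ∀ p : ℕ, p.Prime → ω ≠ θ^p ∧ ω ≠ -θ^p)
    (w : QuadraticAlgebra F (-1) s) (hw : IsU w) : ∃ n : ℤ, w = ω^n ∨ w = -ω^n := by
  obtain ⟨v, ⟨hv, hv1, hvB⟩, hmin⟩ := Set.exists_min_image _ (fun w => ‖emb j E hE w‖)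
    (fin_units hj hE ‖E‖) ⟨ω, hω, by rw [emb_omega]; exact hE1, by rw [emb_omega]⟩
  have hmin' : ∀ w : QuadraticAlgebra F (-1) s, IsU w → 1 < ‖emb j E hE w‖ →
      ‖emb j E hE v‖ ≤ ‖emb j E hE w‖ := by
    intro w hw hw1
    by_cases h : ‖emb j E hE w‖ ≤ ‖E‖
    · exact hmin w ⟨hw, hw1, h⟩
    · push Not at h
      linarith
  have hv0 : 0 < ‖emb j E hE v‖ := by linarith
  have key : ∀ w : QuadraticAlgebra F (-1) s, IsU w → ∃ n : ℤ, w = v^n ∨ w = -v^n := by
    intro w hw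
    have hw0 : 0 < ‖emb j E hE w‖ := norm_pos_iff.mpr (fun h => hw.1 ((map_eq_zero _).mp h))
    obtain ⟨n, hn1, hn2⟩ := exists_mem_Ico_zpow hw0 hv1
    refine ⟨n, ?_⟩
    have hz : IsU (w * v^(-n)) := hw.mul (hv.zpow _)
    have hvn : 0 < ‖emb j E hE v‖^n := zpow_pos hv0 n
    have e1 : ‖emb j E hE (w * v^(-n))‖ = ‖emb j E hE w‖ / ‖emb j E hE v‖^n := by
      rw [map_mul, norm_mul, map_zpow₀, norm_zpow, zpow_neg, div_eq_mul_inv]
    have h1 : 1 ≤ ‖emb j E hE (w * v^(-n))‖ := by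
      rw [e1, le_div_iff₀ hvn, one_mul]
      exact hn1
    have h2 : ‖emb j E hE (w * v^(-n))‖ < ‖emb j E hE v‖ := by
      rw [e1, div_lt_iff₀ hvn]
      rw [zpow_add_one₀ hv0.ne'] at hn2
      linarith
    have h3 : ‖emb j E hE (w * v^(-n))‖ = 1 := by
      apply le_antisymm _ h1
      by_contra hc
      push Not at hc
      exact absurd (hmin' _ hz hc) (not_le.mpr h2)
    have hvn0 : v^n ≠ 0 := zpow_ne_zero _ hv.1
    rcases htor _ hz h3 with h4 | h4
    · left
      rw [zpow_neg] at h4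
      field_simp at h4
      exact h4
    · right
      rw [zpow_neg] at h4
      field_simp at h4
      exact h4
  obtain ⟨m, hm⟩ := key ω hω
  have hmn : ‖E‖ = ‖emb j E hE v‖^m := by
    have h1 : ‖emb j E hE ω‖ = ‖emb j E hE v‖^m := by
      rcases hm with h | h
      · rw [h, map_zpow₀, norm_zpow]
      · rw [h, map_neg, _root_.norm_neg, map_zpow₀, norm_zpow]
    rw [← h1, emb_omega]
  have hm0 : 0 < m := by
    by_contra hc
    push Not at hc
    have : ‖emb j E hE v‖^m ≤ 1 := zpow_le_one_of_nonpos₀ hv1.le hc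
    linarith
  obtain ⟨m', rfl⟩ : ∃ m' : ℕ, m = m' := ⟨m.toNat, by omega⟩
  rw [zpow_natCast] at hm
  have hm1 : m' = 1 := by
    by_contra hne
    obtain ⟨p, hp, c, hc⟩ := Nat.exists_prime_and_dvd hne
    have h1 := hpow (v^c) (hv.pow c) p hp
    rw [← pow_mul, mul_comm c p, ← hc] at h1
    rcases hm with h | h
    · exact h1.1 h
    · exact h1.2 h
  rw [hm1, pow_one] at hm
  obtain ⟨n, hn⟩ := key w hw
  refine ⟨n, ?_⟩
  rcases hm with h | h
  · rw [h]; exact hn
  · rw [h]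
    rcases Int.even_or_odd n with he | ho
    · rw [he.neg_zpow]; exact hn
    · rw [ho.neg_zpow, neg_neg]; exact hn.symm

end gu

end Pool.Agent.Q269.UnitSum
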