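import Pool.Agent.Q269.UnitSumC
import Pool.Agent.Q269.UnitSumD

namespace Pool.Agent.Q269.UnitSum

open QuadraticAlgebra NumberField

section transfer
variable {K : Type*} [Field K]

lemma unit_mul_inv (v : (𝓞 K)ˣ) : algebraMap (𝓞 K) K v * algebraMap (𝓞 K) K (v⁻¹ : (𝓞 K)ˣ) = 1 := by
  rw [← map_mul, Units.mul_inv, map_one]

lemma isU_of_unit (v : (𝓞 K)ˣ) : IsU (algebraMap (𝓞 K) K v) := by
  refine ⟨?_, (v : 𝓞 K).isIntegral_coe, ?_⟩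
  · intro h
    have := unit_mul_inv v
    rw [h, zero_mul] at this
    exact zero_ne_one this
  · rw [← eq_inv_of_mul_eq_one_right (unit_mul_inv v)]
    exact ((v⁻¹ : (𝓞 K)ˣ) : 𝓞 K).isIntegral_coe

lemma coe_zpow' (u : (𝓞 K)ˣ) (n : ℤ) :
    algebraMap (𝓞 K) K ((u^n : (𝓞 K)ˣ) : 𝓞 K) = (algebraMap (𝓞 K) K u)^n := by
  have : ∀ m : ℕ, algebraMap (𝓞 K) K ((u^m : (𝓞 K)ˣ) : 𝓞 K) = (algebraMap (𝓞 K) K u)^m := by
    intro m
    rw [Units.val_pow_eq_pow_val, map_pow]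
  obtain ⟨m, rfl | rfl⟩ := n.eq_nat_or_neg
  · rw [zpow_natCast, zpow_natCast, this]
  · rw [zpow_neg, zpow_neg, zpow_natCast, zpow_natCast, ← this]
    exact eq_inv_of_mul_eq_one_right (unit_mul_inv (u^m))

lemma to_units {ε : K} (hε : IsU ε) (hall : ∀ w : K, IsU w → ∃ n : ℤ, w = ε^n ∨ w = -ε^n) :
    ∃ u : (𝓞 K)ˣ, algebraMap (𝓞 K) K u = ε ∧ ∀ v : (𝓞 K)ˣ, ∃ n : ℤ, v = u^n ∨ v = -u^n := by
  obtain ⟨a, ha⟩ : ∃ a : 𝓞 K, algebraMap (𝓞 K) K a = ε := ⟨⟨ε, hε.2.1⟩, rfl⟩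
  obtain ⟨b, hb⟩ : ∃ b : 𝓞 K, algebraMap (𝓞 K) K b = ε⁻¹ := ⟨⟨ε⁻¹, hε.2.2⟩, rfl⟩
  have hab : a * b = 1 := by
    apply RingOfIntegers.coe_injective
    rw [map_mul, ha, hb, map_one]
    exact mul_inv_cancel₀ hε.1
  obtain ⟨u, hu⟩ : ∃ u : (𝓞 K)ˣ, (u : 𝓞 K) = a := ⟨⟨a, b, hab, by rw [mul_comm]; exact hab⟩, rfl⟩
  rw [← hu] at ha
  refine ⟨u, ha, ?_⟩
  intro v
  obtain ⟨n, hn⟩ := hall _ (isU_of_unit v)
  refine ⟨n, ?_⟩
  rcases hn with h | h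
  · left
    apply Units.ext
    apply RingOfIntegers.coe_injective
    rw [coe_zpow', ha]
    exact h
  · right
    apply Units.ext
    apply RingOfIntegers.coe_injective
    rw [Units.val_neg, map_neg, coe_zpow', ha]
    exact h

lemma aeval_iff (u : 𝓞 K) (P : Polynomial ℤ) :
    Polynomial.aeval u P = 0 ↔ Polynomial.aeval (algebraMap (𝓞 K) K u) P = 0 := by
  rw [Polynomial.aeval_algebraMap_apply]
  exact (map_eq_zero_iff _ RingOfIntegers.coe_injective).symm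

/-- the length, from data in the field -/
theorem ell_of_field {ε : K} (hε : IsU ε)
    (hall : ∀ w : K, IsU w → ∃ n : ℤ, w = ε^n ∨ w = -ε^n) {f : Polynomial ℤ}
    (hf : ∀ P : Polynomial ℤ, Polynomial.aeval ε P = 0 ↔ f ∣ P) {j : ℕ}
    (hj : l1 f ≤ 2*(2*|f.coeff j| - l1 f)) {k : ℕ} (hk : l1 f = k) (hev : Even k) (h4 : 4 ≤ k) :
    ell K = k := by
  obtain ⟨u, hu, hU⟩ := to_units hε hall
  refine ell_eq (u := u) hU (fun P => ?_) hj hk hev h4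
  rw [aeval_iff, hu]
  exact hf P

end transfer
end Pool.Agent.Q269.UnitSum
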