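import Pool.Agent.Q269.UnitSumD

/-!
The imaginary quadratic field `ℚ(√-D)` with `D ≡ 2 mod 4` squarefree: integers and units.
-/

namespace Pool.Agent.Q269.UnitSum

open QuadraticAlgebra

/-- a rational number whose square is an integer is an integer -/
lemma int_of_sq {x : ℚ} {n : ℤ} (h : x*x = n) : ∃ m : ℤ, x = m := by
  have h1 : IsIntegral ℤ x := by
    apply IsIntegral.of_pow (n := 2) (by norm_num)
    rw [sq, h]
    exact isIntegral_algebraMap (x := n)
  obtain ⟨m, hm⟩ := IsIntegrallyClosed.isIntegral_iff.mp h1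
  exact ⟨m, hm.symm⟩

lemma int_of_integral {x : ℚ} (h : IsIntegral ℤ x) : ∃ m : ℤ, x = m := by
  obtain ⟨m, hm⟩ := IsIntegrallyClosed.isIntegral_iff.mp h
  exact ⟨m, hm.symm⟩

/-- the field `ℚ(√-D)` -/
abbrev Fq (D : ℤ) : Type := QuadraticAlgebra ℚ (-(D:ℚ)) 0

instance factD (D : ℤ) [hD : Fact (0 < D)] : Fact (∀ r : ℚ, r^2 ≠ -(D:ℚ) + 0*r) := by
  constructor
  intro r hr
  have h1 : (0:ℚ) < D := by exact_mod_cast hD.out
  nlinarith [sq_nonneg r]

/-- the embedding in `ℂ` -/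
noncomputable def jD (D : ℤ) [hD : Fact (0 < D)] : Fq D →+* ℂ where
  toFun z := (z.re : ℂ) + z.im * ((Real.sqrt D : ℝ) * Complex.I)
  map_one' := by simp
  map_zero' := by simp
  map_mul' z w := by
    have h1 : ((Real.sqrt D : ℝ) : ℂ) * (Real.sqrt D : ℝ) = (D : ℂ) := by
      rw [← Complex.ofReal_mul, Real.mul_self_sqrt (by exact_mod_cast hD.out.le)]
      simp
    have h2 := Complex.I_mul_I
    simp only [re_mul, im_mul]
    push_cast
    linear_combination (-(z.im : ℂ) * w.im * (Complex.I * Complex.I)) * h1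
      - ((z.im : ℂ) * w.im * D) * h2
  map_add' z w := by
    simp only [re_add, im_add]
    push_cast
    ring

variable {D : ℤ} [hD : Fact (0 < D)]

lemma jD_re (z : Fq D) : (jD D z).re = z.re := by
  show ((z.re : ℂ) + z.im * ((Real.sqrt D : ℝ) * Complex.I)).re = _
  simp

lemma jD_im (z : Fq D) : (jD D z).im = z.im * Real.sqrt D := by
  show ((z.re : ℂ) + z.im * ((Real.sqrt D : ℝ) * Complex.I)).im = _
  simp

lemma jD_norm (z : Fq D) : ‖jD D z‖^2 = (z.re:ℝ)^2 + D * (z.im:ℝ)^2 := by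
  rw [Complex.sq_norm, Complex.normSq_apply, jD_re, jD_im]
  have h1 : Real.sqrt D * Real.sqrt D = (D : ℝ) :=
    Real.mul_self_sqrt (by exact_mod_cast hD.out.le)
  linear_combination ((z.im : ℝ)^2) * h1

lemma int_pair (h4 : D % 4 = 2) (hsq : Squarefree D) {x : Fq D} (hx : IsIntegral ℤ x) :
    ∃ a b : ℤ, x = ⟨a, b⟩ := by
  have hst : IsIntegral ℤ (star x) := hx.map (starRingEnd (Fq D)).toIntAlgHom
  have h1 : IsIntegral ℤ (trace x) := by
    have := hx.add hst
    rw [← algebraMap_trace_eq_add_star] at this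
    exact (isIntegral_algHom_iff (algebraMap ℚ (Fq D)).toIntAlgHom
      (algebraMap ℚ (Fq D)).injective).mp this
  have h2 : IsIntegral ℤ (norm x) := by
    have := hx.mul hst
    rw [← algebraMap_norm_eq_mul_star] at this
    exact (isIntegral_algHom_iff (algebraMap ℚ (Fq D)).toIntAlgHom
      (algebraMap ℚ (Fq D)).injective).mp this
  obtain ⟨A, hA⟩ := int_of_integral h1
  obtain ⟨N, hN⟩ := int_of_integral h2
  rw [trace_def] at hA
  rw [norm_def] at hN
  have hD0 : (D:ℚ) ≠ 0 := by exact_mod_cast hD.out.ne'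
  obtain ⟨c, hc⟩ := int_of_sq (x := D * (2 * x.im)) (n := D * (4*N - A^2)) (by
    push_cast
    linear_combination (4 * (D:ℚ)) * hN - (D:ℚ) * (2*x.re + A) * hA)
  have hc2 : c^2 = D * (4*N - A^2) := by
    have : (c:ℚ)^2 = D * (4*N - A^2) := by
      rw [← hc]
      linear_combination (4 * (D:ℚ)) * hN - (D:ℚ) * (2*x.re + A) * hA
    exact_mod_cast this
  obtain ⟨B, rfl⟩ : D ∣ c := by
    have : D ∣ c^2 := ⟨_, hc2⟩
    exact (hsq.dvd_pow_iff_dvd two_ne_zero).mp this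
  have hB : 2 * x.im = B := by
    have : (D:ℚ) * (2*x.im) = D * B := by rw [hc]; push_cast; ring
    exact mul_left_cancel₀ hD0 this
  have hBA : D * B^2 = 4*N - A^2 := by
    have h0 : D ≠ 0 := hD.out.ne'
    have : D * (D * B^2) = D * (4*N - A^2) := by rw [← hc2]; ring
    exact mul_left_cancel₀ h0 this
  obtain ⟨e, he⟩ : ∃ e, D = 4*e + 2 := ⟨D/4, by omega⟩
  have hAe : Even A := by
    have : Even (A^2) := ⟨2*N - (2*e+1)*B^2, by rw [he] at hBA; linarith⟩
    exact (Int.even_pow.mp this).1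
  obtain ⟨a, rfl⟩ := hAe
  have hBe : Even B := by
    have : Even (B^2) := ⟨N - a^2 - e*B^2, by rw [he] at hBA; linarith⟩
    exact (Int.even_pow.mp this).1
  obtain ⟨b, rfl⟩ := hBe
  refine ⟨a, b, QuadraticAlgebra.ext ?_ ?_⟩
  · show x.re = a
    push_cast at hA
    linarith
  · show x.im = b
    push_cast at hB
    linarith

lemma unit_pm (h4 : D % 4 = 2) (hsq : Squarefree D) {x : Fq D} (hx : IsU x) : x = 1 ∨ x = -1 := by
  obtain ⟨a, b, hab⟩ := int_pair h4 hsq hx.2.1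
  obtain ⟨c, d, hcd⟩ := int_pair h4 hsq hx.2.2
  have h1 : norm x * norm x⁻¹ = 1 := by
    rw [← map_mul, mul_inv_cancel₀ hx.1, map_one]
  rw [hcd, hab, norm_def, norm_def] at h1
  simp only at h1
  have hD2 : 2 ≤ D := by
    have := hD.out
    omega
  have h2 : (a^2 + D*b^2) * (c^2 + D*d^2) = 1 := by
    have : ((a:ℚ)^2 + D*b^2) * (c^2 + D*d^2) = 1 := by
      rw [← h1]; ring
    exact_mod_cast this
  have h3 : a^2 + D*b^2 = 1 := by
    have h5 : 0 ≤ a^2 + D*b^2 := by positivity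
    exact Int.eq_one_of_mul_eq_one_right h5 h2
  have hb : b = 0 := by
    by_contra hb
    have : 1 ≤ b^2 := by
      have := Int.one_le_abs hb
      nlinarith [sq_abs b, abs_nonneg b]
    nlinarith [sq_nonneg a]
  rw [hb] at h3 hab
  have ha : a^2 = 1 := by linarith
  have ha2 : (a - 1) * (a + 1) = 0 := by linarith
  rcases mul_eq_zero.mp ha2 with h | h
  · left
    have : a = 1 := by omega
    rw [hab, this]
    refine QuadraticAlgebra.ext ?_ ?_ <;> simp
  · right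
    have : a = -1 := by omega
    rw [hab, this]
    refine QuadraticAlgebra.ext ?_ ?_ <;> simp

lemma good_fin (h4 : D % 4 = 2) (hsq : Squarefree D) (B : ℝ) :
    {x : Fq D | IsIntegral ℤ x ∧ ‖jD D x‖ ≤ B}.Finite := by
  obtain ⟨M, hM⟩ := exists_nat_ge (B^2)
  have hfin : ((fun p : ℤ × ℤ => (⟨p.1, p.2⟩ : Fq D)) ''
      (Set.Icc (-(M:ℤ)) M ×ˢ Set.Icc (-(M:ℤ)) M)).Finite :=
    ((Set.finite_Icc _ _).prod (Set.finite_Icc _ _)).image _
  apply hfin.subset
  rintro x ⟨hx, hxB⟩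
  obtain ⟨a, b, hab⟩ := int_pair h4 hsq hx
  have h1 := jD_norm x
  have h2 : ‖jD D x‖^2 ≤ M := le_trans (pow_le_pow_left₀ (_root_.norm_nonneg _) hxB 2) hM
  rw [h1, hab] at h2
  have h3 : a^2 + D*b^2 ≤ M := by
    simp only at h2
    exact_mod_cast h2
  have hD1 : 1 ≤ D := hD.out
  have ha : |a| ≤ a^2 := by
    rw [← sq_abs a]
    nlinarith [abs_nonneg a, sq_nonneg (|a| - 1), Int.le_self_sq |a|]
  have hb : |b| ≤ b^2 := by
    rw [← sq_abs b]
    nlinarith [abs_nonneg b, Int.le_self_sq |b|]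
  have h4 : |a| ≤ M := by nlinarith [sq_nonneg b]
  have h5 : |b| ≤ M := by nlinarith [sq_nonneg a, sq_nonneg b]
  exact ⟨(a, b), ⟨⟨(abs_le.mp h4).1, (abs_le.mp h4).2⟩, ⟨(abs_le.mp h5).1, (abs_le.mp h5).2⟩⟩, hab.symm⟩

lemma good (h4 : D % 4 = 2) (hsq : Squarefree D) : Good (jD D) :=
  ⟨fun _ hn => unit_pm h4 hsq hn, good_fin h4 hsq⟩

end Pool.Agent.Q269.UnitSum
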