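import Pool.Agent.Q269.UnitSumB
import Pool.Agent.Q269.UnitSumE
import Pool.Agent.Q269.UnitSumF

/-!
The quartic field `K = ℚ(√-D)(ω)`, `ω² = -1 + (2 + f√-D) ω`: its units are `± ωⁿ`.
-/

namespace Pool.Agent.Q269.UnitSum

open QuadraticAlgebra Polynomial

/-- the element `2 + f √-D` -/
def sF (D f : ℤ) : Fq D := ⟨2, f⟩

lemma norm_disc (D f : ℤ) : QuadraticAlgebra.norm (sF D f * sF D f - 4 : Fq D)
    = ((f:ℚ)^2*D)^2 + 16 * ((f:ℚ)^2*D) := by
  rw [norm_def]
  have h4r : (4 : Fq D).re = 4 := rfl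
  have h4i : (4 : Fq D).im = 0 := rfl
  simp only [re_sub, im_sub, re_mul, im_mul, sF, h4r, h4i]
  ring

lemma not_square {n : ℤ} (hn : 25 ≤ n) (q : ℚ) (h : q*q = (n:ℚ)^2+16*n) : False := by
  obtain ⟨m, hm⟩ := int_of_sq (x := q) (n := n^2+16*n) (by rw [h]; push_cast; ring)
  rw [hm] at h
  have h1 : m*m = n^2+16*n := by exact_mod_cast h
  have h2 : |m| * |m| = n^2 + 16*n := by rw [abs_mul_abs_self]; exact h1
  have h3 := abs_nonneg m
  have h4 : n + 7 < |m| := by
    by_contra hc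
    push Not at hc
    nlinarith
  have h5 : |m| < n + 8 := by
    by_contra hc
    push Not at hc
    nlinarith
  omega

lemma exists_E {F : Type*} [Field F] (j : F →+* ℂ) (s : F) (hs : (j s).im ≠ 0) :
    ∃ E : ℂ, E*E = -1 + j s * E ∧ 1 < ‖E‖ := by
  obtain ⟨z, hz⟩ := IsAlgClosed.exists_pow_nat_eq ((j s)^2 - 4) (n := 2) (by norm_num)
  obtain ⟨E, hE⟩ : ∃ E : ℂ, E = (j s + z)/2 := ⟨_, rfl⟩
  have h1 : E*E = -1 + j s * E := by
    rw [hE]
    linear_combination (1/4 : ℂ) * hz
  have hE0 : E ≠ 0 := by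
    rintro rfl
    simp at h1
  have h2 : E⁻¹*E⁻¹ = -1 + j s * E⁻¹ := by
    have e : E * E⁻¹ = 1 := mul_inv_cancel₀ hE0
    linear_combination (E⁻¹*E⁻¹) * h1 + (j s * E⁻¹ - (E * E⁻¹ + 1)) * e
  have h3 : ‖E‖ ≠ 1 := by
    intro hn
    apply hs
    have e : E * E⁻¹ = 1 := mul_inv_cancel₀ hE0
    have h4 : E⁻¹ = (starRingEnd ℂ) E := by
      have h5 : E * (starRingEnd ℂ) E = 1 := by
        rw [Complex.mul_conj, Complex.normSq_eq_norm_sq, hn]
        norm_num
      exact inv_eq_of_mul_eq_one_right h5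
    have h6 : j s = E + E⁻¹ := by
      linear_combination (-E⁻¹) * h1 + (E - j s) * e
    rw [h6, h4, Complex.add_im, Complex.conj_im]
    ring
  rcases lt_or_gt_of_ne h3 with h | h
  · refine ⟨E⁻¹, h2, ?_⟩
    rw [norm_inv]
    exact (one_lt_inv₀ (norm_pos_iff.mpr hE0)).mpr h
  · exact ⟨E, h1, h⟩

section field
variable {D f : ℤ}

instance factK [hD : Fact (0 < D)] [hbig : Fact (25 ≤ f^2*D)] :
    Fact (∀ r : Fq D, r^2 ≠ -1 + sF D f * r) := by
  constructor
  intro r hr
  have h1 : (2*r - sF D f)*(2*r - sF D f) = sF D f * sF D f - 4 := by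
    linear_combination 4 * hr
  have h2 := congrArg QuadraticAlgebra.norm h1
  rw [norm_disc, map_mul] at h2
  apply not_square hbig.out (QuadraticAlgebra.norm (2*r - sF D f))
  rw [h2]
  push_cast
  ring

/-- the quartic field -/
abbrev Kq (D f : ℤ) : Type := QuadraticAlgebra (Fq D) (-1) (sF D f)

variable [hD : Fact (0 < D)] [hbig : Fact (25 ≤ f^2*D)]

omit hbig in
lemma key_id (w : Kq D f) : w.im * w.im * (sF D f * sF D f - 4)
    = trace w * trace w - 4 * QuadraticAlgebra.norm w := by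
  rw [trace_def, norm_def]
  ring

lemma im_four_norm {n : Fq D} (h : n = 1 ∨ n = -1) : (4*n).im = 0 := by
  rcases h with rfl | rfl
  · simp
  · simp

lemma torsion (h4 : D % 4 = 2) (hsq : Squarefree D) {E : ℂ}
    (hE : E*E = -1 + jD D (sF D f) * E) {w : Kq D f} (hw : IsU w)
    (hw1 : ‖emb (jD D) E hE w‖ = 1) : w = 1 ∨ w = -1 := by
  have hN := unit_pm h4 hsq hw.norm'
  obtain ⟨ρ, hρ⟩ : ∃ ρ : ℂ, ρ = emb (jD D) E hE w := ⟨_, rfl⟩
  obtain ⟨ρ', hρ'⟩ : ∃ ρ' : ℂ, ρ' = emb (jD D) E hE (star w) := ⟨_, rfl⟩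
  rw [← hρ] at hw1
  have hρ0 : ρ ≠ 0 := by
    intro h0
    rw [h0, _root_.norm_zero] at hw1
    norm_num at hw1
  have hcon : ρ * (starRingEnd ℂ) ρ = 1 := by
    rw [Complex.mul_conj, Complex.normSq_eq_norm_sq, hw1]
    norm_num
  have hprod : ρ * ρ' = jD D (QuadraticAlgebra.norm w) := by
    rw [hρ, hρ', ← map_mul, ← algebraMap_norm_eq_mul_star, emb_C]
  have hsum : jD D (trace w) = ρ + ρ' := by
    rw [hρ, hρ', ← map_add, ← algebraMap_trace_eq_add_star, emb_C]
  have hsqrt : Real.sqrt D ≠ 0 := by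
    have : (0:ℝ) < D := by exact_mod_cast hD.out
    exact (Real.sqrt_pos.mpr this).ne'
  have hT : (trace w * trace w : Fq D).im = 0 := by
    rw [im_mul]
    rcases hN with hN | hN
    · have h1 : ρ' = (starRingEnd ℂ) ρ := by
        rw [hN, map_one] at hprod
        exact mul_left_cancel₀ hρ0 (by rw [hprod, hcon])
      have h2 := congrArg Complex.im hsum
      rw [jD_im, h1, Complex.add_im, Complex.conj_im] at h2
      have h3 : ((trace w).im : ℝ) = 0 := by
        have : ((trace w).im : ℝ) * Real.sqrt D = 0 := by rw [h2]; ring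
        exact (mul_eq_zero.mp this).resolve_right hsqrt
      have h4 : (trace w).im = 0 := by exact_mod_cast h3
      rw [h4]; ring
    · have h1 : ρ' = -(starRingEnd ℂ) ρ := by
        rw [hN, map_neg, map_one] at hprod
        exact mul_left_cancel₀ hρ0 (by rw [hprod, mul_neg, hcon])
      have h2 := congrArg Complex.re hsum
      rw [jD_re, h1, Complex.add_re, Complex.neg_re, Complex.conj_re] at h2
      have h3 : ((trace w).re : ℝ) = 0 := by rw [h2]; ring
      have h4 : (trace w).re = 0 := by exact_mod_cast h3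
      rw [h4]; ring
  have hid := key_id w
  have hb : w.im = 0 := by
    by_contra hb
    obtain ⟨κ, hκ⟩ : ∃ κ : Fq D, κ = trace w * trace w - 4 * QuadraticAlgebra.norm w := ⟨_, rfl⟩
    rw [← hκ] at hid
    have h1 : κ.im = 0 := by
      rw [hκ, im_sub, hT, im_four_norm hN, sub_zero]
    have h2 := congrArg QuadraticAlgebra.norm hid
    rw [map_mul, norm_disc, map_mul, norm_def κ, h1] at h2
    have h3 : QuadraticAlgebra.norm (w.im) ≠ 0 := fun h => hb (norm_eq_zero_iff_eq_zero.mp h)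
    apply not_square hbig.out (κ.re / QuadraticAlgebra.norm (w.im))
    field_simp
    push_cast
    linear_combination -h2
  have hw' : w = algebraMap (Fq D) (Kq D f) w.re := by
    refine QuadraticAlgebra.ext ?_ ?_
    · simp
    · rw [hb]; simp
  have hre : IsU w.re := by
    rw [hw'] at hw
    exact hw.of_map (algebraMap (Fq D) (Kq D f))
  rcases unit_pm h4 hsq hre with h | h
  · left
    rw [hw', h, map_one]
  · right
    rw [hw', h, map_neg, map_one]

omit hbig in
lemma norm_omega' : QuadraticAlgebra.norm (ω : Kq D f) = 1 := by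
  rw [norm_def]; simp

/-- the ring homomorphism `ℤ[√-D] → ℚ(√-D)` -/
def zs (D : ℤ) : ℤ√(-D) →+* Fq D :=
  Zsqrtd.lift ⟨⟨0, 1⟩, by
    refine QuadraticAlgebra.ext ?_ ?_ <;> simp⟩

omit hD hbig in
lemma zs_apply (x y : ℤ) : zs D ⟨x, y⟩ = ⟨x, y⟩ := by
  unfold zs
  rw [Zsqrtd.lift_apply_apply]
  refine QuadraticAlgebra.ext ?_ ?_ <;> simp

omit hD hbig in
lemma zs_inj : Function.Injective (zs D) := by
  rintro ⟨a, b⟩ ⟨c, d⟩ h
  rw [zs_apply, zs_apply, QuadraticAlgebra.mk.injEq] at h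
  have h1 : a = c := by exact_mod_cast h.1
  have h2 : b = d := by exact_mod_cast h.2
  rw [h1, h2]

lemma trace_pow {θ : Kq D f} (hN : QuadraticAlgebra.norm θ = 1) : ∀ n : ℕ,
    trace (θ^n) = Dk (trace θ) n ∧ trace (θ^(n+1)) = Dk (trace θ) (n+1) := by
  intro n
  induction n with
  | zero => refine ⟨by rw [pow_zero, trace_one]; rfl, by rw [zero_add, pow_one]; rfl⟩
  | succ n ih =>
    refine ⟨ih.2, ?_⟩
    have h1 : θ^(n+2) = trace θ • θ^(n+1) - θ^n := by
      have h2 := sq_eq_trace_smul_sub_norm θ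
      rw [hN, map_one] at h2
      rw [pow_add, h2, mul_sub, mul_one, pow_succ, mul_smul_comm]
    rw [show n+1+1 = n+2 from rfl, h1, map_sub, map_smul, Dk_succ, ih.1, ih.2, smul_eq_mul]

lemma no_power (h8 : D % 8 = 2) (hsq : Squarefree D) (hf : Odd f) {θ : Kq D f} (hθ : IsU θ)
    {p : ℕ} (hp : p.Prime) : (ω : Kq D f) ≠ θ^p ∧ (ω : Kq D f) ≠ -θ^p := by
  have h4 : D % 4 = 2 := by omega
  rcases hp.eq_two_or_odd with rfl | hodd
  · -- p = 2
    obtain ⟨x, y, hxy⟩ := int_pair h4 hsq hθ.trace_int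
    have h1 : (trace (θ^2) : Fq D).im = 2*x*y := by
      have h2 := sq_eq_trace_smul_sub_norm θ
      rw [h2, map_sub, map_smul, trace_algebraMap, smul_eq_mul, im_sub, im_mul, hxy]
      have h3 : (2 * QuadraticAlgebra.norm θ).im = 0 := by
        rcases unit_pm h4 hsq hθ.norm' with h | h <;> rw [h] <;> simp
      rw [h3]
      simp only
      ring
    have h5 : (trace (ω : Kq D f)).im = f := by rw [trace_omega]; rfl
    obtain ⟨c, hc⟩ := hf
    constructor
    · intro h
      rw [← h, h5] at h1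
      have : f = 2*x*y := by exact_mod_cast h1
      have : f = 2*(x*y) := by rw [this]; ring
      omega
    · intro h
      have h6 : (trace (ω : Kq D f)).im = -(trace (θ^2) : Fq D).im := by
        rw [h, map_neg]; rfl
      rw [h5, h1] at h6
      have : f = -(2*x*y) := by exact_mod_cast h6
      have : f = -(2*(x*y)) := by rw [this]; ring
      omega
  · -- p odd
    have hopp : Odd p := Nat.odd_iff.mpr hodd
    have main : ∀ θ : Kq D f, IsU θ → (ω : Kq D f) ≠ θ^p := by
      intro θ hθ h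
      have hN : QuadraticAlgebra.norm θ = 1 := by
        rcases unit_pm h4 hsq hθ.norm' with h1 | h1
        · exact h1
        · exfalso
          have h2 := congrArg QuadraticAlgebra.norm h
          rw [norm_omega', map_pow, h1, hopp.neg_one_pow] at h2
          have h3 := congrArg QuadraticAlgebra.re h2
          simp at h3
          norm_num at h3
      obtain ⟨x, y, hxy⟩ := int_pair h4 hsq hθ.trace_int
      have h1 := (trace_pow hN p).1
      rw [← h, trace_omega, hxy, ← zs_apply, ← (Dk_map (zs D) _ p).1] at h1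
      have h2 : sF D f = zs D ⟨2, f⟩ := by rw [zs_apply]; rfl
      rw [h2] at h1
      exact arith h8 hD.out hp hodd hf (zs_inj h1).symm
    refine ⟨main θ hθ, fun h => main (-θ) hθ.neg ?_⟩
    rw [hopp.neg_pow]
    exact h

end field

end Pool.Agent.Q269.UnitSum
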