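import Pool.Agent.Q269.UnitSumG

/-!
The quartic field `K = ℚ(√-D)(ω)`, `ω² = -1 + (2 + f√-D) ω`: its length is `f²D + 16`.
-/

namespace Pool.Agent.Q269.UnitSum

open QuadraticAlgebra Polynomial

/-- the polynomial `X⁴ - 4X³ + cX² - 4X + 1` -/
noncomputable def pol (c : ℤ) : ℤ[X] := X^4 - C 4 * X^3 + C c * X^2 - C 4 * X + 1

lemma pol_natDegree (c : ℤ) : (pol c).natDegree = 4 := by
  unfold pol
  compute_degree!

lemma pol_monic (c : ℤ) : (pol c).Monic := by
  unfold pol
  monicity!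

lemma pol_coeff (c : ℤ) : (pol c).coeff 0 = 1 ∧ (pol c).coeff 1 = -4 ∧ (pol c).coeff 2 = c ∧
    (pol c).coeff 3 = -4 ∧ (pol c).coeff 4 = 1 := by
  unfold pol
  refine ⟨?_, ?_, ?_, ?_, ?_⟩ <;>
    simp [coeff_X, coeff_one]

lemma l1_pol {c : ℤ} (hc : 0 ≤ c) : l1 (pol c) = c + 10 := by
  have h : (pol c).support ⊆ Finset.range 5 := by
    have := supp_sub (f := pol c)
    rwa [pol_natDegree] at this
  rw [l1_eq _ _ h]
  obtain ⟨h0, h1, h2, h3, h4⟩ := pol_coeff c
  simp only [Finset.sum_range_succ, Finset.sum_range_zero, h0, h1, h2, h3, h4]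
  rw [abs_of_nonneg hc]
  norm_num
  ring

section field
variable {D f : ℤ} [hD : Fact (0 < D)] [hbig : Fact (25 ≤ f^2*D)]

omit hbig hD in
lemma om_sq : (ω : Kq D f) * ω = ⟨-1, sF D f⟩ := omega_mul_omega_eq_mk

lemma aeval_pol : aeval (ω : Kq D f) (pol (6 + f^2*D)) = 0 := by
  have h1 : (ω : Kq D f) * ω = -1 + algebraMap (Fq D) _ (sF D f) * ω := by
    refine QuadraticAlgebra.ext ?_ ?_ <;> simp
  have h2 : (algebraMap (Fq D) (Kq D f)) (sF D f) + (algebraMap (Fq D) (Kq D f)) (star (sF D f))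
      = 4 := by
    rw [← map_add]
    have : sF D f + star (sF D f) = 4 := by
      refine QuadraticAlgebra.ext ?_ ?_
      · show (2:ℚ) + (2 + 0 * (f:ℚ)) = 4
        norm_num
      · show (f:ℚ) + -f = 0
        ring
    rw [this, map_ofNat]
  have h3 : (algebraMap (Fq D) (Kq D f)) (sF D f) * (algebraMap (Fq D) (Kq D f)) (star (sF D f))
      = 4 + (f:Kq D f)^2 * D := by
    rw [← map_mul]
    have : sF D f * star (sF D f) = 4 + (f:Fq D)^2 * D := by
      have e : (4 + (f:Fq D)^2 * D) = ((4 + f^2*D : ℤ) : Fq D) := by push_cast; ring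
      rw [e]
      refine QuadraticAlgebra.ext ?_ ?_
      · rw [re_mul, re_star, im_star, re_intCast]
        show (2:ℚ) * (2 + 0 * (f:ℚ)) + -(D:ℚ) * f * (-f) = _
        push_cast; ring
      · rw [im_mul, re_star, im_star, im_intCast]
        show (2:ℚ) * (-f) + f * (2 + 0 * (f:ℚ)) + 0 * f * (-f) = _
        ring
    rw [this, map_add, map_mul, map_pow, map_ofNat, map_intCast, map_intCast]
  obtain ⟨S, hS⟩ : ∃ S : Kq D f, S = (algebraMap (Fq D) (Kq D f)) (sF D f) := ⟨_, rfl⟩
  obtain ⟨S', hS'⟩ : ∃ S' : Kq D f, S' = (algebraMap (Fq D) (Kq D f)) (star (sF D f)) := ⟨_, rfl⟩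
  obtain ⟨w, hw⟩ : ∃ w : Kq D f, w = ω := ⟨_, rfl⟩
  rw [← hS, ← hS'] at h2 h3
  rw [← hS, ← hw] at h1
  rw [← hw]
  unfold pol
  have hC : ∀ n : ℤ, aeval w (C n) = (n : Kq D f) := fun n => by rw [aeval_C]; rfl
  simp only [map_add, map_sub, map_mul, map_pow, aeval_X, hC, map_one]
  push_cast
  linear_combination (w^2 - S'*w + 1) * h1 + (w^3 + w) * h2 - w^2 * h3

lemma pol_dvd (hf : f ≠ 0) (P : ℤ[X]) : aeval (ω : Kq D f) P = 0 ↔ pol (6 + f^2*D) ∣ P := by
  constructor
  · intro h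
    have hm := pol_monic (6 + f^2*D)
    obtain ⟨r, hr⟩ : ∃ r : ℤ[X], r = P %ₘ pol (6 + f^2*D) := ⟨_, rfl⟩
    have h1 : aeval (ω : Kq D f) r = 0 := by
      have h2 := modByMonic_add_div P (pol (6 + f^2*D))
      rw [← hr] at h2
      rw [← h2, map_add, map_mul, aeval_pol, zero_mul, add_zero] at h
      exact h
    have hdeg : r.natDegree < 4 := by
      rw [hr]
      have := natDegree_modByMonic_lt P hm (fun h => by
        have := pol_natDegree (6 + f^2*D)
        rw [h] at this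
        simp at this)
      rwa [pol_natDegree] at this
    have hr4 := r.as_sum_range' 4 hdeg
    obtain ⟨a, ha⟩ : ∃ a : ℕ → ℤ, a = r.coeff := ⟨_, rfl⟩
    rw [← ha] at hr4
    have hw3 : (ω : Kq D f)^3 = ⟨-sF D f, -1 + sF D f * sF D f⟩ := by
      rw [pow_succ, sq, om_sq, mul_comm, omega_mul_mk]
      refine QuadraticAlgebra.ext ?_ ?_ <;> simp
    have hw2 : (ω : Kq D f)^2 = ⟨-1, sF D f⟩ := by rw [sq, om_sq]
    rw [hr4] at h1
    simp only [Finset.sum_range_succ, Finset.sum_range_zero, map_add, aeval_monomial, zero_add,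
      pow_zero, pow_one, mul_one, hw2, hw3, algebraMap_int_eq, eq_intCast] at h1
    have e1 := congrArg QuadraticAlgebra.re h1
    have e2 := congrArg QuadraticAlgebra.im h1
    simp only [re_add, im_add, re_mul, im_mul, re_intCast, im_intCast, omega_re, omega_im,
      re_zero, im_zero] at e1 e2
    have e11 := congrArg QuadraticAlgebra.re e1
    have e12 := congrArg QuadraticAlgebra.im e1
    have e21 := congrArg QuadraticAlgebra.re e2
    have e22 := congrArg QuadraticAlgebra.im e2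
    simp [sF] at e11 e12 e21 e22
    have hfq : (f:ℚ) ≠ 0 := by exact_mod_cast hf
    have a3 : a 3 = 0 := e12.resolve_right hf
    rw [a3] at e11 e21 e22
    have a2 : a 2 = 0 := by
      have h5 : ((a 2 : ℤ) : ℚ) * f = 0 := by
        push_cast at e22
        linarith
      have h6 := (mul_eq_zero.mp h5).resolve_right hfq
      exact_mod_cast h6
    rw [a2] at e11 e21
    have a1 : a 1 = 0 := by
      have h5 : ((a 1 : ℤ) : ℚ) = 0 := by
        push_cast at e21
        linarith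
      exact_mod_cast h5
    have a0 : a 0 = 0 := by
      have h5 : ((a 0 : ℤ) : ℚ) = 0 := by
        push_cast at e11
        linarith
      exact_mod_cast h5
    have hr0 : r = 0 := by
      rw [hr4]
      simp [Finset.sum_range_succ, a0, a1, a2, a3]
    have h2 := modByMonic_add_div P (pol (6 + f^2*D))
    rw [← hr, hr0, zero_add] at h2
    exact ⟨_, h2.symm⟩
  · rintro ⟨g, rfl⟩
    rw [map_mul, aeval_pol, zero_mul]

omit hbig in
lemma omega_ne : (ω : Kq D f) ≠ 0 := by
  intro h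
  have := norm_omega' (D := D) (f := f)
  rw [h, QuadraticAlgebra.norm_zero] at this
  exact zero_ne_one this

lemma isU_omega : IsU (ω : Kq D f) := by
  have h1 : IsIntegral ℤ (ω : Kq D f) :=
    ⟨pol (6 + f^2*D), pol_monic _, by
      have := aeval_pol (D := D) (f := f)
      rwa [aeval_def] at this⟩
  refine ⟨omega_ne, h1, ?_⟩
  have h2 : (ω : Kq D f)⁻¹ = star ω := by
    apply inv_eq_of_mul_eq_one_right
    rw [← algebraMap_norm_eq_mul_star, norm_omega', map_one]
  rw [h2]
  exact h1.map (starRingEnd (Kq D f)).toIntAlgHom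

lemma numberField_Kq : NumberField (Kq D f) := by
  have h1 : FiniteDimensional ℚ (Fq D) := by
    convert! (inferInstance : Module.Finite ℚ (Fq D))
  have h2 : FiniteDimensional (Fq D) (Kq D f) := inferInstance
  have h3 : IsScalarTower ℚ (Fq D) (Kq D f) := by
    apply IsScalarTower.of_algebraMap_eq'
    apply RingHom.ext_rat
  exact { to_charZero := inferInstance
          to_finiteDimensional := Module.Finite.trans (R := ℚ) (Fq D) (Kq D f) }

/-- the length of the quartic field -/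
theorem ell_Kq (h8 : D % 8 = 2) (hsq : Squarefree D) (hf : Odd f) (h30 : 24 ≤ f^2*D) {k : ℕ}
    (hk : (k:ℤ) = f^2*D + 16) : ell (Kq D f) = k := by
  have h4 : D % 4 = 2 := by omega
  have hf0 : f ≠ 0 := by rintro rfl; simp at hf
  have him : (jD D (sF D f)).im ≠ 0 := by
    rw [jD_im]
    have h1 : (0:ℝ) < D := by exact_mod_cast hD.out
    have h2 := (Real.sqrt_pos.mpr h1).ne'
    have h3 : ((f:ℚ):ℝ) ≠ 0 := by exact_mod_cast hf0
    exact mul_ne_zero h3 h2
  obtain ⟨E, hE, hE1⟩ := exists_E (jD D) (sF D f) him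
  have hall := all_units (good h4 hsq) hE hE1 isU_omega
    (fun w hw hw1 => torsion h4 hsq hE hw hw1)
    (fun θ hθ p hp => no_power h8 hsq hf hθ hp)
  have hc : (0:ℤ) ≤ 6 + f^2*D := by linarith
  have hl : l1 (pol (6 + f^2*D)) = k := by rw [l1_pol hc, hk]; ring
  apply ell_of_field isU_omega hall (pol_dvd hf0) (j := 2) ?_ hl
  · obtain ⟨e, he⟩ : ∃ e, D = 2*e := ⟨D/2, by omega⟩
    have h1 : Even (k:ℤ) := by
      rw [hk]
      exact ⟨f^2*e+8, by rw [he]; ring⟩
    exact (Int.even_coe_nat k).mp h1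
  · omega
  · rw [hl, (pol_coeff _).2.2.1, abs_of_nonneg hc, hk]
    linarith

end field

end Pool.Agent.Q269.UnitSum
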