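import Pool.Agent.Q269.UnitSumH

/-!
The field `ℚ(√15) = ℚ(ω)`, `ω² = -1 + 8ω`: its length is 10.
-/

namespace Pool.Agent.Q269.UnitSum

open QuadraticAlgebra Polynomial

instance fact15 : Fact (∀ r : ℚ, r^2 ≠ -1 + 8 * r) := by
  constructor
  intro r hr
  obtain ⟨m, hm⟩ := int_of_sq (x := r - 4) (n := 15) (by push_cast; linear_combination hr)
  have h1 : m * m = 15 := by
    have : (m:ℚ) * m = 15 := by rw [← hm]; linear_combination hr
    exact_mod_cast this
  have h2 : |m| * |m| = 15 := by rw [abs_mul_abs_self]; exact h1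
  have h3 := abs_nonneg m
  have h4 : 3 < |m| := by
    by_contra hc
    push Not at hc
    nlinarith
  have h5 : |m| < 4 := by
    by_contra hc
    push Not at hc
    nlinarith
  omega

/-- the field `ℚ(√15)` -/
abbrev Kt : Type := QuadraticAlgebra ℚ (-1) 8

/-- the embedding of `ℚ` -/
noncomputable abbrev jQ : ℚ →+* ℂ := algebraMap ℚ ℂ

lemma unit_pm_Q {x : ℚ} (hx : IsU x) : x = 1 ∨ x = -1 := by
  obtain ⟨a, ha⟩ := int_of_integral hx.2.1
  obtain ⟨b, hb⟩ := int_of_integral hx.2.2
  have h1 : x * x⁻¹ = 1 := mul_inv_cancel₀ hx.1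
  rw [hb, ha] at h1
  have h2 : a * b = 1 := by exact_mod_cast h1
  rcases Int.eq_one_or_neg_one_of_mul_eq_one h2 with h | h
  · left; rw [ha, h]; norm_num
  · right; rw [ha, h]; norm_num

lemma good_Q : Good jQ := by
  refine ⟨fun n hn => unit_pm_Q hn, fun B => ?_⟩
  obtain ⟨M, hM⟩ := exists_nat_ge B
  have hfin : ((fun p : ℤ => (p : ℚ)) '' (Set.Icc (-(M:ℤ)) M)).Finite := (Set.finite_Icc _ _).image _
  apply hfin.subset
  rintro x ⟨hx, hxB⟩
  obtain ⟨a, ha⟩ := int_of_integral hx
  have h1 : ‖jQ x‖ = |(a:ℝ)| := by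
    rw [ha]
    simp
  rw [h1] at hxB
  have h2 : |(a:ℝ)| ≤ M := le_trans hxB hM
  have h3 : |a| ≤ M := by exact_mod_cast h2
  exact ⟨a, ⟨(abs_le.mp h3).1, (abs_le.mp h3).2⟩, ha.symm⟩

/-- the real number `4 + √15` -/
noncomputable def e15 : ℝ := 4 + Real.sqrt 15

lemma e15_sq : e15 * e15 = -1 + 8 * e15 := by
  unfold e15
  have : Real.sqrt 15 * Real.sqrt 15 = 15 := Real.mul_self_sqrt (by norm_num)
  linear_combination this

lemma e15_C : (e15 : ℂ) * e15 = -1 + jQ 8 * e15 := by
  have h : jQ 8 = ((8:ℝ) : ℂ) := by simp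
  rw [h, ← Complex.ofReal_mul, e15_sq]
  push_cast
  ring

lemma torsion15 {w : Kt} (h : ‖emb jQ (e15:ℂ) e15_C w‖ = 1) : w = 1 ∨ w = -1 := by
  have h1 : emb jQ (e15:ℂ) e15_C w = (((w.re:ℝ) + w.im * e15 : ℝ) : ℂ) := by
    rw [emb_apply]
    simp
  have h2 : |((w.re:ℝ) + w.im * e15 : ℝ)| = 1 := by
    rw [h1, Complex.norm_real] at h
    exact h
  have hinj := (emb jQ (e15:ℂ) e15_C).injective
  rcases (abs_eq (by norm_num)).mp h2 with h3 | h3
  · left
    apply hinj
    rw [h1, h3, map_one]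
    norm_num
  · right
    apply hinj
    rw [h1, h3, map_neg, map_one]
    norm_num

lemma norm_omega15 : QuadraticAlgebra.norm (ω : Kt) = 1 := by
  rw [norm_def]; simp

lemma Dk_Sk {R : Type*} [CommRing R] (s : R) (n : ℕ) : Dk s n^2 - 4 = (s^2-4) * Sk s n^2 := by
  rw [(Dk_eq s n).1]
  linear_combination 4 * inv s n

lemma Dk_grow {T : ℤ} (hT : 3 ≤ T) : ∀ n : ℕ, T ≤ Dk T (n+1) ∧ 2 * Dk T (n+1) ≤ Dk T (n+2) := by
  intro n
  induction n with
  | zero =>
    refine ⟨by simp, ?_⟩
    rw [Dk_succ]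
    simp only [Dk_one, Dk_zero, zero_add]
    nlinarith
  | succ n ih =>
    have h1 : 0 < Dk T (n+1) := by linarith
    refine ⟨by linarith, ?_⟩
    rw [Dk_succ T (n+1)]
    nlinarith [ih.1, ih.2]

lemma Dk_big {T : ℤ} (hT : 3 ≤ T) : ∀ n : ℕ, 12 ≤ Dk T (n+3) := by
  intro n
  induction n with
  | zero =>
    have h1 := Dk_grow hT 0
    have h2 := Dk_grow hT 1
    simp only [zero_add, Nat.reduceAdd] at *
    linarith
  | succ n ih =>
    have h2 := (Dk_grow hT (n+2)).2
    have e1 : n + 2 + 1 = n + 3 := rfl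
    have e2 : n + 2 + 2 = n + 1 + 3 := by ring
    rw [e1, e2] at h2
    linarith

lemma trace_pow15 {θ : Kt} (hN : QuadraticAlgebra.norm θ = 1) : ∀ n : ℕ,
    trace (θ^n) = Dk (trace θ) n ∧ trace (θ^(n+1)) = Dk (trace θ) (n+1) := by
  intro n
  induction n with
  | zero => refine ⟨by rw [pow_zero, trace_one]; rfl, by rw [zero_add, pow_one]; rfl⟩
  | succ n ih =>
    refine ⟨ih.2, ?_⟩
    have h1 : θ^(n+2) = trace θ • θ^(n+1) - θ^n := by
      have h2 := sq_eq_trace_smul_sub_norm θ
      rw [hN, map_one] at h2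
      rw [pow_add, h2, mul_sub, mul_one, pow_succ, mul_smul_comm]
    rw [show n+1+1 = n+2 from rfl, h1, map_sub, map_smul, Dk_succ, ih.1, ih.2, smul_eq_mul]

lemma no_sq_val {x : ℤ} (h : x*x = 10 ∨ x*x = 6) : False := by
  have h2 : |x| * |x| = x*x := abs_mul_abs_self x
  have h3 := abs_nonneg x
  have h4 : |x| < 4 := by
    by_contra hc
    push Not at hc
    rcases h with h | h <;> nlinarith
  obtain ⟨y, hy⟩ : ∃ y, y = |x| := ⟨_, rfl⟩
  rw [← hy] at h2 h3 h4
  interval_cases y <;> omega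

lemma no_power15 {θ : Kt} (hθ : IsU θ) {p : ℕ} (hp : p.Prime) :
    (ω : Kt) ≠ θ^p ∧ (ω : Kt) ≠ -θ^p := by
  rcases hp.eq_two_or_odd with rfl | hodd
  · -- p = 2
    obtain ⟨x, hx⟩ := int_of_integral hθ.trace_int
    have h1 : trace (θ^2) = (x:ℚ)*x - 2 * QuadraticAlgebra.norm θ := by
      have h2 := sq_eq_trace_smul_sub_norm θ
      rw [h2, map_sub, map_smul, trace_algebraMap, smul_eq_mul, hx]
    have h5 : trace (ω : Kt) = 8 := by rw [trace_omega]
    constructor
    · intro h
      rw [← h, h5] at h1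
      rcases unit_pm_Q hθ.norm' with h2 | h2
      · rw [h2] at h1
        apply no_sq_val (x := x)
        left
        have : (x:ℚ)*x = 10 := by linarith
        exact_mod_cast this
      · rw [h2] at h1
        apply no_sq_val (x := x)
        right
        have : (x:ℚ)*x = 6 := by linarith
        exact_mod_cast this
    · intro h
      have h6 : trace (ω : Kt) = - trace (θ^2) := by rw [h, map_neg]
      rw [h5, h1] at h6
      have h7 := mul_self_nonneg (x:ℚ)
      rcases unit_pm_Q hθ.norm' with h2 | h2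
      · rw [h2] at h6
        linarith
      · rw [h2] at h6
        linarith
  · have hopp : Odd p := Nat.odd_iff.mpr hodd
    have main : ∀ θ : Kt, IsU θ → (ω : Kt) ≠ θ^p := by
      intro θ hθ h
      have hN : QuadraticAlgebra.norm θ = 1 := by
        rcases unit_pm_Q hθ.norm' with h1 | h1
        · exact h1
        · exfalso
          have h2 := congrArg QuadraticAlgebra.norm h
          rw [norm_omega15, map_pow, h1, hopp.neg_one_pow] at h2
          norm_num at h2
      obtain ⟨x, hx⟩ := int_of_integral hθ.trace_int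
      have h1 := (trace_pow15 hN p).1
      have hc : (x:ℚ) = Int.castRingHom ℚ x := rfl
      rw [← h, trace_omega, hx, hc, ← (Dk_map (Int.castRingHom ℚ) x p).1] at h1
      have h2 : Dk x p = 8 := by
        have : ((8:ℤ):ℚ) = ((Dk x p : ℤ) : ℚ) := by
          rw [eq_intCast] at h1
          push_cast
          exact h1
        exact_mod_cast this.symm
      have h3 := Dk_Sk x p
      rw [h2] at h3
      have hp3 : 3 ≤ p := by
        have := hp.two_le
        omega
      obtain ⟨m, rfl⟩ : ∃ m, p = m + 3 := ⟨p - 3, by omega⟩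
      rcases le_or_gt 3 x with h4 | h4
      · have := Dk_big h4 m
        omega
      · rcases le_or_gt x (-3) with h5 | h5
        · have h6 := Dk_big (T := -x) (by omega) m
          obtain ⟨c, hc⟩ := hopp
          rw [hc, (Dk_neg x c).2, ← hc, h2] at h6
          omega
        · have h6 : x^2 - 4 ≤ 0 := by nlinarith
          nlinarith [sq_nonneg (Sk x (m+3))]
    refine ⟨main θ hθ, fun h => main (-θ) hθ.neg ?_⟩
    rw [hopp.neg_pow]
    exact h

/-- the polynomial `X² - 8X + 1` -/
noncomputable def pol2 : ℤ[X] := X^2 - C 8 * X + 1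

lemma pol2_natDegree : pol2.natDegree = 2 := by
  unfold pol2
  compute_degree!

lemma pol2_monic : pol2.Monic := by
  unfold pol2
  monicity!

lemma pol2_coeff : pol2.coeff 0 = 1 ∧ pol2.coeff 1 = -8 ∧ pol2.coeff 2 = 1 := by
  unfold pol2
  refine ⟨?_, ?_, ?_⟩ <;> simp [coeff_X, coeff_one]

lemma l1_pol2 : l1 pol2 = 10 := by
  have h : pol2.support ⊆ Finset.range 3 := by
    have := supp_sub (f := pol2)
    rwa [pol2_natDegree] at this
  rw [l1_eq _ _ h]
  obtain ⟨h0, h1, h2⟩ := pol2_coeff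
  simp only [Finset.sum_range_succ, Finset.sum_range_zero, h0, h1, h2]
  norm_num

lemma aeval_pol2 : aeval (ω : Kt) pol2 = 0 := by
  have h1 : (ω : Kt) * ω = -1 + 8 * ω := by
    refine QuadraticAlgebra.ext ?_ ?_
    · simp
    · simp
  have hC : ∀ n : ℤ, aeval (ω : Kt) (C n) = (n : Kt) := fun n => by rw [aeval_C]; rfl
  unfold pol2
  simp only [map_add, map_sub, map_mul, map_pow, aeval_X, hC, map_one]
  push_cast
  linear_combination h1

lemma pol2_dvd (P : ℤ[X]) : aeval (ω : Kt) P = 0 ↔ pol2 ∣ P := by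
  constructor
  · intro h
    obtain ⟨r, hr⟩ : ∃ r : ℤ[X], r = P %ₘ pol2 := ⟨_, rfl⟩
    have h2 := modByMonic_add_div P pol2
    rw [← hr] at h2
    have h1 : aeval (ω : Kt) r = 0 := by
      rw [← h2, map_add, map_mul, aeval_pol2, zero_mul, add_zero] at h
      exact h
    have hdeg : r.natDegree < 2 := by
      rw [hr]
      have := natDegree_modByMonic_lt P pol2_monic (fun h => by
        have := pol2_natDegree
        rw [h] at this
        simp at this)
      rwa [pol2_natDegree] at this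
    have hr4 := r.as_sum_range' 2 hdeg
    rw [hr4] at h1
    simp only [Finset.sum_range_succ, Finset.sum_range_zero, map_add, aeval_monomial, zero_add,
      pow_zero, pow_one, mul_one, algebraMap_int_eq, eq_intCast] at h1
    have e1 := congrArg QuadraticAlgebra.re h1
    have e2 := congrArg QuadraticAlgebra.im h1
    simp at e1 e2
    have a0 : r.coeff 0 = 0 := by exact_mod_cast e1
    have a1 : r.coeff 1 = 0 := by exact_mod_cast e2
    have hr0 : r = 0 := by
      rw [hr4]
      simp [Finset.sum_range_succ, a0, a1]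
    rw [hr0, zero_add] at h2
    exact ⟨_, h2.symm⟩
  · rintro ⟨g, rfl⟩
    rw [map_mul, aeval_pol2, zero_mul]

lemma isU_omega15 : IsU (ω : Kt) := by
  have h0 : (ω : Kt) ≠ 0 := by
    intro h
    have := norm_omega15
    rw [h, QuadraticAlgebra.norm_zero] at this
    exact zero_ne_one this
  have h1 : IsIntegral ℤ (ω : Kt) :=
    ⟨pol2, pol2_monic, by
      have := aeval_pol2
      rwa [aeval_def] at this⟩
  refine ⟨h0, h1, ?_⟩
  have h2 : (ω : Kt)⁻¹ = star ω := by
    apply inv_eq_of_mul_eq_one_right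
    rw [← algebraMap_norm_eq_mul_star, norm_omega15, map_one]
  rw [h2]
  exact h1.map (starRingEnd Kt).toIntAlgHom

lemma numberField_Kt : NumberField Kt := by
  have h1 : FiniteDimensional ℚ Kt := by
    convert! (inferInstance : Module.Finite ℚ Kt)
  exact { to_charZero := inferInstance
          to_finiteDimensional := h1 }

theorem ell_Kt : ell Kt = (10 : ℕ) := by
  have hE1 : 1 < ‖(e15:ℂ)‖ := by
    rw [Complex.norm_real, Real.norm_eq_abs]
    have : 1 < e15 := by
      unfold e15
      have := Real.sqrt_nonneg 15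
      linarith
    exact lt_of_lt_of_le this (le_abs_self _)
  have hall := all_units good_Q e15_C hE1 isU_omega15
    (fun w _ hw1 => torsion15 hw1)
    (fun θ hθ p hp => no_power15 hθ hp)
  apply ell_of_field isU_omega15 hall pol2_dvd (j := 1) ?_ (k := 10) l1_pol2
  · decide
  · norm_num
  · rw [l1_pol2, pol2_coeff.2.1]
    norm_num

end Pool.Agent.Q269.UnitSum
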